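import Mathlib

/-!
Short Weierstrass curves `y² = x³ + A x + B` and the group law on their points,
as a thin layer over Mathlib's `WeierstrassCurve.Affine.Point`.
-/

open WeierstrassCurve WeierstrassCurve.Affine
open scoped Classical

namespace Pool.Agent.C98

variable {K : Type*} [Field K]

/-- the short Weierstrass curve `y² = x³ + A x + B` -/
def E (A B : K) : Affine K := ⟨0, 0, 0, A, B⟩

/-- the points of `E A B` with coordinates in a field extension `F` -/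
abbrev Pt (A B : K) (F : Type*) [Field F] [Algebra K F] : Type _ := ((E A B)⁄F).Point

variable {A B : K} {F : Type*} [Field F] [Algebra K F]

theorem E_Δ (A B : K) : (E A B).Δ = -16 * (4 * A ^ 3 + 27 * B ^ 2) := by
  simp only [WeierstrassCurve.Δ, WeierstrassCurve.b₂, WeierstrassCurve.b₄, WeierstrassCurve.b₆,
    WeierstrassCurve.b₈, E]
  ring

theorem disc_ne [(E A B).IsElliptic] : 4 * A ^ 3 + 27 * B ^ 2 ≠ 0 := by
  intro h
  have := (E A B).isUnit_Δ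
  rw [E_Δ, h, mul_zero] at this
  exact not_isUnit_zero this

theorem eqn_iff (x y : F) : ((E A B)⁄F).Equation x y ↔
    y ^ 2 = x ^ 3 + algebraMap K F A * x + algebraMap K F B := by
  rw [equation_iff]
  simp [E]

instance instEll [(E A B).IsElliptic] : ((E A B)⁄F).IsElliptic := by
  unfold Affine.baseChange WeierstrassCurve.baseChange
  infer_instance

/-- the point with given coordinates -/
def pt [(E A B).IsElliptic] (x y : F)
    (h : y ^ 2 = x ^ 3 + algebraMap K F A * x + algebraMap K F B) : Pt A B F :=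
  .some x y (equation_iff_nonsingular.mp ((eqn_iff x y).mpr h))

section
variable [(E A B).IsElliptic]

theorem mk_ne_zero {x y : F}
    (h : y ^ 2 = x ^ 3 + algebraMap K F A * x + algebraMap K F B) :
    (pt x y h : Pt A B F) ≠ 0 := Point.some_ne_zero _

theorem mk_inj {x y x' y' : F}
    {h : y ^ 2 = x ^ 3 + algebraMap K F A * x + algebraMap K F B}
    {h' : y' ^ 2 = x' ^ 3 + algebraMap K F A * x' + algebraMap K F B} :
    (pt x y h : Pt A B F) = pt x' y' h' ↔ x = x' ∧ y = y' := by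
  simp [pt]

/-- every point is `0` or of the form `pt x y h` -/
theorem pt_cases (P : Pt A B F) : P = 0 ∨ ∃ x y h, P = pt x y h := by
  rcases P with _ | ⟨x, y, h⟩
  · exact Or.inl rfl
  · exact Or.inr ⟨x, y, (eqn_iff x y).mp h.1, rfl⟩

theorem neg_mk {x y : F} (h : y ^ 2 = x ^ 3 + algebraMap K F A * x + algebraMap K F B) :
    -(pt x y h : Pt A B F) = pt x (-y) (by rw [neg_sq, h]) := by
  simp only [pt, Point.neg_some, Affine.negY]
  simp [E]

theorem add_eqn_of_ne {x₁ y₁ x₂ y₂ : F}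
    (h₁ : y₁ ^ 2 = x₁ ^ 3 + algebraMap K F A * x₁ + algebraMap K F B)
    (h₂ : y₂ ^ 2 = x₂ ^ 3 + algebraMap K F A * x₂ + algebraMap K F B) (hx : x₁ ≠ x₂) :
    (-((y₁ - y₂) / (x₁ - x₂) * ((((y₁ - y₂) / (x₁ - x₂)) ^ 2 - x₁ - x₂) - x₁) + y₁)) ^ 2 =
      (((y₁ - y₂) / (x₁ - x₂)) ^ 2 - x₁ - x₂) ^ 3 +
        algebraMap K F A * (((y₁ - y₂) / (x₁ - x₂)) ^ 2 - x₁ - x₂) + algebraMap K F B := by
  have h := (nonsingular_add (W := (E A B)⁄F) (equation_iff_nonsingular.mp ((eqn_iff x₁ y₁).mpr h₁))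
    (equation_iff_nonsingular.mp ((eqn_iff x₂ y₂).mpr h₂)) (fun h => hx h.1)).1
  rw [eqn_iff, slope_of_X_ne hx] at h
  simpa [addX, addY, negAddY, Affine.negY, E] using h

theorem add_of_ne {x₁ y₁ x₂ y₂ : F}
    (h₁ : y₁ ^ 2 = x₁ ^ 3 + algebraMap K F A * x₁ + algebraMap K F B)
    (h₂ : y₂ ^ 2 = x₂ ^ 3 + algebraMap K F A * x₂ + algebraMap K F B) (hx : x₁ ≠ x₂) :
    (pt x₁ y₁ h₁ : Pt A B F) + pt x₂ y₂ h₂ = pt (((y₁ - y₂) / (x₁ - x₂)) ^ 2 - x₁ - x₂)
      (-((y₁ - y₂) / (x₁ - x₂) * ((((y₁ - y₂) / (x₁ - x₂)) ^ 2 - x₁ - x₂) - x₁) + y₁))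
      (add_eqn_of_ne h₁ h₂ hx) := by
  simp only [pt]
  rw [Point.add_of_X_ne hx]
  congr 1
  · rw [slope_of_X_ne hx]
    simp [addX, E]
  · rw [slope_of_X_ne hx]
    simp [addX, addY, negAddY, Affine.negY, E]

theorem add_self_eqn {x₁ y₁ : F} (h2 : (2 : F) ≠ 0)
    (h₁ : y₁ ^ 2 = x₁ ^ 3 + algebraMap K F A * x₁ + algebraMap K F B) (hy : y₁ ≠ 0) :
    (-((3 * x₁ ^ 2 + algebraMap K F A) / (2 * y₁) *
      ((((3 * x₁ ^ 2 + algebraMap K F A) / (2 * y₁)) ^ 2 - x₁ - x₁) - x₁) + y₁)) ^ 2 =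
      (((3 * x₁ ^ 2 + algebraMap K F A) / (2 * y₁)) ^ 2 - x₁ - x₁) ^ 3 +
        algebraMap K F A * (((3 * x₁ ^ 2 + algebraMap K F A) / (2 * y₁)) ^ 2 - x₁ - x₁) +
          algebraMap K F B := by
  have hne : y₁ ≠ ((E A B)⁄F).negY x₁ y₁ := by
    simp only [Affine.negY]
    simp [E]
    intro h
    apply hy
    have : 2 * y₁ = 0 := by linear_combination h
    simpa [h2] using this
  have h := (nonsingular_add (W := (E A B)⁄F) (equation_iff_nonsingular.mp ((eqn_iff x₁ y₁).mpr h₁))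
    (equation_iff_nonsingular.mp ((eqn_iff x₁ y₁).mpr h₁)) (fun h => hne h.2)).1
  rw [eqn_iff, slope_of_Y_ne rfl hne] at h
  have e : (3 * x₁ ^ 2 + algebraMap K F A) / (y₁ + y₁) =
    (3 * x₁ ^ 2 + algebraMap K F A) / (2 * y₁) := by rw [two_mul]
  simpa [addX, addY, negAddY, Affine.negY, E, e] using h

theorem add_self' {x₁ y₁ : F} (h2 : (2 : F) ≠ 0)
    (h₁ : y₁ ^ 2 = x₁ ^ 3 + algebraMap K F A * x₁ + algebraMap K F B) (hy : y₁ ≠ 0) :
    (pt x₁ y₁ h₁ : Pt A B F) + pt x₁ y₁ h₁ =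
      pt (((3 * x₁ ^ 2 + algebraMap K F A) / (2 * y₁)) ^ 2 - x₁ - x₁)
      (-((3 * x₁ ^ 2 + algebraMap K F A) / (2 * y₁) *
      ((((3 * x₁ ^ 2 + algebraMap K F A) / (2 * y₁)) ^ 2 - x₁ - x₁) - x₁) + y₁))
      (add_self_eqn h2 h₁ hy) := by
  have hne : y₁ ≠ ((E A B)⁄F).negY x₁ y₁ := by
    simp only [Affine.negY]
    simp [E]
    intro h
    apply hy
    have : 2 * y₁ = 0 := by linear_combination h
    simpa [h2] using this
  simp only [pt]
  have e : (3 * x₁ ^ 2 + algebraMap K F A) / (y₁ + y₁) =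
    (3 * x₁ ^ 2 + algebraMap K F A) / (2 * y₁) := by rw [two_mul]
  rw [Point.add_self_of_Y_ne hne]
  congr 1
  · rw [slope_of_Y_ne rfl hne]
    simp [addX, Affine.negY, E, e]
  · rw [slope_of_Y_ne rfl hne]
    simp [addX, addY, negAddY, Affine.negY, E, e]

theorem add_eq_zero_of {x₁ y₁ x₂ y₂ : F}
    (h₁ : y₁ ^ 2 = x₁ ^ 3 + algebraMap K F A * x₁ + algebraMap K F B)
    (h₂ : y₂ ^ 2 = x₂ ^ 3 + algebraMap K F A * x₂ + algebraMap K F B) (hx : x₁ = x₂)
    (hy : y₁ = -y₂) : (pt x₁ y₁ h₁ : Pt A B F) + pt x₂ y₂ h₂ = 0 := by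
  subst hx hy
  have := neg_mk (A := A) (B := B) (F := F) h₂
  rw [← this, neg_add_cancel]

end

end Pool.Agent.C98
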