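import Pool.Agent.C98.Scale

/-!
Classification of the automorphisms of `k(x,y)`: every automorphism is `P ↦ u P + b`.
-/

open WeierstrassCurve WeierstrassCurve.Affine Polynomial
open scoped Classical

namespace Pool.Agent.C98

section
variable {K k F : Type*} [Field K] [Field k] [Field F]
  [Algebra K k] [Algebra k F] [Algebra K F] [IsScalarTower K k F]
  {A B : K} [(E A B).IsElliptic] [IsAlgClosed k] {x y : F} {v : Valuation F Zm}

theorem disc_ne' :
    4 * algebraMap K k A ^ 3 + 27 * algebraMap K k B ^ 2 ≠ 0 := by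
  intro h
  apply disc_ne (A := A) (B := B)
  apply (algebraMap K k).injective
  simp only [map_add, map_mul, map_pow, map_ofNat, map_zero]
  exact h

theorem cub_separable : (cub k A B).Separable := by
  have hD := disc_ne' (k := k) (A := A) (B := B)
  set a := algebraMap K k A with ha
  set b := algebraMap K k B with hb
  set D := 4 * a ^ 3 + 27 * b ^ 2 with hDdef
  refine ⟨C D⁻¹ * (-(18 * C a * X - 27 * C b)), C D⁻¹ * (4 * C a ^ 2 + 6 * C a * X ^ 2 -
    9 * C b * X), ?_⟩
  have h1 : derivative (cub k A B) = 3 * X ^ 2 + C a := by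
    unfold cub
    simp only [derivative_add, derivative_X_pow, derivative_mul, derivative_C, zero_mul, zero_add,
      derivative_X, mul_one, add_zero, ← ha]
    norm_num
    exact map_ofNat C 3
  rw [h1]
  unfold cub
  rw [← ha, ← hb]
  have h2 : (C D⁻¹ * C D : k[X]) = 1 := by
    rw [← C_mul, inv_mul_cancel₀ hD, C_1]
  have h3 : (C D : k[X]) = 4 * C a ^ 3 + 27 * C b ^ 2 := by
    rw [hDdef]
    simp only [C_add, C_mul, C_pow, map_ofNat]
  rw [← h2, h3]
  ring

theorem two_ne [CharZero K] : (2 : F) ≠ 0 := by
  have : CharZero F := charZero_of_injective_algebraMap (algebraMap K F).injective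
  norm_num

/-- Lemma B: some translate of a non-constant point has a pole at infinity -/
theorem exists_sub_pole [CharZero K] (h : Gen K k F A B x y) (hv : IsVal k x y v) {R : Pt A B F}
    (hR : ∀ b : Pt A B k, cst b ≠ R) :
    ∃ (b : Pt A B k) (X Y : F) (hXY : _), R - cst b = pt X Y hXY ∧ 1 < v X := by
  rcases pt_cases R with rfl | ⟨X, Y, hXY, rfl⟩
  · exact absurd (map_zero _) (hR 0)
  by_cases hX : 1 < v X
  · exact ⟨0, X, Y, hXY, by rw [map_zero, sub_zero], hX⟩
  push Not at hX
  have hY : v Y ≤ 1 := by
    have : v Y ^ 2 ≤ 1 := by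
      rw [← map_pow, hXY, ← aeval_cub (k := k)]
      exact val_aeval_le hv.vc hX _
    by_contra hcon
    push Not at hcon
    exact absurd this (not_le.mpr (one_lt_pow₀ hcon (by norm_num)))
  obtain ⟨c, hc⟩ := hv.exists_residue h X hX
  obtain ⟨d, hd⟩ := hv.exists_residue h Y hY
  have hcub : ∀ z : F, aeval z (cub k A B) = z ^ 3 + algebraMap K F A * z + algebraMap K F B :=
    fun z => aeval_cub z
  have hcd : d ^ 2 = c ^ 3 + algebraMap K k A * c + algebraMap K k B := by
    have h1 := val_aeval_sub hv.vc hc (cub k A B)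
    have h2 : v (Y ^ 2 - algebraMap k F (d ^ 2)) < 1 := by
      have := val_aeval_sub hv.vc hd (Polynomial.X ^ 2 : k[X])
      simpa using this
    rw [hcub, ← hXY] at h1
    have h3 : v (algebraMap k F ((cub k A B).eval c - d ^ 2)) < 1 := by
      have e : algebraMap k F ((cub k A B).eval c - d ^ 2) =
        (Y ^ 2 - algebraMap k F (d ^ 2)) - (Y ^ 2 - algebraMap k F ((cub k A B).eval c)) := by
        rw [map_sub]; ring
      rw [e]
      exact (v.map_sub _ _).trans_lt (max_lt h2 h1)
    have h4 := vc_lt hv.vc h3
    simp [cub] at h4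
    linear_combination -h4
  have hne : X ≠ algebraMap k F c := by
    intro h0
    obtain ⟨b, hb⟩ := exists_cst hXY ⟨c, h0.symm⟩
    exact hR b hb
  have hne' : X - algebraMap k F c ≠ 0 := sub_ne_zero.mpr hne
  have hvne : v (X - algebraMap k F c) ≠ 0 := (map_ne_zero v).mpr hne'
  have hadd : (pt X Y hXY : Pt A B F) - cst (pt c d hcd) = _ :=
    (by rw [sub_eq_add_neg, ← map_neg, neg_mk, cst_mk] : (pt X Y hXY : Pt A B F) -
      cst (pt c d hcd) = pt X Y hXY + pt (algebraMap k F c) (algebraMap k F (-d)) (eqn_cst
        (by rw [neg_sq, hcd]))).trans (add_of_ne _ _ hne)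
  refine ⟨pt c d hcd, _, _, _, hadd, ?_⟩
  set lam := (Y - algebraMap k F (-d)) / (X - algebraMap k F c) with hlam
  have key : 1 < v (lam ^ 2) := by
    by_cases hd0 : d = 0
    · -- 2-torsion residue
      subst hd0
      have e : lam ^ 2 * (X - algebraMap k F c) =
          aeval X (Polynomial.X ^ 2 + C c * Polynomial.X + C (c ^ 2 + algebraMap K k A) : k[X]) := by
        rw [hlam, div_pow, neg_zero, map_zero, sub_zero, hXY]
        simp only [map_add, map_mul, map_pow, aeval_X, aeval_C, ← IsScalarTower.algebraMap_apply]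
        rw [div_mul_eq_mul_div, div_eq_iff (pow_ne_zero 2 hne')]
        have hcd' := congrArg (algebraMap k F) hcd
        simp only [map_add, map_mul, map_pow, map_zero, ← IsScalarTower.algebraMap_apply] at hcd'
        linear_combination (-(X - algebraMap k F c)) * hcd'
      have hg : (Polynomial.X ^ 2 + C c * Polynomial.X + C (c ^ 2 + algebraMap K k A) : k[X]).eval c
          ≠ 0 := by
        simp only [eval_add, eval_pow, eval_X, eval_mul, eval_C]
        intro h0
        apply disc_ne' (k := k) (A := A) (B := B)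
        have hB : algebraMap K k B = -c ^ 3 - algebraMap K k A * c := by
          linear_combination -hcd
        have hA : algebraMap K k A = - 3 * c ^ 2 := by linear_combination h0
        rw [hB, hA]
        ring
      have h1 := val_aeval_eq_one hv.vc hc hg
      have h2 := congrArg v e
      rw [h1, map_mul] at h2
      have h3 : v (lam ^ 2) = (v (X - algebraMap k F c))⁻¹ := eq_inv_of_mul_eq_one_left h2
      rw [h3]
      exact one_lt_inv₀ (zero_lt_iff.mpr hvne) |>.mpr hc
    · have h1 : v (Y - algebraMap k F (-d)) = 1 := by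
        have e : Y - algebraMap k F (-d) = algebraMap k F (2 * d) + (Y - algebraMap k F d) := by
          simp only [map_neg, map_mul, map_ofNat]
          ring
        have : CharZero k := charZero_of_injective_algebraMap (algebraMap K k).injective
        have h2d : (2 * d : k) ≠ 0 := mul_ne_zero two_ne_zero hd0
        rw [e, vadd_l (by rwa [hv.vc _ h2d]), hv.vc _ h2d]
      have h2 : v lam = (v (X - algebraMap k F c))⁻¹ := by
        rw [hlam, map_div₀, h1, one_div]
      have h3 : 1 < v lam := by
        rw [h2]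
        exact one_lt_inv₀ (zero_lt_iff.mpr hvne) |>.mpr hc
      rw [map_pow]
      exact one_lt_pow₀ h3 (by norm_num)
  have e : lam ^ 2 - X - algebraMap k F c = lam ^ 2 + (-(X + algebraMap k F c)) := by ring
  have h5 : v (-(X + algebraMap k F c)) ≤ 1 := by
    rw [Valuation.map_neg]
    exact (v.map_add _ _).trans (max_le hX (vc_le hv.vc c))
  rw [e, vadd_l (h5.trans_lt key)]
  exact key

/-- Lemma C: an automorphism moving `x` to an element with a pole preserves `v` -/
theorem val_aut (h : Gen K k F A B x y) (hv : IsVal k x y v) (a : F ≃ₐ[k] F)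
    (ha : 1 < v (a x)) (z : F) : v (a z) = v z := by
  have heq : (a y) ^ 2 = (a x) ^ 3 + algebraMap K F A * a x + algebraMap K F B :=
    eqn_map (a : F →ₐ[k] F) h.eqn
  have hx0 : v (a x) ≠ 0 := (zero_lt_one.trans ha).ne'
  -- the general relation
  have rel : ∀ z : F, z ≠ 0 → v (a z) ^ 2 = v (a x) ^ (WithZero.log (v z)) := by
    intro z hz
    obtain ⟨p, q, r, hr, hzr⟩ := h.rep z
    have hpq : p ≠ 0 ∨ q ≠ 0 := by
      by_contra hcon
      push Not at hcon
      rw [hcon.1, hcon.2, map_zero, zero_mul, add_zero] at hzr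
      rcases mul_eq_zero.mp hzr with h0 | h0
      · exact hz h0
      · exact aeval_ne_zero h.tr hr h0
    have h1 := congrArg v hzr
    rw [map_mul, hv.val_pq h.eqn hpq, hv.val_p hr] at h1
    have h1' := congrArg WithZero.log h1
    rw [WithZero.log_mul ((map_ne_zero v).mpr hz) WithZero.exp_ne_zero, WithZero.log_exp,
      WithZero.log_exp] at h1'
    have h2 := congrArg a hzr
    simp only [map_mul, map_add] at h2
    have e : ∀ p : k[X], a (aeval x p) = aeval (a x) p := fun p =>
      (aeval_algHom_apply (a : F →ₐ[k] F) x p).symm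
    rw [e, e, e] at h2
    have h3 := congrArg (fun t => v t ^ 2) h2
    simp only [map_mul, mul_pow] at h3
    rw [C98.val_pq hv.vc ha heq hpq, val_aeval hv.vc ha hr, ← pow_mul] at h3
    have h4 : v (a x) ^ (WithZero.log (v z)) * v (a x) ^ (r.natDegree * 2) =
        v (a x) ^ nd p q := by
      rw [← zpow_natCast, ← zpow_natCast, ← zpow_add₀ hx0]
      congr 1
      push_cast
      linarith
    rw [← h4] at h3
    exact mul_right_cancel₀ (pow_ne_zero _ hx0) h3
  have hxz : x ≠ 0 := by
    intro h0
    apply h.tr
    rw [h0]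
    exact isAlgebraic_zero
  have hyz : y ≠ 0 := by
    intro h0
    have := hv.vy
    rw [h0, map_zero] at this
    exact WithZero.exp_ne_zero this.symm
  -- logs
  have rel' : ∀ z : F, z ≠ 0 → 2 * WithZero.log (v (a z)) =
      WithZero.log (v z) * WithZero.log (v (a x)) := by
    intro z hz
    have := congrArg WithZero.log (rel z hz)
    rw [WithZero.log_pow, WithZero.log_zpow] at this
    simpa using this
  have hy := rel' y hyz
  rw [hv.vy, WithZero.log_exp] at hy
  have hyx : (y / x : F) ≠ 0 := div_ne_zero hyz hxz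
  have hw := rel' (a.symm (y / x)) (by simpa using hyx)
  rw [AlgEquiv.apply_symm_apply, map_div₀, hv.vx, hv.vy, ← WithZero.exp_sub,
    WithZero.log_exp] at hw
  have hpos : 0 < WithZero.log (v (a x)) := by
    rw [← WithZero.log_one]
    exact WithZero.log_lt_log one_ne_zero hx0 |>.mpr ha
  have hn2 : WithZero.log (v (a x)) = 2 := by
    set n := WithZero.log (v (a x)) with hn
    have hdvd : n ∣ 2 := ⟨_, by rw [mul_comm]; linarith⟩
    have hle : n ≤ 2 := Int.le_of_dvd (by norm_num) hdvd
    interval_cases n
    · omega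
    · rfl
  by_cases hz : z = 0
  · rw [hz, map_zero]
  · have h1 := rel' z hz
    rw [hn2] at h1
    have h2 : WithZero.log (v (a z)) = WithZero.log (v z) := by linarith
    have h3 := congrArg WithZero.exp h2
    rwa [WithZero.exp_log ((map_ne_zero v).mpr (by simpa using hz)),
      WithZero.exp_log ((map_ne_zero v).mpr hz)] at h3

end

end Pool.Agent.C98
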