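import Pool.Agent.C98.Class

/-!
Regular functions are constant; classification of the automorphisms of `k(x,y)`.
-/

open WeierstrassCurve WeierstrassCurve.Affine Polynomial
open scoped Classical

namespace Pool.Agent.C98

section
variable {K k F : Type*} [Field K] [Field k] [Field F]
  [Algebra K k] [Algebra k F] [Algebra K F] [IsScalarTower K k F]
  {A B : K} [(E A B).IsElliptic] [IsAlgClosed k] {x y : F} {v : Valuation F Zm}

/-- negation, as a homomorphism -/
theorem Gen.exists_neg (h : Gen K k F A B x y) : ∃ φ : F →ₐ[k] F, pmap φ h.P = -h.P := by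
  apply h.exists_hom'
  intro c hc
  apply h.P_ne_cst (-c)
  rw [map_neg, hc, neg_neg]

noncomputable def Gen.neg0 (h : Gen K k F A B x y) : F →ₐ[k] F := h.exists_neg.choose

theorem Gen.neg0_P (h : Gen K k F A B x y) : pmap h.neg0 h.P = -h.P := h.exists_neg.choose_spec

theorem Gen.neg0_comp (h : Gen K k F A B x y) : h.neg0.comp h.neg0 = AlgHom.id k F := by
  apply h.hom_ext'
  rw [pmap_comp, h.neg0_P, map_neg, h.neg0_P, pmap_id, neg_neg]

/-- negation, as an automorphism -/
noncomputable def Gen.neg (h : Gen K k F A B x y) : F ≃ₐ[k] F :=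
  AlgEquiv.ofAlgHom h.neg0 h.neg0 h.neg0_comp h.neg0_comp

theorem Gen.neg_P (h : Gen K k F A B x y) : amap h.neg h.P = -h.P := h.neg0_P

theorem Gen.neg_xy (h : Gen K k F A B x y) : h.neg x = x ∧ h.neg y = -y := by
  have := h.neg_P
  rwa [Gen.P, amap_mk, neg_mk, mk_inj] at this

theorem Gen.tau_neg_comm (h : Gen K k F A B x y) (b : Pt A B k) :
    h.tau b * h.neg = h.neg * h.tau (-b) := by
  apply h.aut_ext
  rw [amap_mul, amap_mul, h.neg_P, map_neg, h.tau_P, h.tau_P, map_add, h.neg_P, amap_cst, map_neg]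
  abel

theorem aut_aeval (a : F ≃ₐ[k] F) (z : F) (p : k[X]) : a (aeval z p) = aeval (a z) p :=
  (aeval_algHom_apply (a : F →ₐ[k] F) z p).symm

/-- V5: an element of `k(x)` regular at all finite points is a polynomial -/
theorem poly_of_regular (h : Gen K k F A B x y) (hv : IsVal k x y v) {w : F} {g r : k[X]}
    (hr : r ≠ 0) (hw : w * aeval x r = aeval x g)
    (hreg : ∀ b : Pt A B k, b ≠ 0 → v (h.tau b w) ≤ 1) : ∃ p : k[X], w = aeval x p := by
  have hd : EuclideanDomain.gcd g r ≠ 0 := fun h0 => hr (EuclideanDomain.gcd_eq_zero_iff.mp h0).2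
  obtain ⟨g', hg'⟩ := EuclideanDomain.gcd_dvd_left g r
  obtain ⟨r', hr'⟩ := EuclideanDomain.gcd_dvd_right g r
  set d := EuclideanDomain.gcd g r with hd'
  have hcop : IsCoprime g' r' := by
    have := EuclideanDomain.gcd_eq_gcd_ab g r
    rw [← hd'] at this
    refine ⟨EuclideanDomain.gcdA g r, EuclideanDomain.gcdB g r, ?_⟩
    apply mul_left_cancel₀ hd
    calc d * (EuclideanDomain.gcdA g r * g' + EuclideanDomain.gcdB g r * r') =
        (d * g') * EuclideanDomain.gcdA g r + (d * r') * EuclideanDomain.gcdB g r := by ring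
      _ = d * 1 := by rw [← hg', ← hr', mul_one, ← this]
  have hr'0 : r' ≠ 0 := by
    intro h0
    rw [h0, mul_zero] at hr'
    exact hr hr'
  have hw' : w * aeval x r' = aeval x g' := by
    rw [hg', hr', map_mul, map_mul] at hw
    have hdx := aeval_ne_zero h.tr hd
    apply mul_left_cancel₀ hdx
    linear_combination hw
  by_cases hdeg : r'.degree = 0
  · rw [eq_C_of_degree_eq_zero hdeg] at hw' hr'0
    have hc : r'.coeff 0 ≠ 0 := by
      intro h0
      rw [h0, C_0] at hr'0
      exact hr'0 rfl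
    refine ⟨C (r'.coeff 0)⁻¹ * g', ?_⟩
    rw [map_mul, ← hw', aeval_C, aeval_C, map_inv₀]
    have : algebraMap k F (r'.coeff 0) ≠ 0 := by rwa [Ne, map_eq_zero]
    field_simp
  · exfalso
    obtain ⟨c, hc⟩ := IsAlgClosed.exists_root r' hdeg
    have hg : g'.eval c ≠ 0 := by
      intro h0
      obtain ⟨s, t, hst⟩ := hcop
      have := congrArg (Polynomial.eval c) hst
      simp only [eval_add, eval_mul, h0, IsRoot.def.mp hc, mul_zero, add_zero, eval_one] at this
      exact zero_ne_one this
    obtain ⟨d', hd'⟩ := IsAlgClosed.exists_pow_nat_eq (c ^ 3 + algebraMap K k A * c +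
      algebraMap K k B) (n := 2) (by norm_num)
    have hres := h.val_tau_x hv hd'
    set b : Pt A B k := pt c d' hd' with hb
    have hb0 : b ≠ 0 := mk_ne_zero _
    have h1 := congrArg (h.tau b) hw'
    rw [map_mul, aut_aeval, aut_aeval] at h1
    have h2 := congrArg v h1
    rw [map_mul, val_aeval_eq_one hv.vc hres hg] at h2
    have h3 : v (aeval (h.tau b x) r') < 1 := by
      have := val_aeval_sub hv.vc hres r'
      rwa [IsRoot.def.mp hc, map_zero, sub_zero] at this
    have h4 : v (h.tau b w) * v (aeval (h.tau b x) r') < 1 :=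
      (mul_le_of_le_one_left zero_le (hreg b hb0)).trans_lt h3
    rw [h2] at h4
    exact lt_irrefl _ h4

/-- a polynomial in `x` with small value at infinity -/
theorem natDegree_le_of_val (hv : IsVal k x y v) {p : k[X]} {n : ℕ}
    (hp : v (aeval x p) ≤ WithZero.exp (2 * n + 1 : ℤ)) : p.natDegree ≤ n := by
  by_cases h0 : p = 0
  · rw [h0, natDegree_zero]; exact Nat.zero_le n
  · rw [hv.val_p h0, WithZero.exp_le_exp] at hp
    omega

/-- Lemma A': a function with no poles besides at most a simple pole at infinity is constant -/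
theorem const_of_regular [CharZero K] (h : Gen K k F A B x y) (hv : IsVal k x y v) {z : F}
    (hreg : ∀ b : Pt A B k, b ≠ 0 → v (h.tau b z) ≤ 1) (hz : v z ≤ WithZero.exp 1) :
    ∃ c : k, z = algebraMap k F c := by
  have hneg : ∀ w : F, v (h.neg w) = v w := fun w =>
    val_aut h hv h.neg (by rw [h.neg_xy.1]; exact hv.one_lt) w
  have hreg' : ∀ b : Pt A B k, b ≠ 0 → v (h.tau b (h.neg z)) ≤ 1 := by
    intro b hb
    have : h.tau b (h.neg z) = h.neg (h.tau (-b) z) := by
      have := DFunLike.congr_fun (h.tau_neg_comm b) z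
      exact this
    rw [this, hneg]
    exact hreg (-b) (neg_ne_zero.mpr hb)
  obtain ⟨p, q, r, hr, hzr⟩ := h.rep z
  have hrx := aeval_ne_zero h.tr hr
  have hnzr : h.neg z * aeval x r = aeval x p - aeval x q * y := by
    have := congrArg h.neg hzr
    simp only [map_mul, map_add, aut_aeval, h.neg_xy.1, h.neg_xy.2] at this
    rw [this]
    ring
  -- the trace
  obtain ⟨T, hT⟩ := poly_of_regular h hv (w := z + h.neg z) (g := 2 * p) hr
    (by rw [add_mul, hzr, hnzr, map_mul, map_ofNat]; ring) (by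
      intro b hb
      rw [map_add]
      exact (v.map_add _ _).trans (max_le (hreg b hb) (hreg' b hb)))
  have hTdeg : T.natDegree ≤ 0 := by
    apply natDegree_le_of_val hv
    rw [← hT]
    refine (v.map_add _ _).trans (max_le ?_ ?_)
    · simpa using hz
    · rw [hneg]; simpa using hz
  obtain ⟨t, rfl⟩ := natDegree_eq_zero.mp (Nat.le_zero.mp hTdeg)
  rw [aeval_C] at hT
  -- the norm
  obtain ⟨N, hN⟩ := poly_of_regular h hv (w := z * h.neg z) (g := p ^ 2 - q ^ 2 * cub k A B)
    (pow_ne_zero 2 hr)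
    (by
      simp only [map_sub, map_mul, map_pow, aeval_cub]
      rw [← h.eqn]
      linear_combination (h.neg z * aeval x r) * hzr + (aeval x p + aeval x q * y) * hnzr) (by
      intro b hb
      rw [map_mul, map_mul]
      exact mul_le_one' (hreg b hb) (hreg' b hb))
  have hNdeg : N.natDegree ≤ 1 := by
    apply natDegree_le_of_val hv
    rw [← hN, map_mul, hneg]
    have h2 : (WithZero.exp 1 : Zm) * WithZero.exp 1 ≤ WithZero.exp (2 * (1 : ℕ) + 1 : ℤ) := by
      rw [← WithZero.exp_add]
      exact WithZero.exp_le_exp.mpr (by norm_num)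
    exact (mul_le_mul' hz hz).trans h2
  -- the difference
  have hS : (C t ^ 2 - 4 * N) * r ^ 2 = (2 * q) ^ 2 * cub k A B := by
    apply aeval_inj h.tr
    simp only [map_sub, map_mul, map_pow, aeval_cub, aeval_C, map_ofNat]
    rw [← h.eqn, ← hN, ← hT]
    have e : (z - h.neg z) * aeval x r = 2 * (aeval x q * y) := by
      rw [sub_mul, hzr, hnzr]; ring
    linear_combination ((z - h.neg z) * aeval x r + 2 * (aeval x q * y)) * e
  have hSdeg : (C t ^ 2 - 4 * N).natDegree ≤ 1 := by
    have h1 : (C t ^ 2 : k[X]).natDegree ≤ 1 := by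
      rw [← C_pow, natDegree_C]; norm_num
    have h2 : (4 * N).natDegree ≤ 1 := by
      have : (4 : k[X]) = C 4 := (map_ofNat C 4).symm
      rw [this]
      exact (natDegree_C_mul_le _ _).trans hNdeg
    exact (natDegree_sub_le _ _).trans (max_le h1 h2)
  set S := C t ^ 2 - 4 * N with hSdef
  have h2k : (2 : k) ≠ 0 := by
    have : CharZero k := charZero_of_injective_algebraMap (algebraMap K k).injective
    norm_num
  have hq0 : q = 0 := by
    by_contra hq
    have h2q : (2 * q : k[X]) ≠ 0 := by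
      refine mul_ne_zero ?_ hq
      have : (2 : k[X]) = C 2 := (map_ofNat C 2).symm
      rw [this]
      exact C_ne_zero.mpr h2k
    -- reduce to lowest terms
    set Q := 2 * q with hQ
    have hd : EuclideanDomain.gcd Q r ≠ 0 :=
      fun h0 => hr (EuclideanDomain.gcd_eq_zero_iff.mp h0).2
    obtain ⟨Q', hQ'⟩ := EuclideanDomain.gcd_dvd_left Q r
    obtain ⟨r', hr'⟩ := EuclideanDomain.gcd_dvd_right Q r
    set d := EuclideanDomain.gcd Q r with hd'
    have hcop : IsCoprime Q' r' := by
      have := EuclideanDomain.gcd_eq_gcd_ab Q r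
      rw [← hd'] at this
      refine ⟨EuclideanDomain.gcdA Q r, EuclideanDomain.gcdB Q r, ?_⟩
      apply mul_left_cancel₀ hd
      calc d * (EuclideanDomain.gcdA Q r * Q' + EuclideanDomain.gcdB Q r * r') =
          (d * Q') * EuclideanDomain.gcdA Q r + (d * r') * EuclideanDomain.gcdB Q r := by ring
        _ = d * 1 := by rw [← hQ', ← hr', mul_one, ← this]
    have hS' : S * r' ^ 2 = Q' ^ 2 * cub k A B := by
      rw [hQ', hr'] at hS
      apply mul_left_cancel₀ (pow_ne_zero 2 hd)
      linear_combination hS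
    have hQ'0 : Q' ≠ 0 := by
      intro h0
      rw [h0, mul_zero] at hQ'
      exact h2q hQ'
    have hdvd : r' * r' ∣ cub k A B := by
      have h1 : r' ^ 2 ∣ Q' ^ 2 * cub k A B := ⟨S, by rw [← hS']; ring⟩
      have h2 : IsCoprime (r' ^ 2) (Q' ^ 2) := (hcop.symm.pow)
      rw [← sq]
      exact h2.dvd_of_dvd_mul_left h1
    have hunit : IsUnit r' := cub_separable.squarefree r' hdvd
    have hdeg := congrArg natDegree hS'
    rw [natDegree_mul (pow_ne_zero 2 hQ'0) cub_ne_zero, natDegree_pow, cub_natDegree] at hdeg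
    have h3 : (S * r' ^ 2).natDegree ≤ 1 := by
      refine natDegree_mul_le.trans ?_
      rw [natDegree_pow, natDegree_eq_zero_of_isUnit hunit]
      omega
    omega
  rw [hq0, map_zero, zero_mul, add_zero] at hzr
  rw [hq0, map_zero, zero_mul, sub_zero] at hnzr
  have hzz : h.neg z = z := mul_right_cancel₀ hrx (hnzr.trans hzr.symm)
  rw [hzz] at hT
  refine ⟨t / 2, ?_⟩
  rw [map_div₀, ← hT, map_ofNat]
  have : (2 : F) ≠ 0 := two_ne (K := K)
  field_simp
  ring

end

end Pool.Agent.C98
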