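import Pool.Agent.C98.Class2

/-!
Classification of the automorphisms of `k(x,y)`: every automorphism is `P ↦ u P + b`.
-/

open WeierstrassCurve WeierstrassCurve.Affine Polynomial
open scoped Classical

namespace Pool.Agent.C98

section
variable {K k F : Type*} [Field K] [Field k] [Field F]
  [Algebra K k] [Algebra k F] [Algebra K F] [IsScalarTower K k F]
  {A B : K} [(E A B).IsElliptic] [IsAlgClosed k] {x y : F} {v : Valuation F Zm}

omit [Algebra K k] [Algebra K F] [IsScalarTower K k F] [(E A B).IsElliptic] [IsAlgClosed k]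
  [Field k] [Algebra k F] [Field K] in
theorem cubic_coeffs {k : Type*} [Field k] {c3 c2 c1 c0 : k}
    (h : (C c3 * X ^ 3 + C c2 * X ^ 2 + C c1 * X + C c0 : k[X]) = 0) :
    c3 = 0 ∧ c2 = 0 ∧ c1 = 0 ∧ c0 = 0 := by
  refine ⟨?_, ?_, ?_, ?_⟩
  · simpa [coeff_X, coeff_C] using congrArg (fun p => coeff p 3) h
  · simpa [coeff_X, coeff_C] using congrArg (fun p => coeff p 2) h
  · simpa [coeff_X, coeff_C] using congrArg (fun p => coeff p 1) h
  · simpa [coeff_X, coeff_C] using congrArg (fun p => coeff p 0) h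

theorem val_sq_le {Y X : F} (hv : IsVal k x y v)
    (heq : Y ^ 2 = X ^ 3 + algebraMap K F A * X + algebraMap K F B) (hX : v X ≤ 1) : v Y ≤ 1 := by
  have : v Y ^ 2 ≤ 1 := by
    rw [← map_pow, heq, ← aeval_cub (k := k)]
    exact val_aeval_le hv.vc hX _
  by_contra hcon
  push Not at hcon
  exact absurd this (not_le.mpr (one_lt_pow₀ hcon (by norm_num)))

theorem val_tau_x_le (h : Gen K k F A B x y) (hv : IsVal k x y v) {b : Pt A B k} (hb : b ≠ 0) :
    v (h.tau b x) ≤ 1 := by
  rcases pt_cases b with rfl | ⟨c, d, hcd, rfl⟩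
  · exact absurd rfl hb
  · exact val_le_one_of_sub_lt hv.vc (h.val_tau_x hv hcd)

theorem aut_eqn (h : Gen K k F A B x y) (a : F ≃ₐ[k] F) :
    (a y) ^ 2 = (a x) ^ 3 + algebraMap K F A * a x + algebraMap K F B :=
  eqn_map (a : F →ₐ[k] F) h.eqn

theorem lt_exp {a : Zm} {n : ℤ} (h : a < WithZero.exp (n + 1)) : a ≤ WithZero.exp n := by
  by_cases h0 : a = 0
  · rw [h0]; exact zero_le
  · rw [← WithZero.exp_log h0, WithZero.exp_lt_exp] at h
    rw [← WithZero.exp_log h0, WithZero.exp_le_exp]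
    omega

/-- every automorphism of `k(x,y)` is of the form `P ↦ u P + b` -/
theorem classify [CharZero K] (h : Gen K k F A B x y) (a : F ≃ₐ[k] F) :
    ∃ (u : k) (hu : IsSc A B u) (b : Pt A B k), amap a h.P = sc hu h.P + cst b := by
  obtain ⟨v, hv1, hv2, hv3⟩ := h.exists_val
  have hv : IsVal k x y v := ⟨hv1, hv2, hv3⟩
  have hR : ∀ b : Pt A B k, cst b ≠ amap a h.P := by
    intro b hb
    apply h.P_ne_cst b
    have := congrArg (amap a⁻¹) hb
    rwa [amap_cst, ← amap_mul, inv_mul_cancel, amap_one] at this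
  obtain ⟨b, X, Y, hXY, hbXY, hvX⟩ := exists_sub_pole h hv hR
  set a' : F ≃ₐ[k] F := a * h.tau (-b) with ha'
  have haP : amap a' h.P = pt X Y hXY := by
    rw [ha', amap_mul, h.tau_P, map_add, amap_cst, map_neg, ← sub_eq_add_neg, hbXY]
  have hxy : a' x = X ∧ a' y = Y := by
    rwa [Gen.P, amap_mk, mk_inj] at haP
  have hval : ∀ z, v (a' z) = v z := val_aut h hv a' (by rw [hxy.1]; exact hvX)
  -- regularity away from infinity
  have hreg_x : ∀ c : Pt A B k, c ≠ 0 → v (h.tau c (a' x)) ≤ 1 := by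
    intro c hc
    by_contra hcon
    push Not at hcon
    have h1 := val_aut h hv (h.tau c * a') hcon (a'.symm x)
    have h2 : (h.tau c * a') (a'.symm x) = h.tau c x := by
      show h.tau c (a' (a'.symm x)) = _
      rw [AlgEquiv.apply_symm_apply]
    rw [h2, ← hval (a'.symm x), AlgEquiv.apply_symm_apply] at h1
    have h3 := val_tau_x_le h hv hc
    rw [h1] at h3
    exact absurd hv.one_lt (not_lt.mpr h3)
  have hreg_y : ∀ c : Pt A B k, c ≠ 0 → v (h.tau c (a' y)) ≤ 1 := fun c hc =>
    val_sq_le (A := A) (B := B) hv (aut_eqn h (h.tau c * a')) (hreg_x c hc)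
  have hreg_x0 : ∀ c : Pt A B k, c ≠ 0 → v (h.tau c x) ≤ 1 := fun c hc => val_tau_x_le h hv hc
  have hreg_y0 : ∀ c : Pt A B k, c ≠ 0 → v (h.tau c y) ≤ 1 := fun c hc =>
    val_sq_le (A := A) (B := B) hv (aut_eqn h (h.tau c)) (hreg_x0 c hc)
  have hx0 : x ≠ 0 := by
    intro h0
    have := hv.vx
    rw [h0, map_zero] at this
    exact WithZero.exp_ne_zero this.symm
  have hy0 : y ≠ 0 := by
    intro h0
    have := hv.vy
    rw [h0, map_zero] at this
    exact WithZero.exp_ne_zero this.symm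
  have hvx0 : v x ≠ 0 := (map_ne_zero v).mpr hx0
  have hvy0 : v y ≠ 0 := (map_ne_zero v).mpr hy0
  -- leading coefficient of `a' x`
  obtain ⟨α, hα⟩ := hv.exists_residue h (a' x / x) (by rw [map_div₀, hval, div_self hvx0])
  have hα0 : α ≠ 0 := by
    rintro rfl
    rw [map_zero, sub_zero, map_div₀, hval, div_self hvx0] at hα
    exact lt_irrefl _ hα
  obtain ⟨β, hβ⟩ := const_of_regular h hv (z := a' x - algebraMap k F α * x) (by
      intro c hc
      rw [map_sub, map_mul, AlgEquiv.commutes]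
      refine (v.map_sub _ _).trans (max_le (hreg_x c hc) ?_)
      rw [map_mul]
      exact mul_le_one' (vc_le hv.vc _) (hreg_x0 c hc)) (by
      have e : a' x - algebraMap k F α * x = (a' x / x - algebraMap k F α) * x := by
        field_simp
      apply lt_exp
      rw [e, map_mul, hv.vx]
      exact mul_lt_of_lt_one_left (zero_lt_iff.mpr WithZero.exp_ne_zero) hα)
  -- leading coefficients of `a' y`
  obtain ⟨γ, hγ⟩ := hv.exists_residue h (a' y / y) (by rw [map_div₀, hval, div_self hvy0])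
  have hγ0 : γ ≠ 0 := by
    rintro rfl
    rw [map_zero, sub_zero, map_div₀, hval, div_self hvy0] at hγ
    exact lt_irrefl _ hγ
  have hw : v (a' y - algebraMap k F γ * y) ≤ WithZero.exp 2 := by
    have e : a' y - algebraMap k F γ * y = (a' y / y - algebraMap k F γ) * y := by
      field_simp
    apply lt_exp
    rw [e, map_mul, hv.vy]
    exact mul_lt_of_lt_one_left (zero_lt_iff.mpr WithZero.exp_ne_zero) hγ
  obtain ⟨δ, hδ⟩ := hv.exists_residue h ((a' y - algebraMap k F γ * y) / x) (by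
    rw [map_div₀, hv.vx]
    exact div_le_one_of_le₀ hw zero_le)
  obtain ⟨ε, hε⟩ := const_of_regular h hv
    (z := a' y - algebraMap k F γ * y - algebraMap k F δ * x) (by
      intro c hc
      simp only [map_sub, map_mul, AlgEquiv.commutes]
      refine (v.map_sub _ _).trans (max_le ((v.map_sub _ _).trans (max_le (hreg_y c hc) ?_)) ?_)
      · rw [map_mul]
        exact mul_le_one' (vc_le hv.vc _) (hreg_y0 c hc)
      · rw [map_mul]
        exact mul_le_one' (vc_le hv.vc _) (hreg_x0 c hc)) (by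
      have e : a' y - algebraMap k F γ * y - algebraMap k F δ * x =
          ((a' y - algebraMap k F γ * y) / x - algebraMap k F δ) * x := by
        field_simp
      apply lt_exp
      rw [e, map_mul, hv.vx]
      exact mul_lt_of_lt_one_left (zero_lt_iff.mpr WithZero.exp_ne_zero) hδ)
  have hax : a' x = algebraMap k F α * x + algebraMap k F β := by linear_combination hβ
  have hay : a' y = algebraMap k F γ * y + algebraMap k F δ * x + algebraMap k F ε := by
    linear_combination hε
  -- compare coefficients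
  have heq := aut_eqn h a'
  rw [hax, hay] at heq
  set a4 := algebraMap K k A with ha4
  set a6 := algebraMap K k B with ha6
  have hind : aeval x (C (γ ^ 2 - α ^ 3) * Polynomial.X ^ 3 +
      C (δ ^ 2 - 3 * α ^ 2 * β) * Polynomial.X ^ 2 +
      C (γ ^ 2 * a4 + 2 * δ * ε - 3 * α * β ^ 2 - a4 * α) * Polynomial.X +
      C (γ ^ 2 * a6 + ε ^ 2 - β ^ 3 - a4 * β - a6) : k[X]) +
      aeval x (C (2 * γ * δ) * Polynomial.X + C (2 * γ * ε) : k[X]) * y = 0 := by
    simp only [map_add, map_sub, map_mul, map_pow, aeval_C, aeval_X, map_ofNat]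
    rw [ha4, ha6, ← IsScalarTower.algebraMap_apply, ← IsScalarTower.algebraMap_apply]
    linear_combination heq - (algebraMap k F γ) ^ 2 * h.eqn
  obtain ⟨hp, hq⟩ := indep h.eqn h.tr hind
  obtain ⟨e3, e2, e1, e0⟩ := cubic_coeffs hp
  obtain ⟨_, _, f1, f0⟩ := cubic_coeffs (k := k) (c3 := 0) (c2 := 0) (c1 := 2 * γ * δ)
    (c0 := 2 * γ * ε) (by rw [C_0, zero_mul, zero_mul, zero_add, zero_add]; exact hq)
  have hchar : CharZero k := charZero_of_injective_algebraMap (algebraMap K k).injective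
  have h2γ : (2 * γ : k) ≠ 0 := mul_ne_zero two_ne_zero hγ0
  have hδ0 : δ = 0 := (mul_eq_zero.mp f1).resolve_left h2γ
  have hε0 : ε = 0 := (mul_eq_zero.mp f0).resolve_left h2γ
  rw [hδ0] at e2 e1
  rw [hε0] at e1 e0
  have hβ0 : β = 0 := by
    have : (3 * α ^ 2) * β = 0 := by linear_combination -e2
    exact (mul_eq_zero.mp this).resolve_left (mul_ne_zero three_ne_zero (pow_ne_zero 2 hα0))
  rw [hβ0] at e1 e0
  have hγα : γ ^ 2 = α ^ 3 := by linear_combination e3
  have hαA : α ^ 2 * a4 = a4 := by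
    apply mul_left_cancel₀ hα0
    linear_combination e1 - a4 * hγα
  have hγB : γ ^ 2 * a6 = a6 := by linear_combination e0
  have hu2 : (γ / α) ^ 2 = α := by
    rw [div_pow, hγα]
    field_simp
  have hu3 : (γ / α) ^ 3 = γ := by
    rw [pow_succ, hu2]
    field_simp
  have hu : IsSc A B (γ / α) := by
    refine ⟨div_ne_zero hγ0 hα0, ?_, ?_⟩
    · rw [show (4 : ℕ) = 2 * 2 by norm_num, pow_mul, hu2]
      exact hαA
    · rw [show (6 : ℕ) = 3 * 2 by norm_num, pow_mul, hu3]
      exact hγB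
  refine ⟨γ / α, hu, b, ?_⟩
  have e5 : sc hu h.P = pt X Y hXY := by
    rw [Gen.P, sc_pt, mk_inj, ← hxy.1, ← hxy.2, ← map_pow, ← map_pow, hu2, hu3, hax, hay, hβ0,
      hδ0, hε0]
    simp
  rw [e5, ← hbXY, sub_add_cancel]

end

end Pool.Agent.C98
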