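import Pool.Agent.C98.Tors2

/-!
The dichotomy for commutative groups of automorphisms of `k(x,y)`.
-/

open WeierstrassCurve WeierstrassCurve.Affine Polynomial
open scoped Classical

namespace Pool.Agent.C98

section
variable {K k F : Type*} [Field K] [Field k] [Field F]
  [Algebra K k] [Algebra k F] [Algebra K F] [IsScalarTower K k F]
  {A B : K} [(E A B).IsElliptic] [IsAlgClosed k] {x y : F} [CharZero K]

omit [IsAlgClosed k] [CharZero K] [(E A B).IsElliptic] in
theorem IsSc.inv {u : k} (hu : IsSc A B u) : IsSc A B (u⁻¹) := by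
  refine ⟨inv_ne_zero hu.ne, ?_, ?_⟩
  · have h1 := hu.hA
    have h2 := hu.ne
    rw [inv_pow, inv_mul_eq_iff_eq_mul₀ (pow_ne_zero 4 h2)]
    exact h1.symm
  · have h1 := hu.hB
    have h2 := hu.ne
    rw [inv_pow, inv_mul_eq_iff_eq_mul₀ (pow_ne_zero 6 h2)]
    exact h1.symm

omit [IsAlgClosed k] in
theorem sc_congr {u w : k} (hu : IsSc A B u) (hw : IsSc A B w) (huw : u = w) (P : Pt A B F) :
    sc hu P = sc hw P := by
  subst huw
  rfl

/-- the linear part is trivial if the automorphism is a translation -/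
theorem sc_eq_trans (h : Gen K k F A B x y) {u : k} (hu : IsSc A B u) {c : Pt A B k}
    (hc : sc hu h.P = h.P + cst c) : u = 1 := by
  obtain ⟨v, hv1, hv2, hv3⟩ := h.exists_val
  have hv : IsVal k x y v := ⟨hv1, hv2, hv3⟩
  have h1 := h.tau_P c
  rw [← hc, Gen.P, sc_pt, amap_mk, mk_inj] at h1
  have hu2 : u ^ 2 ≠ 0 := pow_ne_zero 2 hu.ne
  by_cases hc0 : c = 0
  · subst hc0
    rw [h.tau_zero] at h1
    have h2 : x = algebraMap k F u ^ 2 * x := h1.1
    have h3 : y = algebraMap k F u ^ 3 * y := h1.2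
    have hx0 : x ≠ 0 := by
      intro h0
      apply h.tr
      rw [h0]; exact isAlgebraic_zero
    have hy0 : y ≠ 0 := by
      intro h0
      have := hv.vy
      rw [h0, map_zero] at this
      exact WithZero.exp_ne_zero this.symm
    have h4 : algebraMap k F u ^ 2 = 1 := by
      apply mul_right_cancel₀ hx0
      rw [← h2, one_mul]
    have h5 : algebraMap k F u ^ 3 = 1 := by
      apply mul_right_cancel₀ hy0
      rw [← h3, one_mul]
    apply (algebraMap k F).injective
    rw [map_one]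
    calc algebraMap k F u = algebraMap k F u * algebraMap k F u ^ 2 := by rw [h4, mul_one]
      _ = algebraMap k F u ^ 3 := by ring
      _ = 1 := h5
  · exfalso
    have h2 := val_tau_x_le h hv hc0
    rw [h1.1, map_mul, ← map_pow, hv.vc _ hu2, one_mul] at h2
    exact absurd hv.one_lt (not_lt.mpr h2)

/-- uniqueness of the linear part -/
theorem sc_unique (h : Gen K k F A B x y) {u w : k} (hu : IsSc A B u) (hw : IsSc A B w)
    {b c : Pt A B k} (hbc : sc hu h.P + cst b = sc hw h.P + cst c) : u = w := by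
  have h1 := congrArg (sc hw.inv) hbc
  rw [map_add, map_add, ← sc_mul, ← sc_mul, sc_cst, sc_cst,
    sc_congr (hw.inv.mul hw) IsSc.one (inv_mul_cancel₀ hw.ne), sc_one] at h1
  have h2 : sc (hw.inv.mul hu) h.P = h.P + cst (sc hw.inv c - sc hw.inv b) := by
    rw [map_sub, ← add_sub_assoc, ← h1, add_sub_cancel_right]
  have h3 := sc_eq_trans h _ h2
  field_simp [hw.ne] at h3
  exact h3

/-- (T1) an automorphism commuting with a translation by `e` fixes `e` -/
theorem fix_of_comm (h : Gen K k F A B x y) {u : k} (hu : IsSc A B u) {b e : Pt A B k}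
    {a : F ≃ₐ[k] F} (ha : amap a h.P = sc hu h.P + cst b)
    (hcomm : a * h.tau e = h.tau e * a) : sc hu e = e := by
  have h1 := congrArg (fun a => amap a h.P) hcomm
  simp only [amap_mul, h.tau_P, map_add, ha, amap_cst, amap_sc, sc_cst] at h1
  apply cst_injective (F := F)
  have h2 : sc hu h.P + cst b + cst e = sc hu h.P + cst b + cst (sc hu e) := by
    rw [h1]; abel
  exact (add_left_cancel h2).symm

/-- (T2) automorphisms with the same linear part differ by a translation -/
theorem eq_mul_tau (h : Gen K k F A B x y) {u : k} (hu : IsSc A B u) {b b' : Pt A B k}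
    {a a' : F ≃ₐ[k] F} (ha : amap a h.P = sc hu h.P + cst b)
    (ha' : amap a' h.P = sc hu h.P + cst b') : a' = a * h.tau (b' - b) := by
  apply h.aut_ext
  rw [amap_mul, h.tau_P, map_add, amap_cst, ha, ha', map_sub]
  abel

/-- (T3) linear parts of powers -/
theorem pow_linear (h : Gen K k F A B x y) {u : k} (hu : IsSc A B u) {b : Pt A B k}
    {a : F ≃ₐ[k] F} (ha : amap a h.P = sc hu h.P + cst b) (n : ℕ) :
    ∃ (hn : IsSc A B (u ^ n)) (c : Pt A B k), amap (a ^ n) h.P = sc hn h.P + cst c := by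
  induction n with
  | zero =>
    refine ⟨by rw [pow_zero]; exact IsSc.one, 0, ?_⟩
    rw [sc_congr _ IsSc.one (pow_zero u), sc_one, pow_zero, amap_one, map_zero, add_zero]
  | succ n ih =>
    obtain ⟨hn, c, hc⟩ := ih
    refine ⟨by rw [pow_succ]; exact hn.mul hu, sc hu c + b, ?_⟩
    rw [sc_congr _ (hu.mul hn) (by rw [pow_succ, mul_comm]), sc_mul, pow_succ, amap_mul, ha,
      map_add, amap_cst, amap_sc, hc, map_add, sc_cst, map_add, add_assoc]

theorem pow_eq_one (h : Gen K k F A B x y) {u : k} (hu : IsSc A B u) {b : Pt A B k}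
    {a : F ≃ₐ[k] F} (ha : amap a h.P = sc hu h.P + cst b) {n : ℕ} (hn : a ^ n = 1) :
    u ^ n = 1 := by
  obtain ⟨hs, c, hc⟩ := pow_linear h hu ha n
  rw [hn, amap_one] at hc
  have h1 : sc (IsSc.one : IsSc A B (1 : k)) h.P + cst (0 : Pt A B k) = sc hs h.P + cst c := by
    rw [sc_one, map_zero, add_zero, ← hc]
  exact (sc_unique h _ _ h1).symm

theorem dichotomy (h : Gen K k F A B x y) (T : Subgroup (F ≃ₐ[k] F))
    (hT : ∀ a ∈ T, ∀ b ∈ T, a * b = b * a) :
    (∀ ℓ : ℕ, ℓ.Prime → ∀ V : Finset (F ≃ₐ[k] F), (∀ a ∈ V, a ∈ T ∧ a ^ ℓ = 1) →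
      V.card ≤ ℓ ^ 2) ∨
    (∃ t ∈ T, (∃ b : Pt A B k, amap t h.P = -h.P + cst b) ∧
      (∀ e : Pt A B k, e + e = 0 → h.tau e ∈ T) ∧
      ∀ a ∈ T, ∃ e : Pt A B k, e + e = 0 ∧ (a = h.tau e ∨ a = t * h.tau e)) := by
  by_cases hcase : ∀ ℓ : ℕ, ℓ.Prime → ∀ V : Finset (F ≃ₐ[k] F),
    (∀ a ∈ V, a ∈ T ∧ a ^ ℓ = 1) → V.card ≤ ℓ ^ 2
  · exact Or.inl hcase
  right
  push Not at hcase
  obtain ⟨ℓ, hℓ, V, hV, hVcard⟩ := hcase
  choose U hU bb hbb using classify h
  -- the linear parts are ℓ-th roots of unity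
  have hmaps : ∀ a ∈ V, U a ∈ (nthRoots ℓ (1 : k)).toFinset := by
    intro a ha
    rw [Multiset.mem_toFinset, mem_nthRoots hℓ.pos]
    exact pow_eq_one h (hU a) (hbb a) (hV a ha).2
  have hcardroots : (nthRoots ℓ (1 : k)).toFinset.card ≤ ℓ :=
    (Multiset.toFinset_card_le _).trans (card_nthRoots ℓ 1)
  obtain ⟨u0, _, hfib⟩ := Finset.exists_lt_card_fiber_of_mul_lt_card_of_maps_to
    (n := ℓ) hmaps (by
      calc (nthRoots ℓ (1 : k)).toFinset.card * ℓ ≤ ℓ * ℓ := Nat.mul_le_mul_right _ hcardroots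
        _ = ℓ ^ 2 := (sq ℓ).symm
        _ < V.card := hVcard)
  set S := V.filter (fun a => U a = u0) with hS
  have hSne : S.Nonempty := by
    rw [← Finset.card_pos]; omega
  obtain ⟨a0, ha0⟩ := hSne
  have ha0V := (Finset.mem_filter.mp ha0).1
  have ha0u := (Finset.mem_filter.mp ha0).2
  -- the group of translations in `T`
  have hTe : ∀ a ∈ S, a = a0 * h.tau (bb a - bb a0) := by
    intro a ha
    have hau := (Finset.mem_filter.mp ha).2
    apply eq_mul_tau h (hU a0) (hbb a0)
    rw [hbb a, sc_congr (hU a) (hU a0) (hau.trans ha0u.symm)]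
  have hTe' : ∀ a ∈ S, h.tau (bb a - bb a0) ∈ T ∧ ℓ • (bb a - bb a0) = 0 := by
    intro a ha
    have haV := (Finset.mem_filter.mp ha).1
    have h1 : h.tau (bb a - bb a0) = a0⁻¹ * a := by
      rw [eq_inv_mul_iff_mul_eq]; exact (hTe a ha).symm
    refine ⟨?_, ?_⟩
    · rw [h1]
      exact T.mul_mem (T.inv_mem (hV a0 ha0V).1) (hV a haV).1
    · apply h.tau_inj
      rw [h.tau_nsmul, h.tau_zero, h1, (show Commute a0⁻¹ a from
        (Commute.inv_left (hT a0 (hV a0 ha0V).1 a (hV a haV).1))).mul_pow, inv_pow,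
        (hV a0 ha0V).2, (hV a haV).2]
      simp
  set Γ1 : Finset (Pt A B k) := S.image (fun a => bb a - bb a0) with hΓ1
  have hΓ1card : ℓ < Γ1.card := by
    rw [hΓ1, Finset.card_image_of_injOn]
    · exact hfib
    · intro a ha a' ha' haa'
      have h1 := hTe a ha
      have h2 := hTe a' ha'
      have h3 : bb a - bb a0 = bb a' - bb a0 := haa'
      rw [h1, h2, h3]
  have hΓ1T : ∀ e ∈ Γ1, h.tau e ∈ T ∧ ℓ • e = 0 := by
    intro e he
    rw [hΓ1, Finset.mem_image] at he
    obtain ⟨a, ha, rfl⟩ := he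
    exact hTe' a ha
  have h0Γ1 : (0 : Pt A B k) ∈ Γ1 := by
    rw [hΓ1, Finset.mem_image]
    exact ⟨a0, ha0, sub_self _⟩
  -- four translations
  obtain ⟨Γ2, hΓ2card, hΓ2T⟩ : ∃ Γ2 : Finset (Pt A B k), 4 ≤ Γ2.card ∧
      ∀ e ∈ Γ2, h.tau e ∈ T ∧ ℓ • e = 0 := by
    rcases hℓ.eq_two_or_odd' with h2 | hodd
    · subst h2
      have h1 : 1 < (Γ1.erase 0).card := by
        rw [Finset.card_erase_of_mem h0Γ1]; omega
      obtain ⟨e1, he1, e2, he2, hne⟩ := Finset.one_lt_card.mp h1
      have he1' := Finset.mem_erase.mp he1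
      have he2' := Finset.mem_erase.mp he2
      have hf1 := (hΓ1T e1 he1'.2).2
      have hf2 := (hΓ1T e2 he2'.2).2
      rw [two_smul] at hf1 hf2
      refine ⟨{0, e1, e2, e1 + e2}, ?_, ?_⟩
      · rw [Finset.card_insert_of_notMem, Finset.card_insert_of_notMem,
          Finset.card_insert_of_notMem, Finset.card_singleton]
        · rw [Finset.mem_singleton]
          intro h0
          exact he1'.1 (by simpa using h0)
        · rw [Finset.mem_insert, Finset.mem_singleton]
          rintro (h0 | h0)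
          · exact hne h0
          · exact he2'.1 (by simpa using h0)
        · rw [Finset.mem_insert, Finset.mem_insert, Finset.mem_singleton]
          rintro (h0 | h0 | h0)
          · exact he1'.1 h0.symm
          · exact he2'.1 h0.symm
          · apply hne
            calc e1 = e1 + (e2 + e2) := by rw [hf2, add_zero]
              _ = (e1 + e2) + e2 := by abel
              _ = e2 := by rw [← h0, zero_add]
      · intro e he
        simp only [Finset.mem_insert, Finset.mem_singleton] at he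
        rcases he with rfl | rfl | rfl | rfl
        · exact hΓ1T _ h0Γ1
        · exact hΓ1T _ he1'.2
        · exact hΓ1T _ he2'.2
        · refine ⟨?_, ?_⟩
          · rw [h.tau_add]
            exact T.mul_mem (hΓ1T _ he1'.2).1 (hΓ1T _ he2'.2).1
          · rw [smul_add, (hΓ1T _ he1'.2).2, (hΓ1T _ he2'.2).2, add_zero]
    · refine ⟨Γ1, ?_, hΓ1T⟩
      have : ℓ ≠ 2 := by
        rintro rfl
        exact absurd hodd (by decide)
      have := hℓ.two_le
      omega
  -- a linear part fixing all of Γ2 is ±1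
  have hlin : ∀ (a : F ≃ₐ[k] F), a ∈ T → U a ^ 2 = 1 := by
    intro a ha
    by_contra hcon
    have h1 := sc_fix_card (hU a) hcon Γ2 (fun e he =>
      fix_of_comm h (hU a) (hbb a) (hT a ha _ (hΓ2T e he).1))
    omega
  -- a non-translation
  obtain ⟨t, htV, hut⟩ : ∃ t ∈ V, U t ≠ 1 := by
    by_contra hcon
    push Not at hcon
    have htr : ∀ a ∈ V, a = h.tau (bb a) := by
      intro a ha
      apply h.aut_ext
      rw [hbb a, sc_congr (hU a) IsSc.one (hcon a ha), sc_one, h.tau_P]
    have h1 := tors_card h hℓ.one_le (V.image bb) (by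
      intro e he
      rw [Finset.mem_image] at he
      obtain ⟨a, ha, rfl⟩ := he
      apply h.tau_inj
      rw [h.tau_nsmul, h.tau_zero, ← htr a ha]
      exact (hV a ha).2)
    rw [Finset.card_image_of_injOn] at h1
    · omega
    · intro a ha a' ha' haa'
      rw [htr a ha, htr a' ha', haa']
  have htT := (hV t htV).1
  have hut' : U t = -1 := by
    rcases sq_eq_one_iff.mp (hlin t htT) with h1 | h1
    · exact absurd h1 hut
    · exact h1
  have hneg1 : ∀ e : Pt A B k, sc (hU t) e = -e := by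
    intro e
    rw [sc_congr (hU t) IsSc.neg_one hut', sc_neg_one]
  have htP : amap t h.P = -h.P + cst (bb t) := by
    rw [hbb t, sc_congr (hU t) IsSc.neg_one hut', sc_neg_one]
  have h2tors : ∀ e : Pt A B k, h.tau e ∈ T → e + e = 0 := by
    intro e he
    have h1 := fix_of_comm h (hU t) (hbb t) (hT t htT _ he)
    rw [hneg1] at h1
    nth_rewrite 1 [← h1]
    exact neg_add_cancel e
  refine ⟨t, htT, ⟨bb t, htP⟩, ?_, ?_⟩
  · intro e he
    by_contra hcon
    have hnot : e ∉ Γ2 := fun he' => hcon (hΓ2T e he').1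
    have h1 := tors_card h (n := 2) (by norm_num) (insert e Γ2) (by
      intro e' he'
      rw [two_smul]
      rcases Finset.mem_insert.mp he' with rfl | he'
      · exact he
      · exact h2tors e' (hΓ2T e' he').1)
    rw [Finset.card_insert_of_notMem hnot] at h1
    omega
  · intro a ha
    rcases sq_eq_one_iff.mp (hlin a ha) with h1 | h1
    · have ha1 : a = h.tau (bb a) := by
        apply h.aut_ext
        rw [hbb a, sc_congr (hU a) IsSc.one h1, sc_one, h.tau_P]
      refine ⟨bb a, h2tors _ ?_, Or.inl ha1⟩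
      rw [← ha1]; exact ha
    · have ha1 : a = t * h.tau (bb a - bb t) := by
        apply eq_mul_tau h (hU t) (hbb t)
        rw [hbb a, sc_congr (hU a) (hU t) (h1.trans hut'.symm)]
      refine ⟨bb a - bb t, h2tors _ ?_, Or.inr ha1⟩
      have h3 : h.tau (bb a - bb t) = t⁻¹ * a := by
        rw [eq_inv_mul_iff_mul_eq]; exact ha1.symm
      rw [h3]
      exact T.mul_mem (T.inv_mem htT) ha

end

end Pool.Agent.C98
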