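import Pool.Agent.C98.Gen

/-!
Mathlib's function field of a Weierstrass curve: generators, relation, and the valuation at
infinity.
-/

open WeierstrassCurve WeierstrassCurve.Affine Polynomial
open scoped Classical

namespace Pool.Agent.C98

section
variable {k : Type*} [Field k]

/-- the function `x` on an affine Weierstrass curve -/
noncomputable def gx (W : Affine k) : W.FunctionField :=
  algebraMap W.CoordinateRing _ (CoordinateRing.mk W (C X))

/-- the function `y` on an affine Weierstrass curve -/
noncomputable def gy (W : Affine k) : W.FunctionField :=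
  algebraMap W.CoordinateRing _ (CoordinateRing.mk W X)

theorem aeval_gx (W : Affine k) (p : k[X]) :
    aeval (gx W) p = algebraMap W.CoordinateRing W.FunctionField (CoordinateRing.mk W (C p)) := by
  have h : (aeval (gx W) : k[X] →ₐ[k] W.FunctionField) =
      ((IsScalarTower.toAlgHom k W.CoordinateRing W.FunctionField).comp
        (IsScalarTower.toAlgHom k k[X] W.CoordinateRing)) := by
    apply Polynomial.algHom_ext
    rw [aeval_X]
    rfl
  rw [h]
  rfl

theorem gxy_eqn (W : Affine k) : gy W ^ 2 + algebraMap k _ W.a₁ * gx W * gy W +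
    algebraMap k _ W.a₃ * gy W = gx W ^ 3 + algebraMap k _ W.a₂ * gx W ^ 2 +
    algebraMap k _ W.a₄ * gx W + algebraMap k _ W.a₆ := by
  have h : CoordinateRing.mk W (X ^ 2 + C (C W.a₁ * X + C W.a₃) * X -
    C (X ^ 3 + C W.a₂ * X ^ 2 + C W.a₄ * X + C W.a₆)) = 0 := AdjoinRoot.mk_self
  have h2 := congrArg (algebraMap W.CoordinateRing W.FunctionField) h
  simp only [map_sub, map_add, map_mul, map_pow, map_zero] at h2
  have hC : ∀ c : k, algebraMap W.CoordinateRing W.FunctionField
      (CoordinateRing.mk W (C (C c))) = algebraMap k _ c := by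
    intro c
    rw [← aeval_gx, aeval_C]
  rw [hC, hC, hC, hC, hC] at h2
  unfold gx gy
  linear_combination h2

theorem gx_tr (W : Affine k) : Transcendental k (gx W) := by
  rw [transcendental_iff]
  intro p hp
  rw [aeval_gx] at hp
  have h1 := (IsFractionRing.injective W.CoordinateRing W.FunctionField)
    (hp.trans (map_zero _).symm)
  have h2 : p • (1 : W.CoordinateRing) + (0 : k[X]) • CoordinateRing.mk W X = 0 := by
    rw [CoordinateRing.smul, CoordinateRing.smul, h1]
    simp
  exact (CoordinateRing.smul_basis_eq_zero h2).1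

theorem gxy_gen (W : Affine k) : IntermediateField.adjoin k {gx W, gy W} = ⊤ := by
  rw [eq_top_iff]
  intro z _
  have hx : gx W ∈ IntermediateField.adjoin k {gx W, gy W} :=
    IntermediateField.subset_adjoin k _ (by simp)
  have hy : gy W ∈ IntermediateField.adjoin k {gx W, gy W} :=
    IntermediateField.subset_adjoin k _ (by simp)
  have hp : ∀ p : k[X], aeval (gx W) p ∈ IntermediateField.adjoin k {gx W, gy W} := by
    intro p
    have := aeval_algHom_apply (IntermediateField.adjoin k {gx W, gy W}).val ⟨gx W, hx⟩ p
    simp only [IntermediateField.coe_val] at this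
    rw [this]
    exact SetLike.coe_mem _
  have hR : ∀ r : W.CoordinateRing, algebraMap W.CoordinateRing W.FunctionField r ∈
      IntermediateField.adjoin k {gx W, gy W} := by
    intro r
    obtain ⟨p, q, rfl⟩ := CoordinateRing.exists_smul_basis_eq r
    rw [CoordinateRing.smul, CoordinateRing.smul, mul_one, map_add, map_mul, ← aeval_gx,
      ← aeval_gx]
    exact add_mem (hp p) (mul_mem (hp q) hy)
  obtain ⟨a, b, _, rfl⟩ := IsFractionRing.div_surjective (A := W.CoordinateRing) z
  exact div_mem (hR a) (hR b)

theorem norm_ne_zero' (W : Affine k) {r : W.CoordinateRing} (hr : r ≠ 0) :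
    Algebra.norm k[X] r ≠ 0 := by
  rwa [Ne, Algebra.norm_eq_zero_iff_of_basis (CoordinateRing.basis W)]

theorem norm_add_le (W : Affine k) (r s : W.CoordinateRing) :
    (Algebra.norm k[X] (r + s)).degree ≤
      max (Algebra.norm k[X] r).degree (Algebra.norm k[X] s).degree := by
  obtain ⟨p, q, rfl⟩ := CoordinateRing.exists_smul_basis_eq r
  obtain ⟨p', q', rfl⟩ := CoordinateRing.exists_smul_basis_eq s
  have e : (p • (1 : W.CoordinateRing) + q • CoordinateRing.mk W X) +
    (p' • 1 + q' • CoordinateRing.mk W X) = (p + p') • 1 + (q + q') • CoordinateRing.mk W X := by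
    rw [add_smul, add_smul]; abel
  rw [e, CoordinateRing.degree_norm_smul_basis, CoordinateRing.degree_norm_smul_basis,
    CoordinateRing.degree_norm_smul_basis]
  have h1 : 2 • (p + p').degree ≤ max (2 • p.degree) (2 • p'.degree) := by
    rcases le_total p.degree p'.degree with h | h
    · exact le_max_of_le_right (nsmul_le_nsmul_right
        ((degree_add_le _ _).trans (by rw [max_eq_right h])) 2)
    · exact le_max_of_le_left (nsmul_le_nsmul_right
        ((degree_add_le _ _).trans (by rw [max_eq_left h])) 2)
  have h2 : 2 • (q + q').degree + 3 ≤ max (2 • q.degree + 3) (2 • q'.degree + 3) := by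
    rcases le_total q.degree q'.degree with h | h
    · exact le_max_of_le_right (add_le_add_left (nsmul_le_nsmul_right
        ((degree_add_le _ _).trans (by rw [max_eq_right h])) 2) 3)
    · exact le_max_of_le_left (add_le_add_left (nsmul_le_nsmul_right
        ((degree_add_le _ _).trans (by rw [max_eq_left h])) 2) 3)
  refine max_le ?_ ?_
  · exact h1.trans (max_le (le_max_of_le_left (le_max_left _ _))
      (le_max_of_le_right (le_max_left _ _)))
  · exact h2.trans (max_le (le_max_of_le_left (le_max_right _ _))
      (le_max_of_le_right (le_max_right _ _)))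

/-- norm-degree valuation on the coordinate ring -/
noncomputable def val0 (W : Affine k) : Valuation W.CoordinateRing (WithZero (Multiplicative ℤ)) where
  toFun r := if r = 0 then 0 else
    WithZero.exp ((Algebra.norm k[X] r).natDegree : ℤ)
  map_zero' := by simp
  map_one' := by simp
  map_mul' := by
    intro r s
    by_cases hr : r = 0
    · simp [hr]
    by_cases hs : s = 0
    · simp [hs]
    rw [if_neg hr, if_neg hs, if_neg (mul_ne_zero hr hs), map_mul,
      natDegree_mul (norm_ne_zero' W hr) (norm_ne_zero' W hs), ← WithZero.exp_add]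
    push_cast
    rfl
  map_add_le_max' := by
    intro r s
    by_cases hr : r = 0
    · simp [hr]
    by_cases hs : s = 0
    · simp [hs]
    by_cases hrs : r + s = 0
    · simp [hrs]
    rw [if_neg hr, if_neg hs, if_neg hrs]
    have h := norm_add_le W r s
    rcases le_max_iff.mp h with h | h
    · exact le_max_of_le_left (WithZero.exp_le_exp.mpr (by exact_mod_cast natDegree_le_natDegree h))
    · exact le_max_of_le_right (WithZero.exp_le_exp.mpr (by exact_mod_cast natDegree_le_natDegree h))

theorem val0_apply (W : Affine k) {r : W.CoordinateRing} (hr : r ≠ 0) :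
    val0 W r = WithZero.exp ((Algebra.norm k[X] r).natDegree : ℤ) := if_neg hr

theorem exists_val (W : Affine k) : ∃ v : Valuation W.FunctionField (WithZero (Multiplicative ℤ)),
    v (gx W) = WithZero.exp 2 ∧ v (gy W) = WithZero.exp 3 ∧
    ∀ c : k, c ≠ 0 → v (algebraMap k _ c) = 1 := by
  have hS : nonZeroDivisors W.CoordinateRing ≤ (val0 W).supp.primeCompl := by
    intro r hr
    have hr0 : r ≠ 0 := nonZeroDivisors.ne_zero hr
    rw [Ideal.mem_primeCompl_iff, Valuation.mem_supp_iff, val0_apply W hr0]
    exact WithZero.exp_ne_zero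
  have hpq : ∀ p q : k[X], p ≠ 0 ∨ q ≠ 0 →
      (p • (1 : W.CoordinateRing) + q • CoordinateRing.mk W X) ≠ 0 := by
    intro p q h h0
    obtain ⟨h1, h2⟩ := CoordinateRing.smul_basis_eq_zero h0
    rcases h with h | h
    · exact h h1
    · exact h h2
  have hval : ∀ (p q : k[X]) (n : ℕ), (p ≠ 0 ∨ q ≠ 0) →
      max (2 • p.degree) (2 • q.degree + 3) = n →
      (val0 W).extendToLocalization hS W.FunctionField
        (algebraMap W.CoordinateRing _ (p • (1 : W.CoordinateRing) + q • CoordinateRing.mk W X)) =
        WithZero.exp (n : ℤ) := by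
    intro p q n h hn
    rw [Valuation.extendToLocalization_apply_map_apply, val0_apply W (hpq p q h)]
    congr 1
    have := CoordinateRing.degree_norm_smul_basis (W' := W) p q
    rw [hn] at this
    exact_mod_cast natDegree_eq_of_degree_eq_some this
  refine ⟨(val0 W).extendToLocalization hS W.FunctionField, ?_, ?_, ?_⟩
  · have := hval X 0 2 (Or.inl X_ne_zero) (by rw [degree_X, degree_zero]; rfl)
    rw [CoordinateRing.smul, zero_smul, add_zero, mul_one] at this
    exact this
  · have := hval 0 1 3 (Or.inr one_ne_zero) (by rw [degree_one, degree_zero]; rfl)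
    rw [one_smul, zero_smul, zero_add] at this
    exact this
  · intro c hc
    have := hval (C c) 0 0 (Or.inl (C_ne_zero.mpr hc)) (by rw [degree_C hc, degree_zero]; rfl)
    rw [CoordinateRing.smul, zero_smul, add_zero, mul_one, ← aeval_gx, aeval_C] at this
    exact this

end

section
variable {K k F : Type*} [Field K] [Field k] [Field F] [Algebra K k] [Algebra k F]
    [Algebra K F] [IsScalarTower K k F] {A B : K} {x y : F}

/-- the valuation at infinity of `k(x,y)` -/
theorem Gen.exists_val (h : Gen K k F A B x y) :
    ∃ v : Valuation F (WithZero (Multiplicative ℤ)),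
      v x = WithZero.exp 2 ∧ v y = WithZero.exp 3 ∧
      ∀ c : k, c ≠ 0 → v (algebraMap k _ c) = 1 := by
  set a := algebraMap K k A with ha
  set b := algebraMap K k B with hb
  obtain ⟨v, h1, h2, h3⟩ := C98.exists_val (E a b)
  have heq : gy (E a b) ^ 2 = gx (E a b) ^ 3 + algebraMap k _ a * gx (E a b) + algebraMap k _ b := by
    have := gxy_eqn (E a b)
    have e1 : (E a b).a₁ = 0 := rfl
    have e2 : (E a b).a₂ = 0 := rfl
    have e3 : (E a b).a₃ = 0 := rfl
    have e4 : (E a b).a₄ = a := rfl
    have e6 : (E a b).a₆ = b := rfl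
    rw [e1, e2, e3, e4, e6] at this
    simpa using this
  obtain ⟨φ, hφx, hφy⟩ := h.exists_hom (F' := (E a b).FunctionField) (X := gx (E a b))
    (Y := gy (E a b)) heq (gx_tr (E a b))
  refine ⟨v.comap (φ : F →+* (E a b).FunctionField), ?_, ?_, ?_⟩
  · show v (φ x) = _
    rw [hφx, h1]
  · show v (φ y) = _
    rw [hφy, h2]
  · intro c hc
    show v (φ (algebraMap k F c)) = _
    rw [φ.commutes, h3 c hc]

end

end Pool.Agent.C98
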