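import Pool.Agent.C98.Fld7

/-!
The main theorem.
-/

open IntermediateField WeierstrassCurve WeierstrassCurve.Affine
open scoped Classical

namespace Pool.Agent.C98

section
variable {K : Type*} [Field K] [CharZero K]

/-- the short Weierstrass coefficients of `W` -/
noncomputable def cA (W : Affine K) : K := -W.c₄ / 48
noncomputable def cB (W : Affine K) : K := -W.c₆ / 864

theorem short_disc (W : Affine K) : (E (cA W) (cB W)).Δ = W.Δ := by
  rw [E_Δ]
  have h := WeierstrassCurve.c_relation W
  unfold cA cB
  field_simp
  linear_combination (-47775744 : K) * h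

theorem short_elliptic (W : Affine K) [W.IsElliptic] : (E (cA W) (cB W)).IsElliptic := by
  refine ⟨?_⟩
  rw [short_disc]
  exact W.isUnit_Δ

/-- the generators of the function field of `W` in short form -/
noncomputable def sx (W : Affine K) : W.FunctionField := gx W + algebraMap K _ (W.b₂ / 12)
noncomputable def sy (W : Affine K) : W.FunctionField :=
  gy W + (algebraMap K _ W.a₁ * gx W + algebraMap K _ W.a₃) / 2

theorem short_gen (W : Affine K) : Gen K K W.FunctionField (cA W) (cB W) (sx W) (sy W) := by
  have hchar : CharZero W.FunctionField :=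
    charZero_of_injective_algebraMap (algebraMap K W.FunctionField).injective
  refine ⟨?_, ?_, ?_⟩
  · have h := gxy_eqn W
    unfold sx sy cA cB
    simp only [WeierstrassCurve.c₄, WeierstrassCurve.c₆, WeierstrassCurve.b₂, WeierstrassCurve.b₄,
      WeierstrassCurve.b₆, map_div₀, map_neg, map_sub, map_add, map_mul, map_pow, map_ofNat]
    field_simp
    linear_combination (286654464 : W.FunctionField) * h
  · intro halg
    have h1 : IsAlgebraic K (gx W) := by
      have h2 : gx W = sx W + (-algebraMap K _ (W.b₂ / 12)) := by unfold sx; ring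
      rw [h2]
      exact halg.add (isAlgebraic_algebraMap _).neg
    exact gx_tr W h1
  · rw [eq_top_iff, ← gxy_gen W, adjoin_le_iff]
    have hx : sx W ∈ adjoin K {sx W, sy W} := subset_adjoin K _ (by simp)
    have hy : sy W ∈ adjoin K {sx W, sy W} := subset_adjoin K _ (by simp)
    have hgx : gx W ∈ adjoin K {sx W, sy W} := by
      have h2 : gx W = sx W - algebraMap K _ (W.b₂ / 12) := by unfold sx; ring
      rw [h2]
      exact sub_mem hx (IntermediateField.algebraMap_mem _ _)
    rintro z (rfl | hz)
    · exact hgx
    · rw [Set.mem_singleton_iff] at hz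
      have h2 : z = sy W - (algebraMap K _ W.a₁ * gx W + algebraMap K _ W.a₃) / 2 := by
        rw [hz]; unfold sy; ring
      rw [SetLike.mem_coe, h2]
      refine sub_mem hy (div_mem (add_mem (mul_mem (IntermediateField.algebraMap_mem _ _) hgx)
        (IntermediateField.algebraMap_mem _ _)) ?_)
      exact ofNat_mem _ 2

/-- the main theorem for subgroups of the multiplicative group of the function field -/
theorem main_W (W : Affine K) [W.IsElliptic] (H : Subgroup (W.FunctionField)ˣ)
    (hH : adjoin K ((fun u : (W.FunctionField)ˣ => (u : W.FunctionField)) '' H) = ⊤) :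
    ∃ f ∈ H, ∃ g ∈ H,
      Nonempty (adjoin K {(f : W.FunctionField), (g : W.FunctionField)} ≃ₐ[K] W.FunctionField) := by
  have hell := short_elliptic W
  have hL := short_gen W
  let k := AlgebraicClosure K
  let V : Affine k := E (algebraMap K k (cA W)) (algebraMap K k (cB W))
  let F := V.FunctionField
  have hF0 : Gen K k F (cA W) (cB W) (gx V) (gy V) := by
    refine ⟨?_, gx_tr V, gxy_gen V⟩
    have h := gxy_eqn V
    have e1 : V.a₁ = 0 := rfl
    have e2 : V.a₂ = 0 := rfl
    have e3 : V.a₃ = 0 := rfl
    have e4 : V.a₄ = algebraMap K k (cA W) := rfl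
    have e6 : V.a₆ = algebraMap K k (cB W) := rfl
    rw [e1, e2, e3, e4, e6] at h
    simp only [map_zero, zero_mul, add_zero, ← IsScalarTower.algebraMap_apply] at h
    exact h
  have htrK : Transcendental K (gx V) := fun halg => gx_tr V (halg.tower_top k)
  obtain ⟨ι, hιx, hιy⟩ := hL.exists_hom hF0.eqn htrK
  let _ : Algebra W.FunctionField F := ι.toRingHom.toAlgebra
  have : IsScalarTower K W.FunctionField F :=
    IsScalarTower.of_algebraMap_eq fun c => (ι.commutes c).symm
  have hF : Gen K k F (cA W) (cB W) (algebraMap W.FunctionField F (sx W))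
      (algebraMap W.FunctionField F (sy W)) := by
    have h1 : algebraMap W.FunctionField F (sx W) = gx V := hιx
    have h2 : algebraMap W.FunctionField F (sy W) = gy V := hιy
    rw [h1, h2]
    exact hF0
  exact main_L hL hF H hH

/-- **Main theorem.** Let `K` be a field of characteristic zero, `W` an elliptic curve over `K`,
`F/K` any field extension and `U` any subgroup of `Fˣ`. If the function field of `W` is
`K`-isomorphic to the field generated by some subset of `U`, then it is `K`-isomorphic to the
field generated by two elements of `U`. -/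
theorem main {F : Type*} [Field F] [Algebra K F] (U : Subgroup Fˣ) (W : Affine K) [W.IsElliptic]
    (s : Set Fˣ) (hs : s ⊆ U)
    (e : adjoin K ((fun u : Fˣ => (u : F)) '' s) ≃ₐ[K] W.FunctionField) :
    ∃ f ∈ U, ∃ g ∈ U, Nonempty (adjoin K {(f : F), (g : F)} ≃ₐ[K] W.FunctionField) := by
  let j : W.FunctionField →ₐ[K] F :=
    (adjoin K ((fun u : Fˣ => (u : F)) '' s)).val.comp (e.symm : W.FunctionField →ₐ[K] _)
  let H : Subgroup (W.FunctionField)ˣ := U.comap (Units.map (j : W.FunctionField →* F))
  have hj : ∀ z : adjoin K ((fun u : Fˣ => (u : F)) '' s), j (e z) = z := by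
    intro z
    show ((e.symm (e z) : adjoin K ((fun u : Fˣ => (u : F)) '' s)) : F) = z
    rw [e.symm_apply_apply]
  have hH : adjoin K ((fun u : (W.FunctionField)ˣ => (u : W.FunctionField)) '' H) = ⊤ := by
    -- the image under `j` of the left side contains all of `s`
    have h1 : adjoin K ((fun u : Fˣ => (u : F)) '' s) ≤
        (adjoin K ((fun u : (W.FunctionField)ˣ => (u : W.FunctionField)) '' H)).map j := by
      rw [adjoin_le_iff]
      rintro _ ⟨u, hu, rfl⟩
      have hu' : (u : F) ∈ adjoin K ((fun u : Fˣ => (u : F)) '' s) :=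
        subset_adjoin K _ ⟨u, hu, rfl⟩
      set z : adjoin K ((fun u : Fˣ => (u : F)) '' s) := ⟨u, hu'⟩ with hz
      have hz0 : e z ≠ 0 := by
        intro h0
        have h2 : z = 0 := by simpa using h0
        have h3 : (u : F) = 0 := congrArg Subtype.val h2
        exact u.ne_zero h3
      refine ⟨e z, ?_, hj z⟩
      apply subset_adjoin
      refine ⟨Units.mk0 (e z) hz0, ?_, rfl⟩
      show Units.map (j : W.FunctionField →* F) (Units.mk0 (e z) hz0) ∈ U
      have h4 : Units.map (j : W.FunctionField →* F) (Units.mk0 (e z) hz0) = u := by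
        apply Units.ext
        exact hj z
      rw [h4]
      exact hs hu
    rw [eq_top_iff]
    intro w _
    obtain ⟨w', hw', hjw⟩ := h1 (e.symm w).2
    have h5 : j w' = j w := hjw
    rwa [← j.toRingHom.injective h5]
  obtain ⟨f, hf, g, hg, ⟨e'⟩⟩ := main_W W H hH
  refine ⟨Units.map (j : W.FunctionField →* F) f, hf, Units.map (j : W.FunctionField →* F) g, hg,
    ?_⟩
  have h6 : adjoin K {((Units.map (j : W.FunctionField →* F) f : Fˣ) : F),
      ((Units.map (j : W.FunctionField →* F) g : Fˣ) : F)} =
      (adjoin K {(f : W.FunctionField), (g : W.FunctionField)}).map j := by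
    rw [adjoin_map, Set.image_pair]
    rfl
  rw [h6]
  exact ⟨(IntermediateField.equivMap _ j).symm.trans e'⟩

end

end Pool.Agent.C98
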