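import Pool.Agent.C98.Dich

/-!
Field theoretic preliminaries.
-/

open WeierstrassCurve WeierstrassCurve.Affine Polynomial IntermediateField
open scoped Classical

namespace Pool.Agent.C98

section
variable {K L F' : Type*} [Field K] [Field L] [Field F'] [Algebra K L] [Algebra K F']

theorem hom_ext_adjoin {S : Set L} (hS : adjoin K S = ⊤) {φ ψ : L →ₐ[K] F'}
    (h : ∀ s ∈ S, φ s = ψ s) : φ = ψ := by
  ext z
  have hz : z ∈ adjoin K S := by rw [hS]; trivial
  induction hz using IntermediateField.adjoin_induction with
  | mem z hz => exact h z hz
  | algebraMap c => rw [φ.commutes, ψ.commutes]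
  | add z w _ _ hz hw => rw [map_add, map_add, hz, hw]
  | inv z _ hz => rw [map_inv₀, map_inv₀, hz]
  | mul z w _ _ hz hw => rw [map_mul, map_mul, hz, hw]

end

section
variable {K k F : Type*} [Field K] [Field k] [Field F] [Algebra K k] [Algebra k F]
    [Algebra K F] [IsScalarTower K k F] {A B : K} {x y : F}

theorem fd_of_tr (h : Gen K k F A B x y) {f : F} (hf : Transcendental k f) :
    FiniteDimensional (adjoin k {f}) F := by
  set M := adjoin k {f} with hM
  have hfM : f ∈ M := IntermediateField.mem_adjoin_simple_self k f
  have hx : IsIntegral M x := by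
    rw [← isAlgebraic_iff_isIntegral]
    obtain ⟨p, q, r, hr, hfr⟩ := h.rep f
    set f' : M := ⟨f, hfM⟩ with hf'
    refine ⟨C (f' ^ 2) * (r ^ 2).map (algebraMap k M) - C (2 * f') * (r * p).map (algebraMap k M) +
      (p ^ 2 - q ^ 2 * cub k A B).map (algebraMap k M), ?_, ?_⟩
    · intro h0
      have hr2 : r ^ 2 = 0 := by
        ext i
        rw [coeff_zero]
        have h1 := congrArg (fun p => coeff p i) h0
        simp only [coeff_add, coeff_sub, coeff_C_mul, coeff_map, coeff_zero] at h1
        have h2 : aeval f (C ((r ^ 2).coeff i) * X ^ 2 - C (2 * (r * p).coeff i) * X +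
            C ((p ^ 2 - q ^ 2 * cub k A B).coeff i) : k[X]) = 0 := by
          have h3 := congrArg (algebraMap M F) h1
          simp only [map_add, map_sub, map_mul, map_pow, map_zero, map_ofNat,
            ← IsScalarTower.algebraMap_apply] at h3
          have h4 : algebraMap M F f' = f := rfl
          rw [h4] at h3
          simp only [map_add, map_sub, map_mul, map_pow, aeval_C, aeval_X, map_ofNat, coeff_sub]
          linear_combination h3
        have h3 := aeval_inj hf (h2.trans (map_zero _).symm)
        have h4 := congrArg (fun p => coeff p 2) h3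
        simpa [coeff_X, coeff_C] using h4
      exact hr (pow_eq_zero_iff (two_ne_zero)|>.mp hr2)
    · have h4 : algebraMap M F f' = f := rfl
      simp only [map_add, map_sub, map_mul, map_pow, aeval_C, map_ofNat, Polynomial.map_mul,
        Polynomial.map_pow, Polynomial.map_sub, aeval_map_algebraMap, h4]
      rw [aeval_cub, ← h.eqn]
      linear_combination (f * aeval x r - aeval x p + aeval x q * y) * hfr
  have hAM : ∀ c : K, IsIntegral M (algebraMap K F c) := by
    intro c
    rw [IsScalarTower.algebraMap_apply K k F, IsScalarTower.algebraMap_apply k M F]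
    exact isIntegral_algebraMap
  have hy : IsIntegral M y := by
    apply IsIntegral.of_pow (n := 2) (by norm_num)
    rw [h.eqn]
    exact ((hx.pow 3).add ((hAM A).mul hx)).add (hAM B)
  have htop : adjoin M {x, y} = ⊤ := by
    rw [eq_top_iff]
    intro z _
    have hz : z ∈ adjoin k {x, y} := by rw [h.gen]; trivial
    have hle : adjoin k {x, y} ≤ (adjoin M {x, y}).restrictScalars k := by
      rw [adjoin_le_iff]
      exact subset_adjoin M _
    exact hle hz
  have hfd : FiniteDimensional M (adjoin M {x, y}) := by
    apply finiteDimensional_adjoin
    intro z hz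
    rcases hz with rfl | hz
    · exact hx
    · rw [Set.mem_singleton_iff] at hz
      rw [hz]
      exact hy
  rw [htop] at hfd
  exact (IntermediateField.topEquiv (F := M) (E := F)).toLinearEquiv.finiteDimensional

/-- finitely many intermediate fields contain a given transcendental element -/
theorem finite_between [CharZero k] (h : Gen K k F A B x y) {f : F} (hf : Transcendental k f) :
    {M : IntermediateField k F | f ∈ M}.Finite := by
  have hfd := fd_of_tr h hf
  set M0 := adjoin k {f} with hM0
  have hfin : Finite (IntermediateField M0 F) :=
    Field.finite_intermediateField_of_exists_primitive_element M0 F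
      (Field.exists_primitive_element M0 F)
  have hle : ∀ M : IntermediateField k F, f ∈ M → M0 ≤ M := by
    intro M hM
    rw [hM0, adjoin_le_iff]
    simpa using hM
  -- embed into intermediate fields of `F / M0`
  refine Set.Finite.of_surjOn (s := Set.univ)
    (f := fun N : IntermediateField M0 F => N.restrictScalars k) ?_ Set.finite_univ
  intro M hM
  refine ⟨IntermediateField.extendScalars (hle M hM), trivial, ?_⟩
  ext z
  rfl

end

end Pool.Agent.C98
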