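import Pool.Agent.C98.Fld1

/-!
The covering argument (B. H. Neumann's lemma).
-/

open IntermediateField
open scoped Classical Pointwise

namespace Pool.Agent.C98

variable {K L : Type*} [Field K] [Field L] [Algebra K L]

/-- units lying in an intermediate field -/
def unitSub (M : IntermediateField K L) : Subgroup Lˣ where
  carrier := {u | (u : L) ∈ M}
  mul_mem' := by
    intro a b ha hb
    simp only [Set.mem_setOf_eq, Units.val_mul] at *
    exact mul_mem ha hb
  one_mem' := by simp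
  inv_mem' := by
    intro a ha
    simp only [Set.mem_setOf_eq, Units.val_inv_eq_inv_val] at *
    exact inv_mem ha

theorem mem_unitSub (M : IntermediateField K L) (u : Lˣ) : u ∈ unitSub M ↔ (u : L) ∈ M := Iff.rfl

theorem neumann (H0 : Subgroup Lˣ) (N : IntermediateField K L) (f : L) (g0 : Lˣ)
    (hfin : {M : IntermediateField K L | f ∈ M}.Finite)
    (hN : ∀ h ∈ H0, adjoin K {f, ((g0 * h : Lˣ) : L)} ≤ N)
    (hbad : ∀ h ∈ H0, adjoin K {f, ((g0 * h : Lˣ) : L)} ≠ N) :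
    ∃ M : IntermediateField K L, f ∈ M ∧ M ≤ N ∧ M ≠ N ∧ (∃ h ∈ H0, ((g0 * h : Lˣ) : L) ∈ M) ∧
      ∃ n : ℕ, 0 < n ∧ ∀ h ∈ H0, (h : L) ^ n ∈ M := by
  let MM : H0 → IntermediateField K L := fun h => adjoin K {f, ((g0 * (h : Lˣ) : Lˣ) : L)}
  have hMf : ∀ h, f ∈ MM h := fun h => subset_adjoin K _ (by simp)
  have hMg : ∀ h : H0, ((g0 * (h : Lˣ) : Lˣ) : L) ∈ MM h := fun h => subset_adjoin K _ (by simp)
  have hfin' : (Set.range MM).Finite := by
    apply hfin.subset
    rintro M ⟨h, rfl⟩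
    exact hMf h
  let s := hfin'.toFinset
  -- representatives
  let g : IntermediateField K L → H0 := fun M =>
    if hM : ∃ h, MM h = M then hM.choose else 1
  have hg : ∀ h, MM (g (MM h)) = MM h := by
    intro h
    have hM : ∃ h', MM h' = MM h := ⟨h, rfl⟩
    show MM (dite _ _ _) = _
    rw [dif_pos hM]
    exact hM.choose_spec
  let HH : IntermediateField K L → Subgroup H0 := fun M => (unitSub M).subgroupOf H0
  have hcov : ⋃ i ∈ s, (g i) • ((HH i : Subgroup H0) : Set H0) = Set.univ := by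
    rw [Set.eq_univ_iff_forall]
    intro h
    rw [Set.mem_iUnion₂]
    refine ⟨MM h, by simp [s], ?_⟩
    rw [Set.mem_smul_set_iff_inv_smul_mem, smul_eq_mul, SetLike.mem_coe, Subgroup.mem_subgroupOf,
      mem_unitSub]
    have h1 := hMg h
    have h2 := hMg (g (MM h))
    rw [hg] at h2
    have h3 := mul_mem (inv_mem h2) h1
    have e : (((((g (MM h))⁻¹ * h : H0) : Lˣ)) : L) =
        ((g0 * ((g (MM h) : H0) : Lˣ) : Lˣ) : L)⁻¹ * ((g0 * (h : Lˣ) : Lˣ) : L) := by
      push_cast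
      have hg0 : (g0 : L) ≠ 0 := g0.ne_zero
      rw [mul_inv]
      field_simp
    rw [e]
    exact h3
  obtain ⟨M, hM, hfi⟩ := Subgroup.exists_finiteIndex_of_leftCoset_cover hcov
  have hM' : ∃ h, MM h = M := by simpa [s] using hM
  obtain ⟨h0, rfl⟩ := hM'
  refine ⟨MM h0, hMf h0, hN _ h0.2, hbad _ h0.2, ⟨h0, h0.2, hMg h0⟩, (HH (MM h0)).index,
    Nat.pos_of_ne_zero hfi.index_ne_zero, ?_⟩
  intro h hh
  have h1 := Subgroup.pow_index_mem (HH (MM h0)) (⟨h, hh⟩ : H0)
  have h2 : ((((⟨h, hh⟩ : H0) ^ (HH (MM h0)).index : H0) : Lˣ) : L) ∈ MM h0 := h1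
  simpa using h2

end Pool.Agent.C98
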