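import Pool.Agent.C98.Fld2

/-!
Kummer theory: embeddings over a subfield of finite index come from automorphisms acting by
scalars on `H`.
-/

open IntermediateField
open scoped Classical

namespace Pool.Agent.C98

section
variable {K L k F : Type*} [Field K] [Field L] [Field k] [Field F] [CharZero K]
  [Algebra K L] [Algebra K k] [Algebra K F] [Algebra L F] [Algebra k F]
  [IsScalarTower K L F] [IsScalarTower K k F] [IsAlgClosed k] [Algebra.IsAlgebraic K k]
  {A B : K} {x y : L}

/-- `T`: automorphisms acting by scalars on all elements of `H` -/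
def TT {L : Type*} (k F : Type*) [Field L] [Field k] [Field F] [Algebra k F] [Algebra L F]
    (H : Subgroup Lˣ) :
    Subgroup (F ≃ₐ[k] F) where
  carrier := {a | ∀ h ∈ H, ∃ c : k, a (algebraMap L F h) = algebraMap k F c * algebraMap L F h}
  mul_mem' := by
    intro a b ha hb h hh
    obtain ⟨c, hc⟩ := ha h hh
    obtain ⟨d, hd⟩ := hb h hh
    refine ⟨d * c, ?_⟩
    rw [AlgEquiv.mul_apply, hd, map_mul, a.commutes, hc, map_mul]
    ring
  one_mem' := fun h _ => ⟨1, by simp⟩
  inv_mem' := by
    intro a ha h hh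
    obtain ⟨c, hc⟩ := ha h hh
    have hne : algebraMap L F (h : L) ≠ 0 := by
      rw [Ne, map_eq_zero]; exact h.ne_zero
    have hc0 : c ≠ 0 := by
      rintro rfl
      rw [map_zero, zero_mul, map_eq_zero_iff a a.injective] at hc
      exact hne hc
    refine ⟨c⁻¹, ?_⟩
    have h1 := congrArg (a⁻¹ : F ≃ₐ[k] F) hc
    have h2 : (a⁻¹ : F ≃ₐ[k] F) (a (algebraMap L F h)) = algebraMap L F h := by
      rw [← AlgEquiv.mul_apply, inv_mul_cancel, AlgEquiv.one_apply]
    rw [h2, map_mul, AlgEquiv.commutes] at h1
    rw [map_inv₀, eq_inv_mul_iff_mul_eq₀ (by rwa [Ne, map_eq_zero])]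
    exact h1.symm

theorem mem_TT {H : Subgroup Lˣ} {a : F ≃ₐ[k] F} : a ∈ TT k F H ↔
    ∀ h ∈ H, ∃ c : k, a (algebraMap L F h) = algebraMap k F c * algebraMap L F h := Iff.rfl

theorem alg_L_F (hF : Gen K k F A B (algebraMap L F x) (algebraMap L F y)) :
    Algebra.IsAlgebraic L F := by
  refine ⟨fun z => ?_⟩
  have hz : z ∈ adjoin k {algebraMap L F x, algebraMap L F y} := by rw [hF.gen]; trivial
  induction hz using IntermediateField.adjoin_induction with
  | mem z hz =>
    rcases hz with rfl | hz
    · exact isAlgebraic_algebraMap _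
    · rw [Set.mem_singleton_iff] at hz
      rw [hz]
      exact isAlgebraic_algebraMap _
  | algebraMap c =>
    have h1 : IsAlgebraic K c := Algebra.IsAlgebraic.isAlgebraic c
    have h2 : IsAlgebraic K (algebraMap k F c) := h1.algebraMap
    exact h2.tower_top L
  | add z w _ _ hz hw => exact hz.add hw
  | inv z _ hz => exact hz.inv
  | mul z w _ _ hz hw => exact hz.mul hw

theorem alg_M_L (hL : Gen K K L A B x y) (M : IntermediateField K L) {f : L} (hfM : f ∈ M)
    (hf : Transcendental K f) : Algebra.IsAlgebraic M L := by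
  have hfd := fd_of_tr hL hf
  refine ⟨fun z => ?_⟩
  have hle : adjoin K {f} ≤ M := by
    rw [adjoin_le_iff]; simpa using hfM
  letI : Algebra (adjoin K {f}) M := (IntermediateField.inclusion hle).toRingHom.toAlgebra
  haveI : IsScalarTower (adjoin K {f}) M L := IsScalarTower.of_algebraMap_eq fun _ => rfl
  have h1 : IsAlgebraic (adjoin K {f}) z := Algebra.IsAlgebraic.isAlgebraic z
  exact h1.tower_top M

/-- Kummer theory -/
theorem embed_aux (Ω : Type*) [Field Ω] [Algebra K Ω] [Algebra L Ω] [Algebra k Ω] [Algebra F Ω]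
    [IsScalarTower K L Ω] [IsScalarTower K k Ω]
    [IsScalarTower K F Ω] [IsScalarTower L F Ω] [IsScalarTower k F Ω]
    [IsAlgClosed Ω] [Algebra.IsAlgebraic F Ω] (hL : Gen K K L A B x y)
    (hF : Gen K k F A B (algebraMap L F x) (algebraMap L F y)) (H : Subgroup Lˣ)
    (hH : adjoin K ((fun u : Lˣ => (u : L)) '' H) = ⊤) (M : IntermediateField K L) {f : L}
    (hfM : f ∈ M) (hf : Transcendental K f) {n : ℕ} (hn : 0 < n)
    (hpow : ∀ h ∈ H, (h : L) ^ n ∈ M) {z : L} (hz : z ∉ M) :
    ∃ a ∈ TT k F H, (∀ m ∈ M, a (algebraMap L F m) = algebraMap L F m) ∧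
      a (algebraMap L F z) ≠ algebraMap L F z := by
  have i1 : Algebra.IsAlgebraic L F := alg_L_F hF
  have i2 : Algebra.IsAlgebraic M L := alg_M_L hL M hfM hf
  have i3 : Algebra.IsAlgebraic L Ω := Algebra.IsAlgebraic.trans L F Ω
  have i4 : Algebra.IsAlgebraic M Ω := Algebra.IsAlgebraic.trans M L Ω
  have i5 : IsAlgClosure M Ω := ⟨inferInstance, i4⟩
  have i6 : CharZero M := charZero_of_injective_algebraMap (algebraMap K M).injective
  have i7 : IsGalois M Ω := inferInstance
  -- an automorphism of Ω moving z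
  obtain ⟨σ, hσ⟩ : ∃ σ : Ω ≃ₐ[M] Ω, σ (algebraMap L Ω z) ≠ algebraMap L Ω z := by
    by_contra hcon
    push Not at hcon
    have h1 := (InfiniteGalois.mem_range_algebraMap_iff_fixed (k := M) (K := Ω)
      (algebraMap L Ω z)).mpr hcon
    obtain ⟨m, hm⟩ := h1
    rw [IsScalarTower.algebraMap_apply M L Ω] at hm
    apply hz
    rw [← (algebraMap L Ω).injective hm]
    exact m.2
  have hσM : ∀ m ∈ M, σ (algebraMap L Ω m) = algebraMap L Ω m := by
    intro m hm
    have := σ.commutes ⟨m, hm⟩
    rwa [IsScalarTower.algebraMap_apply M L Ω] at this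
  have hσK : ∀ c : K, σ (algebraMap K Ω c) = algebraMap K Ω c := by
    intro c
    rw [IsScalarTower.algebraMap_apply K L Ω]
    exact hσM _ (M.algebraMap_mem c)
  let σL : L →ₐ[K] Ω :=
    { toFun := fun z => σ (algebraMap L Ω z)
      map_one' := by simp
      map_mul' := by simp
      map_zero' := by simp
      map_add' := by simp
      commutes' := by
        intro c
        show σ (algebraMap L Ω (algebraMap K L c)) = _
        rw [← IsScalarTower.algebraMap_apply, hσK] }
  have hσL : ∀ z, σL z = σ (algebraMap L Ω z) := fun _ => rfl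
  -- scalars on H
  have hscal : ∀ h ∈ H, ∃ c : k, σL h = algebraMap k Ω c * algebraMap L Ω h := by
    intro h hh
    have hne : algebraMap L Ω (h : L) ≠ 0 := by
      rw [Ne, map_eq_zero]; exact h.ne_zero
    have h1 : (σL h / algebraMap L Ω h) ^ n = 1 := by
      rw [div_pow, hσL, ← map_pow, ← map_pow, hσM _ (hpow h hh), div_self]
      rw [map_pow]
      exact pow_ne_zero _ hne
    have h2 : IsAlgebraic k (σL h / algebraMap L Ω h) := by
      apply IsIntegral.isAlgebraic
      apply IsIntegral.of_pow hn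
      rw [h1]
      exact isIntegral_one
    obtain ⟨c, hc⟩ := mem_range_of_algebraic h2
    exact ⟨c, by rw [hc, div_mul_cancel₀ _ hne]⟩
  -- σL lands in F
  have hrange : ∀ z : L, ∃ w : F, algebraMap F Ω w = σL z := by
    intro z
    have hz : z ∈ adjoin K ((fun u : Lˣ => (u : L)) '' H) := by rw [hH]; trivial
    induction hz using IntermediateField.adjoin_induction with
    | mem z hz =>
      obtain ⟨h, hh, rfl⟩ := hz
      obtain ⟨c, hc⟩ := hscal h hh
      refine ⟨algebraMap k F c * algebraMap L F h, ?_⟩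
      rw [map_mul, ← IsScalarTower.algebraMap_apply, ← IsScalarTower.algebraMap_apply]
      exact hc.symm
    | algebraMap c =>
      exact ⟨algebraMap K F c, by rw [σL.commutes, ← IsScalarTower.algebraMap_apply]⟩
    | add z w _ _ hz hw =>
      obtain ⟨z', hz'⟩ := hz
      obtain ⟨w', hw'⟩ := hw
      exact ⟨z' + w', by rw [map_add, map_add, hz', hw']⟩
    | inv z _ hz =>
      obtain ⟨z', hz'⟩ := hz
      exact ⟨z'⁻¹, by rw [map_inv₀, map_inv₀, hz']⟩
    | mul z w _ _ hz hw =>
      obtain ⟨z', hz'⟩ := hz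
      obtain ⟨w', hw'⟩ := hw
      exact ⟨z' * w', by rw [map_mul, map_mul, hz', hw']⟩
  obtain ⟨X', hX'⟩ := hrange x
  obtain ⟨Y', hY'⟩ := hrange y
  have heq : Y' ^ 2 = X' ^ 3 + algebraMap K F A * X' + algebraMap K F B := by
    apply (algebraMap F Ω).injective
    simp only [map_add, map_mul, map_pow, hX', hY', ← IsScalarTower.algebraMap_apply]
    have := congrArg σL hL.eqn
    simpa only [map_add, map_mul, map_pow, σL.commutes] using this
  have htr : Transcendental k X' := by
    intro halg
    have h1 : IsAlgebraic K X' := halg.restrictScalars K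
    have h2 : IsAlgebraic K (algebraMap F Ω X') := h1.algebraMap
    rw [hX'] at h2
    exact hL.tr ((isAlgebraic_algHom_iff σL σL.toRingHom.injective).mp h2)
  obtain ⟨φ, hφx, hφy⟩ := hF.exists_hom heq htr
  have hcompat : ∀ z : L, algebraMap F Ω (φ (algebraMap L F z)) = σL z := by
    have : ((IsScalarTower.toAlgHom K F Ω).comp (φ.restrictScalars K)).comp
        (IsScalarTower.toAlgHom K L F) = σL := by
      apply hL.hom_ext
      · show algebraMap F Ω (φ (algebraMap L F x)) = _
        rw [hφx, hX']
      · show algebraMap F Ω (φ (algebraMap L F y)) = _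
        rw [hφy, hY']
    intro z
    exact DFunLike.congr_fun this z
  have hφH : ∀ h ∈ H, ∃ c : k, φ (algebraMap L F h) = algebraMap k F c * algebraMap L F h := by
    intro h hh
    obtain ⟨c, hc⟩ := hscal h hh
    refine ⟨c, ?_⟩
    apply (algebraMap F Ω).injective
    rw [hcompat, hc, map_mul, ← IsScalarTower.algebraMap_apply, ← IsScalarTower.algebraMap_apply]
  have hsurj : Function.Surjective φ := by
    have h1 : ∀ z : L, algebraMap L F z ∈ φ.fieldRange := by
      intro z
      have hz : z ∈ adjoin K ((fun u : Lˣ => (u : L)) '' H) := by rw [hH]; trivial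
      induction hz using IntermediateField.adjoin_induction with
      | mem z hz =>
        obtain ⟨h, hh, rfl⟩ := hz
        obtain ⟨c, hc⟩ := hφH h hh
        have hne : algebraMap L F (h : L) ≠ 0 := by
          rw [Ne, map_eq_zero]; exact h.ne_zero
        have hc0 : algebraMap k F c ≠ 0 := by
          intro h0
          rw [h0, zero_mul, map_eq_zero] at hc
          exact hne hc
        have h2 : algebraMap L F (h : L) = (algebraMap k F c)⁻¹ * φ (algebraMap L F h) := by
          rw [hc, ← mul_assoc, inv_mul_cancel₀ hc0, one_mul]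
        show algebraMap L F (h : L) ∈ φ.fieldRange
        rw [h2]
        exact mul_mem (inv_mem (φ.fieldRange.algebraMap_mem c)) ⟨_, rfl⟩
      | algebraMap c =>
        rw [← IsScalarTower.algebraMap_apply, IsScalarTower.algebraMap_apply K k F]
        exact φ.fieldRange.algebraMap_mem _
      | add z w _ _ hz hw => rw [map_add]; exact add_mem hz hw
      | inv z _ hz => rw [map_inv₀]; exact inv_mem hz
      | mul z w _ _ hz hw => rw [map_mul]; exact mul_mem hz hw
    have h2 : (⊤ : IntermediateField k F) ≤ φ.fieldRange := by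
      rw [← hF.gen, adjoin_le_iff]
      rintro w (rfl | hw)
      · exact h1 x
      · rw [Set.mem_singleton_iff] at hw
        rw [hw]
        exact h1 y
    intro w
    exact h2 (IntermediateField.mem_top (x := w))
  refine ⟨AlgEquiv.ofBijective φ ⟨φ.toRingHom.injective, hsurj⟩, ?_, ?_, ?_⟩
  · intro h hh
    exact hφH h hh
  · intro m hm
    show φ (algebraMap L F m) = _
    apply (algebraMap F Ω).injective
    rw [hcompat, hσL, hσM m hm, ← IsScalarTower.algebraMap_apply]
  · show φ (algebraMap L F z) ≠ _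
    intro h0
    have h1 := congrArg (algebraMap F Ω) h0
    rw [hcompat, hσL, ← IsScalarTower.algebraMap_apply] at h1
    exact hσ h1

/-- Kummer theory -/
theorem embed (hL : Gen K K L A B x y)
    (hF : Gen K k F A B (algebraMap L F x) (algebraMap L F y)) (H : Subgroup Lˣ)
    (hH : adjoin K ((fun u : Lˣ => (u : L)) '' H) = ⊤) (M : IntermediateField K L) {f : L}
    (hfM : f ∈ M) (hf : Transcendental K f) {n : ℕ} (hn : 0 < n)
    (hpow : ∀ h ∈ H, (h : L) ^ n ∈ M) {z : L} (hz : z ∉ M) :
    ∃ a ∈ TT k F H, (∀ m ∈ M, a (algebraMap L F m) = algebraMap L F m) ∧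
      a (algebraMap L F z) ≠ algebraMap L F z :=
  embed_aux (AlgebraicClosure F) hL hF H hH M hfM hf hn hpow hz

end

end Pool.Agent.C98
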