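import Pool.Agent.C98.Fld3

/-!
The group `T` and the choice of `f`, `g`.
-/

open IntermediateField
open scoped Classical

namespace Pool.Agent.C98

section
variable {K L k F : Type*} [Field K] [Field L] [Field k] [Field F] [CharZero K]
  [Algebra K L] [Algebra K k] [Algebra K F] [Algebra L F] [Algebra k F]
  [IsScalarTower K L F] [IsScalarTower K k F] [IsAlgClosed k] [Algebra.IsAlgebraic K k]
  {A B : K} {x y : L}

/-- `a` fixes `h` -/
def Fix (a : F ≃ₐ[k] F) (h : Lˣ) : Prop := a (algebraMap L F h) = algebraMap L F h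

omit [CharZero K] [Algebra K L] [Algebra K k] [Algebra K F] [IsScalarTower K L F]
  [IsScalarTower K k F] [IsAlgClosed k] [Algebra.IsAlgebraic K k] [Field K]

theorem ne0 (h : Lˣ) : algebraMap L F (h : L) ≠ 0 := by
  rw [Ne, map_eq_zero]; exact h.ne_zero

theorem Fix.mul_left {a b : F ≃ₐ[k] F} {h : Lˣ} (ha : Fix a h) (hb : Fix b h) :
    Fix (a * b) h := by
  unfold Fix at *
  rw [AlgEquiv.mul_apply, hb, ha]

theorem Fix.inv_left {a : F ≃ₐ[k] F} {h : Lˣ} (ha : Fix a h) : Fix a⁻¹ h := by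
  unfold Fix at *
  have h1 := congrArg (a⁻¹ : F ≃ₐ[k] F) ha
  rw [← AlgEquiv.mul_apply, inv_mul_cancel, AlgEquiv.one_apply] at h1
  exact h1.symm

theorem Fix.one_left {h : Lˣ} : Fix (1 : F ≃ₐ[k] F) h := rfl

theorem Fix.pow_left {a : F ≃ₐ[k] F} {h : Lˣ} (ha : Fix a h) (n : ℕ) : Fix (a ^ n) h := by
  induction n with
  | zero => rw [pow_zero]; exact Fix.one_left
  | succ n ih => rw [pow_succ]; exact ih.mul_left ha

theorem Fix.mul {a : F ≃ₐ[k] F} {h g : Lˣ} (ha : Fix a h) (hb : Fix a g) : Fix a (h * g) := by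
  unfold Fix at *
  rw [Units.val_mul, map_mul, map_mul, ha, hb]

theorem Fix.mul_iff {a : F ≃ₐ[k] F} {h g : Lˣ} (ha : Fix a h) : Fix a (h * g) ↔ Fix a g := by
  refine ⟨fun hb => ?_, fun hb => ha.mul hb⟩
  unfold Fix at *
  rw [Units.val_mul, map_mul, map_mul, ha] at hb
  exact mul_left_cancel₀ (ne0 h) hb

theorem Fix.inv {a : F ≃ₐ[k] F} {h : Lˣ} (ha : Fix a h) : Fix a h⁻¹ := by
  rw [← Fix.mul_iff ha, mul_inv_cancel]
  unfold Fix
  simp

theorem Fix.one {a : F ≃ₐ[k] F} : Fix a (1 : Lˣ) := by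
  unfold Fix
  simp

theorem Fix.pow {a : F ≃ₐ[k] F} {h : Lˣ} (ha : Fix a h) (n : ℕ) : Fix a (h ^ n) := by
  induction n with
  | zero => rw [pow_zero]; exact Fix.one
  | succ n ih => rw [pow_succ]; exact ih.mul ha

theorem Fix.prod {a : F ≃ₐ[k] F} {ι : Type*} (s : Finset ι) (g : ι → Lˣ)
    (hg : ∀ i ∈ s, Fix a (g i)) : Fix a (∏ i ∈ s, g i) := by
  induction s using Finset.induction_on with
  | empty => rw [Finset.prod_empty]; exact Fix.one
  | insert i s hi ih =>
    rw [Finset.prod_insert hi]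
    exact (hg i (Finset.mem_insert_self _ _)).mul
      (ih (fun j hj => hg j (Finset.mem_insert_of_mem hj)))

theorem pow_scal {a : F ≃ₐ[k] F} {h : Lˣ} {c : k}
    (hc : a (algebraMap L F h) = algebraMap k F c * algebraMap L F h) (n : ℕ) :
    (a ^ n) (algebraMap L F h) = algebraMap k F (c ^ n) * algebraMap L F h := by
  induction n with
  | zero => simp
  | succ n ih =>
    rw [pow_succ, AlgEquiv.mul_apply, hc, map_mul, AlgEquiv.commutes, ih, pow_succ, map_mul]
    ring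

theorem scal_one {a : F ≃ₐ[k] F} {h : Lˣ} {c : k}
    (hc : a (algebraMap L F h) = algebraMap k F c * algebraMap L F h) : Fix a h ↔ c = 1 := by
  unfold Fix
  rw [hc]
  constructor
  · intro h1
    have h2 : algebraMap k F c * algebraMap L F h = 1 * algebraMap L F h := by rw [h1, one_mul]
    have h3 := mul_right_cancel₀ (ne0 h) h2
    exact (algebraMap k F).injective (by rw [h3, map_one])
  · rintro rfl
    rw [map_one, one_mul]

theorem scal_pow {a : F ≃ₐ[k] F} {h : Lˣ} {c : k}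
    (hc : a (algebraMap L F h) = algebraMap k F c * algebraMap L F h) (n : ℕ) :
    a (algebraMap L F (h ^ n : Lˣ)) = algebraMap k F (c ^ n) * algebraMap L F (h ^ n : Lˣ) := by
  rw [Units.val_pow_eq_pow_val, map_pow, map_pow, hc, mul_pow, map_pow]

theorem scal_ord {a : F ≃ₐ[k] F} {h : Lˣ} {c : k}
    (hc : a (algebraMap L F h) = algebraMap k F c * algebraMap L F h) {n : ℕ} (hn : a ^ n = 1) :
    c ^ n = 1 := by
  have h1 := pow_scal hc n
  rw [← scal_one h1, hn]
  exact Fix.one_left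

theorem fix_pow_of_dvd {H : Subgroup Lˣ} {a : F ≃ₐ[k] F} (ha : a ∈ TT k F H) {h : Lˣ}
    (hh : h ∈ H) {ℓ m : ℕ} (hℓ : a ^ ℓ = 1) (hm : ℓ ∣ m) : Fix a (h ^ m) := by
  obtain ⟨c, hc⟩ := ha h hh
  obtain ⟨j, rfl⟩ := hm
  rw [scal_one (scal_pow hc _), pow_mul, scal_ord hc hℓ, one_pow]

theorem fix_of_pow {H : Subgroup Lˣ} {a : F ≃ₐ[k] F} (ha : a ∈ TT k F H) {h : Lˣ}
    (hh : h ∈ H) {ℓ m : ℕ} (hℓ : a ^ ℓ = 1) (hm : Nat.Coprime ℓ m) (hf : Fix a (h ^ m)) :
    Fix a h := by
  obtain ⟨c, hc⟩ := ha h hh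
  rw [scal_one (scal_pow hc _)] at hf
  rw [scal_one hc]
  have h1 := scal_ord hc hℓ
  have h2 : orderOf c ∣ Nat.gcd ℓ m := Nat.dvd_gcd (orderOf_dvd_of_pow_eq_one h1)
    (orderOf_dvd_of_pow_eq_one hf)
  rw [hm, Nat.dvd_one, orderOf_eq_one_iff] at h2
  exact h2

/-- simultaneous selection for finitely many primes -/
theorem select (H : Subgroup Lˣ) (S : Finset ℕ) (hS : ∀ ℓ ∈ S, ℓ.Prime) (g : ℕ → Lˣ)
    (hg : ∀ ℓ ∈ S, g ℓ ∈ H) :
    ∃ h ∈ H, ∀ ℓ ∈ S, ∀ a ∈ TT k F H, a ^ ℓ = 1 → (Fix a h ↔ Fix a (g ℓ)) := by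
  refine ⟨∏ ℓ ∈ S, (g ℓ) ^ (∏ p ∈ S.erase ℓ, p), ?_, ?_⟩
  · exact Subgroup.prod_mem _ (fun ℓ hℓ => H.pow_mem (hg ℓ hℓ) _)
  · intro ℓ hℓ a ha haℓ
    rw [← Finset.prod_erase_mul S _ hℓ, Fix.mul_iff]
    · refine ⟨fun hf => fix_of_pow ha (hg ℓ hℓ) haℓ ?_ hf, fun hf => hf.pow _⟩
      apply Nat.Coprime.prod_right
      intro p hp
      rw [Finset.mem_erase] at hp
      exact (Nat.coprime_primes (hS ℓ hℓ) (hS p hp.2)).mpr (Ne.symm hp.1)
    · apply Fix.prod
      intro p hp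
      rw [Finset.mem_erase] at hp
      apply fix_pow_of_dvd ha (hg p hp.2) haℓ
      apply Finset.dvd_prod_of_mem
      rw [Finset.mem_erase]
      exact ⟨Ne.symm hp.1, hℓ⟩

end

section
variable {K L k F : Type*} [Field K] [Field L] [Field k] [Field F] [CharZero K]
  [Algebra K L] [Algebra K k] [Algebra K F] [Algebra L F] [Algebra k F]
  [IsScalarTower K L F] [IsScalarTower K k F] [IsAlgClosed k] [Algebra.IsAlgebraic K k]
  {A B : K} {x y : L}

/-- `T` acts faithfully on `H` -/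
theorem faithful (hF : Gen K k F A B (algebraMap L F x) (algebraMap L F y)) {H : Subgroup Lˣ}
    (hH : adjoin K ((fun u : Lˣ => (u : L)) '' H) = ⊤) {a b : F ≃ₐ[k] F}
    (hab : ∀ h ∈ H, a (algebraMap L F (h : L)) = b (algebraMap L F (h : L))) : a = b := by
  have h1 : ((a : F →ₐ[k] F).restrictScalars K).comp (IsScalarTower.toAlgHom K L F) =
      ((b : F →ₐ[k] F).restrictScalars K).comp (IsScalarTower.toAlgHom K L F) := by
    apply hom_ext_adjoin hH
    rintro _ ⟨h, hh, rfl⟩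
    exact hab h hh
  have h2 : (a : F →ₐ[k] F) = (b : F →ₐ[k] F) := by
    apply hF.hom_ext
    · exact DFunLike.congr_fun h1 x
    · exact DFunLike.congr_fun h1 y
  ext z
  exact DFunLike.congr_fun h2 z

theorem faithful' (hF : Gen K k F A B (algebraMap L F x) (algebraMap L F y)) {H : Subgroup Lˣ}
    (hH : adjoin K ((fun u : Lˣ => (u : L)) '' H) = ⊤) {a : F ≃ₐ[k] F}
    (ha : ∀ h ∈ H, Fix a h) : a = 1 :=
  faithful hF hH (fun h hh => ha h hh)

theorem TT_comm (hF : Gen K k F A B (algebraMap L F x) (algebraMap L F y)) {H : Subgroup Lˣ}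
    (hH : adjoin K ((fun u : Lˣ => (u : L)) '' H) = ⊤) :
    ∀ a ∈ TT k F H, ∀ b ∈ TT k F H, a * b = b * a := by
  intro a ha b hb
  apply faithful hF hH
  intro h hh
  obtain ⟨c, hc⟩ := ha h hh
  obtain ⟨d, hd⟩ := hb h hh
  rw [AlgEquiv.mul_apply, AlgEquiv.mul_apply, hc, hd, map_mul, map_mul, a.commutes, b.commutes,
    hc, hd]
  ring

/-- some element of `H` is transcendental -/
theorem exists_tr (hL : Gen K K L A B x y) {H : Subgroup Lˣ}
    (hH : adjoin K ((fun u : Lˣ => (u : L)) '' H) = ⊤) :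
    ∃ f ∈ H, Transcendental K (f : L) := by
  by_contra hcon
  push Not at hcon
  apply hL.tr
  have hx : x ∈ adjoin K ((fun u : Lˣ => (u : L)) '' H) := by rw [hH]; trivial
  clear hL
  induction hx using IntermediateField.adjoin_induction with
  | mem z hz =>
    obtain ⟨h, hh, rfl⟩ := hz
    have := hcon h hh
    rwa [Transcendental, not_not] at this
  | algebraMap c => exact isAlgebraic_algebraMap c
  | add z w _ _ hz hw => exact hz.add hw
  | inv z _ hz => exact hz.inv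
  | mul z w _ _ hz hw => exact hz.mul hw

theorem tr_up {f : L} (hf : Transcendental K f) : Transcendental k (algebraMap L F f) := by
  intro halg
  have h1 : IsAlgebraic K (algebraMap L F f) := halg.restrictScalars K
  exact hf ((isAlgebraic_algebraMap_iff (algebraMap L F).injective).mp h1)

/-- finitely many automorphisms fix a given transcendental element -/
theorem finite_fix (hF : Gen K k F A B (algebraMap L F x) (algebraMap L F y)) {f : Lˣ}
    (hf : Transcendental K (f : L)) : {a : F ≃ₐ[k] F | Fix a f}.Finite := by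
  have hfd := fd_of_tr hF (tr_up (k := k) hf)
  set M := adjoin k {algebraMap L F (f : L)} with hM
  have hfin : Finite (F ≃ₐ[M] F) := inferInstance
  have hfin2 : Finite M.fixingSubgroup :=
    Finite.of_equiv _ (IntermediateField.fixingSubgroupEquiv M).toEquiv.symm
  have hfin3 : (M.fixingSubgroup : Set (F ≃ₐ[k] F)).Finite := Set.toFinite _
  apply hfin3.subset
  intro a ha
  rw [SetLike.mem_coe, IntermediateField.mem_fixingSubgroup_iff]
  intro z hz
  induction hz using IntermediateField.adjoin_induction with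
  | mem z hz =>
    rw [Set.mem_singleton_iff] at hz
    rw [hz]
    exact ha
  | algebraMap c => exact a.commutes c
  | add z w _ _ hz hw => rw [map_add, hz, hw]
  | inv z _ hz => rw [map_inv₀, hz]
  | mul z w _ _ hz hw => rw [map_mul, hz, hw]

end

end Pool.Agent.C98
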