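import Pool.Agent.C98.Fld4

/-!
The unblocked case: two elements of `H` generate `L`.
-/

open IntermediateField
open scoped Classical

namespace Pool.Agent.C98

section
variable {K L k F : Type*} [Field K] [Field L] [Field k] [Field F] [CharZero K]
  [Algebra K L] [Algebra K k] [Algebra K F] [Algebra L F] [Algebra k F]
  [IsScalarTower K L F] [IsScalarTower K k F] [IsAlgClosed k] [Algebra.IsAlgebraic K k]
  {A B : K} {x y : L}

/-- the stabilizer of `f` in `T` -/
def Stab (k F : Type*) [Field k] [Field F] [Algebra k F] [Algebra L F]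
    (H : Subgroup Lˣ) (f : Lˣ) : Subgroup (F ≃ₐ[k] F) where
  carrier := {a | a ∈ TT k F H ∧ Fix a f}
  mul_mem' := fun ha hb => ⟨(TT k F H).mul_mem ha.1 hb.1, ha.2.mul_left hb.2⟩
  one_mem' := ⟨(TT k F H).one_mem, Fix.one_left⟩
  inv_mem' := fun ha => ⟨(TT k F H).inv_mem ha.1, ha.2.inv_left⟩

/-- a root of unity of prime order: powers are distinct -/
theorem pow_inj_of_prime {c : k} {ℓ : ℕ} (hℓ : ℓ.Prime) (hc : c ^ ℓ = 1) (hc1 : c ≠ 1) {i j : ℕ}
    (hi : i < ℓ) (hj : j < ℓ) (hij : c ^ i = c ^ j) : i = j := by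
  have : Fact ℓ.Prime := ⟨hℓ⟩
  have h1 : orderOf c = ℓ := orderOf_eq_prime hc hc1
  rw [← h1] at hi hj
  exact pow_injOn_Iio_orderOf hi hj hij

/-- the unblocked case -/
theorem unblocked (hL : Gen K K L A B x y)
    (hF : Gen K k F A B (algebraMap L F x) (algebraMap L F y)) (H : Subgroup Lˣ)
    (hH : adjoin K ((fun u : Lˣ => (u : L)) '' H) = ⊤)
    (hT : ∀ ℓ : ℕ, ℓ.Prime → ∀ V : Finset (F ≃ₐ[k] F), (∀ a ∈ V, a ∈ TT k F H ∧ a ^ ℓ = 1) →
      V.card ≤ ℓ ^ 2) :
    ∃ f ∈ H, ∃ g ∈ H, adjoin K {(f : L), (g : L)} = ⊤ := by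
  have hcomm := TT_comm hF hH
  obtain ⟨f1, hf1H, hf1⟩ := exists_tr hL hH
  -- finiteness of stabilizers
  have hfinstab : ∀ f : Lˣ, Transcendental K (f : L) → Finite (Stab k F H f) := by
    intro f hf
    have h1 := finite_fix hF hf
    have h2 : ((Stab k F H f : Subgroup (F ≃ₐ[k] F)) : Set (F ≃ₐ[k] F)).Finite :=
      h1.subset (fun a ha => ha.2)
    exact h2
  -- elements of prime order in a stabilizer
  have hcauchy : ∀ (f : Lˣ), Transcendental K (f : L) → ∀ ℓ ∈ (Nat.card (Stab k F H f)).primeFactors,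
      ∃ a : F ≃ₐ[k] F, a ∈ Stab k F H f ∧ a ^ ℓ = 1 ∧ a ≠ 1 := by
    intro f hf ℓ hℓ
    have := hfinstab f hf
    have hp := Nat.prime_of_mem_primeFactors hℓ
    have hpf : Fact ℓ.Prime := ⟨hp⟩
    obtain ⟨a, ha⟩ := exists_prime_orderOf_dvd_card' (G := Stab k F H f) ℓ
      (Nat.dvd_of_mem_primeFactors hℓ)
    refine ⟨a, a.2, ?_, ?_⟩
    · have h1 := pow_orderOf_eq_one a
      rw [ha] at h1
      have h2 := congrArg (fun t : Stab k F H f => (t : F ≃ₐ[k] F)) h1
      simpa using h2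
    · intro h0
      have h1 : a = 1 := by
        apply Subtype.ext
        exact h0
      rw [h1, orderOf_one] at ha
      exact hp.ne_one ha.symm
  have hmemprime : ∀ (f : Lˣ), Transcendental K (f : L) → ∀ ℓ : ℕ, ℓ.Prime →
      ∀ a : F ≃ₐ[k] F, a ∈ Stab k F H f → a ^ ℓ = 1 → a ≠ 1 →
      ℓ ∈ (Nat.card (Stab k F H f)).primeFactors := by
    intro f hf ℓ hℓ a ha haℓ ha1
    have := hfinstab f hf
    have hfct : Fact ℓ.Prime := ⟨hℓ⟩
    rw [Nat.mem_primeFactors]
    refine ⟨hℓ, ?_, Nat.card_pos.ne'⟩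
    have h1 : orderOf (⟨a, ha⟩ : Stab k F H f) = ℓ := by
      apply orderOf_eq_prime
      · apply Subtype.ext
        simpa using haℓ
      · intro h0
        apply ha1
        exact congrArg (fun t : Stab k F H f => (t : F ≃ₐ[k] F)) h0
    rw [← h1]
    exact orderOf_dvd_natCard _
  -- Step C
  set S1 := (Nat.card (Stab k F H f1)).primeFactors with hS1
  have hstep : ∀ ℓ ∈ S1, ∃ h ∈ H, ∀ V : Finset (F ≃ₐ[k] F),
      (∀ a ∈ V, a ∈ TT k F H ∧ a ^ ℓ = 1 ∧ Fix a h) → V.card ≤ ℓ := by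
    intro ℓ hℓ
    have hp := Nat.prime_of_mem_primeFactors hℓ
    obtain ⟨a, ha, haℓ, ha1⟩ := hcauchy f1 hf1 ℓ hℓ
    obtain ⟨h, hh, hfix⟩ : ∃ h ∈ H, ¬ Fix a h := by
      by_contra hcon
      push Not at hcon
      exact ha1 (faithful' hF hH hcon)
    refine ⟨h, hh, ?_⟩
    intro V hV
    obtain ⟨c, hc⟩ := ha.1 h hh
    have hcℓ := scal_ord hc haℓ
    have hc1 : c ≠ 1 := fun h0 => hfix ((scal_one hc).mpr h0)
    -- the products v * a^i
    have hinj : Set.InjOn (fun p : (F ≃ₐ[k] F) × ℕ => p.1 * a ^ p.2)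
        (V ×ˢ Finset.range ℓ : Finset ((F ≃ₐ[k] F) × ℕ)) := by
      rintro ⟨v, i⟩ hvi ⟨w, j⟩ hwj hvw
      simp only [Finset.coe_product, Finset.coe_range, Set.mem_prod, Finset.mem_coe,
        Set.mem_Iio] at hvi hwj
      have e1 : ∀ (v : F ≃ₐ[k] F) (i : ℕ), Fix v h →
          (v * a ^ i) (algebraMap L F h) = algebraMap k F (c ^ i) * algebraMap L F h := by
        intro v i hv
        rw [AlgEquiv.mul_apply, pow_scal hc, map_mul, AlgEquiv.commutes, hv]
      have h1 := congrArg (fun t : F ≃ₐ[k] F => t (algebraMap L F h)) hvw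
      simp only [e1 v i (hV v hvi.1).2.2, e1 w j (hV w hwj.1).2.2] at h1
      have h2 := (algebraMap k F).injective (mul_right_cancel₀ (ne0 h) h1)
      have h3 := pow_inj_of_prime hp hcℓ hc1 hvi.2 hwj.2 h2
      subst h3
      have h4 : v = w := mul_right_cancel hvw
      rw [h4]
    have h1 := hT ℓ hp ((V ×ˢ Finset.range ℓ).image (fun p : (F ≃ₐ[k] F) × ℕ => p.1 * a ^ p.2)) (by
      intro b hb
      rw [Finset.mem_image] at hb
      obtain ⟨⟨v, i⟩, hvi, rfl⟩ := hb
      rw [Finset.mem_product] at hvi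
      have hv := hV v hvi.1
      refine ⟨(TT k F H).mul_mem hv.1 ((TT k F H).pow_mem ha.1 i), ?_⟩
      have hcm : Commute v (a ^ i) := hcomm v hv.1 _ ((TT k F H).pow_mem ha.1 i)
      show (v * a ^ i) ^ ℓ = 1
      rw [hcm.mul_pow, hv.2.1, ← pow_mul, mul_comm i ℓ, pow_mul, haℓ, one_pow, one_mul])
    rw [Finset.card_image_of_injOn hinj, Finset.card_product, Finset.card_range, sq] at h1
    exact Nat.le_of_mul_le_mul_right h1 hp.pos
  choose! hs hsH hsV using hstep
  obtain ⟨f2, hf2H, hf2⟩ := select (k := k) (F := F) H S1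
    (fun ℓ hℓ => Nat.prime_of_mem_primeFactors hℓ) hs hsH
  set m := ∏ ℓ ∈ S1, ℓ with hm
  have hm0 : 0 < m := Finset.prod_pos (fun ℓ hℓ => (Nat.prime_of_mem_primeFactors hℓ).pos)
  -- the transcendental element f
  obtain ⟨j, hj, hftr⟩ : ∃ j : ℕ, 0 < j ∧ Transcendental K ((f1 ^ (m * j) * f2 : Lˣ) : L) := by
    by_contra hcon
    push Not at hcon
    have h1 := hcon 1 (by norm_num)
    have h2 := hcon 2 (by norm_num)
    rw [Transcendental, not_not] at h1 h2
    have h3 := h2.mul h1.inv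
    have e : ((f1 ^ (m * 2) * f2 : Lˣ) : L) * ((f1 ^ (m * 1) * f2 : Lˣ) : L)⁻¹ = (f1 : L) ^ m := by
      push_cast
      have h4 : (f1 : L) ≠ 0 := f1.ne_zero
      have h5 : (f2 : L) ≠ 0 := f2.ne_zero
      rw [mul_one, mul_comm m 2, two_mul, pow_add]
      field_simp
    rw [e] at h3
    exact hf1 (IsAlgebraic.of_pow hm0 h3)
  set f := f1 ^ (m * j) * f2 with hf
  have hfH : f ∈ H := H.mul_mem (H.pow_mem hf1H _) hf2H
  -- the bound for the stabilizer of f
  have hfV : ∀ ℓ : ℕ, ℓ.Prime → ∀ V : Finset (F ≃ₐ[k] F),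
      (∀ a ∈ V, a ∈ Stab k F H f ∧ a ^ ℓ = 1) → V.card ≤ ℓ := by
    intro ℓ hℓ V hV
    by_cases hℓS : ℓ ∈ S1
    · apply hsV ℓ hℓS V
      intro a ha
      obtain ⟨⟨haT, haf⟩, haℓ⟩ := hV a ha
      refine ⟨haT, haℓ, ?_⟩
      rw [← hf2 ℓ hℓS a haT haℓ]
      rwa [hf, Fix.mul_iff] at haf
      apply fix_pow_of_dvd haT hf1H haℓ
      exact (Finset.dvd_prod_of_mem _ hℓS).mul_right j
    · -- T[ℓ] embeds into the ℓ-th roots of unity
      have hex : ∀ a ∈ V, ∃ c : k, a (algebraMap L F f1) = algebraMap k F c * algebraMap L F f1 :=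
        fun a ha => (hV a ha).1.1 f1 hf1H
      choose! c hc using hex
      have hmaps : ∀ a ∈ V, c a ∈ (Polynomial.nthRoots ℓ (1 : k)).toFinset := by
        intro a ha
        rw [Multiset.mem_toFinset, Polynomial.mem_nthRoots hℓ.pos]
        exact scal_ord (hc a ha) (hV a ha).2
      have hinj : Set.InjOn c V := by
        intro a ha b hb hab
        by_contra hne
        apply hℓS
        have haT := (hV a ha).1.1
        have hbT := (hV b hb).1.1
        apply hmemprime f1 hf1 ℓ hℓ (b⁻¹ * a)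
        · refine ⟨(TT k F H).mul_mem ((TT k F H).inv_mem hbT) haT, ?_⟩
          unfold Fix
          rw [AlgEquiv.mul_apply, hc a ha, hab, ← hc b hb, ← AlgEquiv.mul_apply, inv_mul_cancel,
            AlgEquiv.one_apply]
        · have hcm : Commute b⁻¹ a := hcomm _ ((TT k F H).inv_mem hbT) a haT
          rw [hcm.mul_pow, inv_pow, (hV a ha).2, (hV b hb).2]
          simp
        · intro h0
          apply hne
          rw [inv_mul_eq_one] at h0
          exact h0.symm
      calc V.card ≤ (Polynomial.nthRoots ℓ (1 : k)).toFinset.card :=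
            Finset.card_le_card_of_injOn c hmaps hinj
        _ ≤ ℓ := (Multiset.toFinset_card_le _).trans (Polynomial.card_nthRoots ℓ 1)
  -- Step E
  set S2 := (Nat.card (Stab k F H f)).primeFactors with hS2
  have hstep2 : ∀ ℓ ∈ S2, ∃ h ∈ H, ∀ a ∈ Stab k F H f, a ^ ℓ = 1 → Fix a h → a = 1 := by
    intro ℓ hℓ
    have hp := Nat.prime_of_mem_primeFactors hℓ
    obtain ⟨a, ha, haℓ, ha1⟩ := hcauchy f hftr ℓ hℓ
    obtain ⟨h, hh, hfix⟩ : ∃ h ∈ H, ¬ Fix a h := by
      by_contra hcon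
      push Not at hcon
      exact ha1 (faithful' hF hH hcon)
    refine ⟨h, hh, ?_⟩
    intro b hb hbℓ hbh
    obtain ⟨c, hc⟩ := ha.1 h hh
    have hcℓ := scal_ord hc haℓ
    have hc1 : c ≠ 1 := fun h0 => hfix ((scal_one hc).mpr h0)
    have hinj : Set.InjOn (fun i : ℕ => a ^ i) (Finset.range ℓ) := by
      intro i hi j hj hij
      simp only [Finset.coe_range, Set.mem_Iio] at hi hj
      have h1 := congrArg (fun t : F ≃ₐ[k] F => t (algebraMap L F h)) hij
      simp only [pow_scal hc] at h1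
      have h2 := (algebraMap k F).injective (mul_right_cancel₀ (ne0 h) h1)
      exact pow_inj_of_prime hp hcℓ hc1 hi hj h2
    have hcard : ((Finset.range ℓ).image (fun i : ℕ => a ^ i)).card = ℓ := by
      rw [Finset.card_image_of_injOn hinj, Finset.card_range]
    have hbmem : b ∈ (Finset.range ℓ).image (fun i : ℕ => a ^ i) := by
      by_contra hnot
      have h1 := hfV ℓ hp (insert b ((Finset.range ℓ).image (fun i : ℕ => a ^ i))) (by
        intro v hv
        rcases Finset.mem_insert.mp hv with rfl | hv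
        · exact ⟨hb, hbℓ⟩
        · rw [Finset.mem_image] at hv
          obtain ⟨i, _, rfl⟩ := hv
          refine ⟨(Stab k F H f).pow_mem ha i, ?_⟩
          show (a ^ i) ^ ℓ = 1
          rw [← pow_mul, mul_comm i ℓ, pow_mul, haℓ, one_pow])
      rw [Finset.card_insert_of_notMem hnot, hcard] at h1
      omega
    rw [Finset.mem_image] at hbmem
    obtain ⟨i, hi, rfl⟩ := hbmem
    rw [Finset.mem_range] at hi
    have h1 := (scal_one (pow_scal hc i)).mp hbh
    have h2 := pow_inj_of_prime hp hcℓ hc1 hi hp.pos (by rw [h1, pow_zero])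
    rw [h2, pow_zero]
  choose! gs hgsH hgs using hstep2
  obtain ⟨g0, hg0H, hg0⟩ := select (k := k) (F := F) H S2
    (fun ℓ hℓ => Nat.prime_of_mem_primeFactors hℓ) gs hgsH
  have hkey : ∀ a ∈ Stab k F H f, Fix a g0 → a = 1 := by
    intro a ha hag
    by_contra hne
    have := hfinstab f hftr
    have hord : orderOf a ≠ 1 := by
      rw [Ne, orderOf_eq_one_iff]; exact hne
    obtain ⟨ℓ, hℓ, q, hq⟩ := Nat.exists_prime_and_dvd hord
    have hord0 : 0 < orderOf a := by
      have h1 : orderOf (⟨a, ha⟩ : Stab k F H f) = orderOf a := Subgroup.orderOf_mk a ha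
      rw [← h1]
      exact orderOf_pos _
    have hb1 : a ^ q ≠ 1 := by
      intro h0
      have h1 := orderOf_dvd_of_pow_eq_one h0
      have hq0 : 0 < q := by
        rcases Nat.eq_zero_or_pos q with h2 | h2
        · rw [h2, mul_zero] at hq; omega
        · exact h2
      have h2 := Nat.le_of_dvd hq0 h1
      rw [hq] at h2
      have := hℓ.two_le
      nlinarith
    have hbℓ : (a ^ q) ^ ℓ = 1 := by
      rw [← pow_mul, mul_comm, ← hq]
      exact pow_orderOf_eq_one a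
    have hbS := (Stab k F H f).pow_mem ha q
    have hℓS2 := hmemprime f hftr ℓ hℓ _ hbS hbℓ hb1
    apply hb1
    apply hgs ℓ hℓS2 _ hbS hbℓ
    rw [← hg0 ℓ hℓS2 _ hbS.1 hbℓ]
    exact hag.pow_left q
  -- Step F
  let H0 : Subgroup Lˣ :=
    { carrier := {h | h ∈ H ∧ ∀ a ∈ Stab k F H f, Fix a h}
      mul_mem' := fun ha hb => ⟨H.mul_mem ha.1 hb.1, fun a hs => (ha.2 a hs).mul (hb.2 a hs)⟩
      one_mem' := ⟨H.one_mem, fun a _ => Fix.one⟩
      inv_mem' := fun ha => ⟨H.inv_mem ha.1, fun a hs => (ha.2 a hs).inv⟩ }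
  by_contra hcon
  push Not at hcon
  have hfinM : {M : IntermediateField K L | (f : L) ∈ M}.Finite := finite_between hL hftr
  obtain ⟨M, hfM, _, hMtop, ⟨h, hh, hghM⟩, n2, hn2, hpow2⟩ := neumann H0 ⊤ (f : L) g0 hfinM
    (fun _ _ => le_top) (fun h hh => hcon f hfH (g0 * h) (H.mul_mem hg0H hh.1))
  have hfinf := hfinstab f hftr
  set n1 := Nat.card (Stab k F H f) with hn1
  have hn1pos : 0 < n1 := Nat.card_pos
  have hpow1 : ∀ h ∈ H, h ^ n1 ∈ H0 := by
    intro h hh
    refine ⟨H.pow_mem hh _, ?_⟩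
    intro a ha
    have h1 : a ^ n1 = 1 := by
      have h2 : (⟨a, ha⟩ : Stab k F H f) ^ n1 = 1 := pow_card_eq_one'
      have h3 := congrArg (fun t : Stab k F H f => (t : F ≃ₐ[k] F)) h2
      simpa using h3
    exact fix_pow_of_dvd ha.1 hh h1 dvd_rfl
  have hpow : ∀ h ∈ H, (h : L) ^ (n1 * n2) ∈ M := by
    intro h hh
    have := hpow2 _ (hpow1 h hh)
    rwa [Units.val_pow_eq_pow_val, ← pow_mul] at this
  obtain ⟨z, hz⟩ : ∃ z : L, z ∉ M := by
    by_contra hall
    push Not at hall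
    apply hMtop
    rw [eq_top_iff]
    intro z _
    exact hall z
  obtain ⟨a, haT, haM, haz⟩ := embed hL hF H hH M hfM hftr (Nat.mul_pos hn1pos hn2) hpow hz
  have haf : Fix a f := haM f hfM
  have haS : a ∈ Stab k F H f := ⟨haT, haf⟩
  have h1 : Fix a (g0 * h) := haM _ hghM
  rw [mul_comm, Fix.mul_iff (hh.2 a haS)] at h1
  have h2 := hkey a haS h1
  rw [h2] at haz
  exact haz rfl

end

end Pool.Agent.C98
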