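import Pool.Agent.C98.Fld5

/-!
The blocked case: `T` contains all translations by 2-torsion points and one `P ↦ -P + b`.
Then two elements of `H` generate the field of the curve through multiplication by 2.
-/

open IntermediateField
open scoped Classical

namespace Pool.Agent.C98

section
variable {K L k F : Type*} [Field K] [Field L] [Field k] [Field F] [CharZero K]
  [Algebra K L] [Algebra K k] [Algebra K F] [Algebra L F] [Algebra k F]
  [IsScalarTower K L F] [IsScalarTower K k F] [IsAlgClosed k] [Algebra.IsAlgebraic K k]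
  {A B : K} {x y : L}

/-- conjugates: an embedding moving a given element outside `M` -/
theorem exists_moving (Ω : Type*) [Field Ω] [Algebra K Ω] [Algebra L Ω] [Algebra F Ω]
    [IsScalarTower K L Ω] [IsScalarTower L F Ω]
    [IsAlgClosed Ω] [Algebra.IsAlgebraic F Ω] (hL : Gen K K L A B x y)
    (hF : Gen K k F A B (algebraMap L F x) (algebraMap L F y)) (M : IntermediateField K L) {f : L}
    (hfM : f ∈ M) (hf : Transcendental K f) {z : L} (hz : z ∉ M) :
    ∃ σ : L →ₐ[K] Ω, (∀ m ∈ M, σ m = algebraMap L Ω m) ∧ σ z ≠ algebraMap L Ω z := by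
  have i1 : Algebra.IsAlgebraic L F := alg_L_F hF
  have i2 : Algebra.IsAlgebraic M L := alg_M_L hL M hfM hf
  have i3 : Algebra.IsAlgebraic L Ω := Algebra.IsAlgebraic.trans L F Ω
  have i4 : Algebra.IsAlgebraic M Ω := Algebra.IsAlgebraic.trans M L Ω
  have i5 : IsAlgClosure M Ω := ⟨inferInstance, i4⟩
  have i6 : CharZero M := charZero_of_injective_algebraMap (algebraMap K M).injective
  have i7 : IsGalois M Ω := inferInstance
  obtain ⟨σ, hσ⟩ : ∃ σ : Ω ≃ₐ[M] Ω, σ (algebraMap L Ω z) ≠ algebraMap L Ω z := by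
    by_contra hcon
    push Not at hcon
    have h1 := (InfiniteGalois.mem_range_algebraMap_iff_fixed (k := M) (K := Ω)
      (algebraMap L Ω z)).mpr hcon
    obtain ⟨m, hm⟩ := h1
    rw [IsScalarTower.algebraMap_apply M L Ω] at hm
    apply hz
    rw [← (algebraMap L Ω).injective hm]
    exact m.2
  have hσM : ∀ m ∈ M, σ (algebraMap L Ω m) = algebraMap L Ω m := by
    intro m hm
    have := σ.commutes ⟨m, hm⟩
    rwa [IsScalarTower.algebraMap_apply M L Ω] at this
  have hσK : ∀ c : K, σ (algebraMap K Ω c) = algebraMap K Ω c := by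
    intro c
    rw [IsScalarTower.algebraMap_apply K L Ω]
    exact hσM _ (M.algebraMap_mem c)
  exact ⟨{ toFun := fun z => σ (algebraMap L Ω z)
           map_one' := by simp
           map_mul' := by simp
           map_zero' := by simp
           map_add' := by simp
           commutes' := by
            intro c
            show σ (algebraMap L Ω (algebraMap K L c)) = _
            rw [← IsScalarTower.algebraMap_apply, hσK] }, hσM, hσ⟩

omit [CharZero K] [Algebra K L] [Algebra K k] [Algebra K F] [IsScalarTower K L F]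
  [IsScalarTower K k F] [IsAlgClosed k] [Algebra.IsAlgebraic K k] [Field K] in
/-- sign rule in `h` -/
theorem sgn_h {H : Subgroup Lˣ} {a : F ≃ₐ[k] F} (ha : a ∈ TT k F H) (ha2 : a ^ 2 = 1)
    {h g : Lˣ} (hh : h ∈ H) (hg : g ∈ H) : Fix a (h * g) ↔ (Fix a h ↔ Fix a g) := by
  obtain ⟨c, hc⟩ := ha h hh
  obtain ⟨d, hd⟩ := ha g hg
  have hcd : a (algebraMap L F ((h * g : Lˣ) : L)) = algebraMap k F (c * d) *
      algebraMap L F ((h * g : Lˣ) : L) := by
    rw [Units.val_mul, map_mul, map_mul, hc, hd, map_mul]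
    ring
  rw [scal_one hc, scal_one hd, scal_one hcd]
  have hc2 := scal_ord hc ha2
  have hd2 := scal_ord hd ha2
  rcases sq_eq_one_iff.mp hc2 with rfl | rfl <;> rcases sq_eq_one_iff.mp hd2 with rfl | rfl <;>
    simp

omit [CharZero K] [Algebra K L] [Algebra K k] [Algebra K F] [IsScalarTower K L F]
  [IsScalarTower K k F] [IsAlgClosed k] [Algebra.IsAlgebraic K k] [Field K] in
/-- sign rule in `a` -/
theorem sgn_a {H : Subgroup Lˣ} {a b : F ≃ₐ[k] F} (ha : a ∈ TT k F H) (hb : b ∈ TT k F H)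
    (ha2 : a ^ 2 = 1) (hb2 : b ^ 2 = 1) {h : Lˣ} (hh : h ∈ H) :
    Fix (a * b) h ↔ (Fix a h ↔ Fix b h) := by
  obtain ⟨c, hc⟩ := ha h hh
  obtain ⟨d, hd⟩ := hb h hh
  have hcd : (a * b) (algebraMap L F (h : L)) = algebraMap k F (c * d) *
      algebraMap L F (h : L) := by
    rw [AlgEquiv.mul_apply, hd, map_mul, AlgEquiv.commutes, hc, map_mul]
    ring
  rw [scal_one hc, scal_one hd, scal_one hcd]
  have hc2 := scal_ord hc ha2
  have hd2 := scal_ord hd hb2
  rcases sq_eq_one_iff.mp hc2 with rfl | rfl <;> rcases sq_eq_one_iff.mp hd2 with rfl | rfl <;>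
    simp

omit [CharZero K] [Algebra K L] [Algebra K k] [Algebra K F] [IsScalarTower K L F]
  [IsScalarTower K k F] [IsAlgClosed k] [Algebra.IsAlgebraic K k] [Field K] in
theorem one_step {H H1 : Subgroup Lˣ} (hle : H1 ≤ H) {a b : F ≃ₐ[k] F} (ha : a ∈ TT k F H)
    (hb : b ∈ TT k F H) (ha2 : a ^ 2 = 1) (hb2 : b ^ 2 = 1)
    (hab : ∀ h ∈ H1, Fix a h → Fix b h) :
    (∀ h ∈ H1, Fix b h) ∨ (∀ h ∈ H1, Fix a h ↔ Fix b h) := by
  by_cases hall : ∀ h ∈ H1, Fix b h
  · exact Or.inl hall
  · right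
    push Not at hall
    obtain ⟨h1, hh1, hb1⟩ := hall
    have ha1 : ¬ Fix a h1 := fun h0 => hb1 (hab h1 hh1 h0)
    intro h hh
    refine ⟨hab h hh, fun hbh => ?_⟩
    by_contra hah
    have h2 : Fix a (h * h1) := by
      rw [sgn_h ha ha2 (hle hh) (hle hh1)]
      exact ⟨fun h => absurd h hah, fun h => absurd h ha1⟩
    have h3 := hab _ (H1.mul_mem hh hh1) h2
    rw [sgn_h hb hb2 (hle hh) (hle hh1)] at h3
    exact hb1 (h3.mp hbh)

variable [(E A B).IsElliptic]

/-- the 2-torsion is generated by two elements -/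
theorem two_torsion_gen {x y : F} (h : Gen K k F A B x y) : ∃ e1 e2 : Pt A B k,
    e1 + e1 = 0 ∧ e2 + e2 = 0 ∧
    ∀ e : Pt A B k, e + e = 0 → e = 0 ∨ e = e1 ∨ e = e2 ∨ e = e1 + e2 := by
  by_cases h1 : ∀ e : Pt A B k, e + e = 0 → e = 0
  · exact ⟨0, 0, by simp, by simp, fun e he => Or.inl (h1 e he)⟩
  push Not at h1
  obtain ⟨e1, he1, hne1⟩ := h1
  by_cases h2 : ∀ e : Pt A B k, e + e = 0 → e = 0 ∨ e = e1
  · exact ⟨e1, 0, he1, by simp, fun e he => (h2 e he).elim Or.inl (fun h => Or.inr (Or.inl h))⟩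
  push Not at h2
  obtain ⟨e2, he2, hne2, hne2'⟩ := h2
  refine ⟨e1, e2, he1, he2, ?_⟩
  intro e he
  by_contra hcon
  push Not at hcon
  obtain ⟨c0, c1, c2, c3⟩ := hcon
  have h3 : e1 + e2 ≠ 0 := by
    intro h0
    apply hne2'
    calc e2 = (e1 + e1) + e2 := by rw [he1, zero_add]
      _ = e1 + (e1 + e2) := by abel
      _ = e1 := by rw [h0, add_zero]
  have h4 : e1 + e2 ≠ e1 := by
    intro h0
    exact hne2 (by simpa using h0)
  have h5 : e1 + e2 ≠ e2 := by
    intro h0
    exact hne1 (by simpa using h0)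
  have hcard := tors_card h (n := 2) (by norm_num) {e, 0, e1, e2, e1 + e2} (by
    intro w hw
    rw [two_smul]
    simp only [Finset.mem_insert, Finset.mem_singleton] at hw
    rcases hw with rfl | rfl | rfl | rfl | rfl
    · exact he
    · simp
    · exact he1
    · exact he2
    · calc (e1 + e2) + (e1 + e2) = (e1 + e1) + (e2 + e2) := by abel
        _ = 0 := by rw [he1, he2, add_zero])
  rw [Finset.card_insert_of_notMem (by simp [c0, c1, c2, c3]),
    Finset.card_insert_of_notMem (by simp [hne1.symm, hne2.symm, h3.symm]),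
    Finset.card_insert_of_notMem (by simp [Ne.symm hne2', h4.symm]),
    Finset.card_insert_of_notMem (by simp [h5.symm]), Finset.card_singleton] at hcard
  omega

/-- elements fixed by all translations by 2-torsion points are functions of `2P` -/
theorem mem_of_fixed (Ω : Type*) [Field Ω] [Algebra K Ω] [Algebra L Ω] [Algebra k Ω] [Algebra F Ω]
    [IsScalarTower K L Ω] [IsScalarTower K k Ω]
    [IsScalarTower K F Ω] [IsScalarTower L F Ω] [IsScalarTower k F Ω]
    [IsAlgClosed Ω] [Algebra.IsAlgebraic F Ω] (hL : Gen K K L A B x y)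
    (hF : Gen K k F A B (algebraMap L F x) (algebraMap L F y)) {X2 Y2 : L} (h2eqn : _)
    (h2 : (pt x y hL.eqn : Pt A B L) + pt x y hL.eqn = pt X2 Y2 h2eqn)
    (hX2 : Transcendental K X2)
    {z : L} (hz : ∀ e : Pt A B k, e + e = 0 → hF.tau e (algebraMap L F z) = algebraMap L F z) :
    z ∈ adjoin K {X2, Y2} := by
  by_contra hcon
  obtain ⟨σ, hσM, hσz⟩ := exists_moving Ω hL hF (adjoin K {X2, Y2})
    (subset_adjoin K _ (by simp : X2 ∈ ({X2, Y2} : Set L))) hX2 hcon
  have hσX2 : σ X2 = algebraMap L Ω X2 := hσM _ (subset_adjoin K _ (by simp))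
  have hσY2 : σ Y2 = algebraMap L Ω Y2 := hσM _ (subset_adjoin K _ (by simp))
  -- the generic point in Ω and its image under σ
  set P : Pt A B L := pt x y hL.eqn with hP
  let ι : L →ₐ[K] Ω := IsScalarTower.toAlgHom K L Ω
  have h3 : pmap σ (P + P) = (pmap ι (P + P) : Pt A B Ω) := by
    rw [h2, pmap_mk, pmap_mk, mk_inj]
    exact ⟨hσX2, hσY2⟩
  set D : Pt A B Ω := pmap σ P - pmap ι P with hD
  have hDD : D + D = 0 := by
    rw [map_add, map_add] at h3
    have : D + D = (pmap σ P + pmap σ P) - (pmap ι P + pmap ι P) := by rw [hD]; abel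
    rw [this, h3, sub_self]
  -- D is constant
  obtain ⟨e, he⟩ : ∃ e : Pt A B k, cst e = D := by
    rcases pt_cases D with h0 | ⟨X, Y, hXY, h0⟩
    · exact ⟨0, by rw [h0, map_zero]⟩
    · rw [h0]
      apply exists_cst
      apply mem_range_of_algebraic
      have hY : Y = 0 := by
        rw [h0] at hDD
        have h5 : (pt X Y hXY : Pt A B Ω) = -pt X Y hXY := eq_neg_of_add_eq_zero_left hDD
        rw [neg_mk, mk_inj] at h5
        have h6 : (2 : Ω) * Y = 0 := by linear_combination h5.2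
        exact (mul_eq_zero.mp h6).resolve_left (two_ne (K := K))
      refine ⟨cub k A B, cub_ne_zero, ?_⟩
      rw [aeval_cub, ← hXY, hY]
      ring
  have hee : e + e = 0 := by
    apply cst_injective (F := Ω)
    rw [map_add, he, hDD, map_zero]
  -- compare with the translation by e
  have h4 : pmap σ P = pmap ι P + cst e := by
    rw [he, hD]; abel
  have h5 := hF.tau_P e
  let j : F →ₐ[k] Ω := IsScalarTower.toAlgHom k F Ω
  have h6 := congrArg (pmap j) h5
  rw [map_add, pmap_cst] at h6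
  have h7 : pmap j hF.P = (pmap ι P : Pt A B Ω) := by
    rw [Gen.P, hP, pmap_mk, pmap_mk, mk_inj]
    exact ⟨(IsScalarTower.algebraMap_apply L F Ω x).symm, (IsScalarTower.algebraMap_apply L F Ω y).symm⟩
  rw [h7, ← h4, Gen.P, hP, amap_mk, pmap_mk, pmap_mk, mk_inj] at h6
  have h8 : σ = ((IsScalarTower.toAlgHom K F Ω).comp
      ((hF.tau e : F →ₐ[k] F).restrictScalars K)).comp (IsScalarTower.toAlgHom K L F) := by
    apply hL.hom_ext
    · exact h6.1.symm
    · exact h6.2.symm
  apply hσz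
  rw [h8]
  show algebraMap F Ω (hF.tau e (algebraMap L F z)) = _
  rw [hz e hee, ← IsScalarTower.algebraMap_apply]

end

end Pool.Agent.C98
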