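import Pool.Agent.C98.Fld6

/-!
The blocked case, conclusion.
-/

open IntermediateField
open scoped Classical

namespace Pool.Agent.C98

section
variable {K L k F : Type*} [Field K] [Field L] [Field k] [Field F] [CharZero K]
  [Algebra K L] [Algebra K k] [Algebra K F] [Algebra L F] [Algebra k F]
  [IsScalarTower K L F] [IsScalarTower K k F] [IsAlgClosed k] [Algebra.IsAlgebraic K k]
  {A B : K} {x y : L} [(E A B).IsElliptic]

theorem blocked (hL : Gen K K L A B x y)
    (hF : Gen K k F A B (algebraMap L F x) (algebraMap L F y)) (H : Subgroup Lˣ)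
    (hH : adjoin K ((fun u : Lˣ => (u : L)) '' H) = ⊤)
    {t : F ≃ₐ[k] F} (htT : t ∈ TT k F H) {b : Pt A B k} (htP : amap t hF.P = -hF.P + cst b)
    (hW : ∀ e : Pt A B k, e + e = 0 → hF.tau e ∈ TT k F H)
    (hTT : ∀ a ∈ TT k F H, ∃ e : Pt A B k, e + e = 0 ∧ (a = hF.tau e ∨ a = t * hF.tau e)) :
    ∃ f ∈ H, ∃ g ∈ H, Nonempty (adjoin K {(f : L), (g : L)} ≃ₐ[K] L) := by
  have hcomm := TT_comm hF hH
  -- everything has order two
  have ht2 : t ^ 2 = 1 := by
    apply hF.aut_ext
    rw [sq, amap_mul, htP, map_add, map_neg, amap_cst, htP, amap_one]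
    abel
  have htau2 : ∀ e : Pt A B k, e + e = 0 → (hF.tau e) ^ 2 = 1 := by
    intro e he
    rw [sq, ← hF.tau_add, he, hF.tau_zero]
  have hsq : ∀ a ∈ TT k F H, a ^ 2 = 1 := by
    intro a ha
    obtain ⟨e, he, rfl | rfl⟩ := hTT a ha
    · exact htau2 e he
    · have hcm : Commute t (hF.tau e) := hcomm t htT _ (hW e he)
      rw [hcm.mul_pow, ht2, htau2 e he, one_mul]
  -- `t` is not a translation
  have htne : ∀ e : Pt A B k, t ≠ hF.tau e := by
    intro e h0
    rw [h0, hF.tau_P] at htP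
    apply two_P_ne_cst hF (b - e)
    have h1 : hF.P + hF.P = (hF.P + cst e) + hF.P - cst e := by abel
    rw [h1, htP, map_sub]
    abel
  obtain ⟨e1, e2, he1, he2, hgen⟩ := two_torsion_gen hF
  have hT1 := hW e1 he1
  have hT2 := hW e2 he2
  have hT1' := htau2 e1 he1
  have hT2' := htau2 e2 he2
  -- the element f
  obtain ⟨f, hfH, hf1, hf2, hft⟩ : ∃ f ∈ H, Fix (hF.tau e1) f ∧ Fix (hF.tau e2) f ∧ ¬ Fix t f := by
    by_contra hcon
    push Not at hcon
    let H1 : Subgroup Lˣ :=
      { carrier := {h | h ∈ H ∧ Fix (hF.tau e1) h}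
        mul_mem' := fun ha hb => ⟨H.mul_mem ha.1 hb.1, ha.2.mul hb.2⟩
        one_mem' := ⟨H.one_mem, Fix.one⟩
        inv_mem' := fun ha => ⟨H.inv_mem ha.1, ha.2.inv⟩ }
    have hle : H1 ≤ H := fun h hh => hh.1
    have hne1 : ∀ a ∈ TT k F H, (∀ h ∈ H, Fix a h) → a = 1 := fun a _ h => faithful' hF hH h
    -- equality from equal fixing
    have heq : ∀ a ∈ TT k F H, ∀ c ∈ TT k F H, (∀ h ∈ H, Fix a h ↔ Fix c h) → a = c := by
      intro a ha c hc hac
      have h1 : a * c = 1 := by
        apply hne1 _ ((TT k F H).mul_mem ha hc)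
        intro h hh
        rw [sgn_a ha hc (hsq a ha) (hsq c hc) hh]
        exact hac h hh
      have h2 : c * c = 1 := by rw [← sq]; exact hsq c hc
      exact mul_right_cancel (h1.trans h2.symm)
    rcases one_step (H1 := H1) hle hT2 htT hT2' ht2
      (fun h hh h2 => hcon h hh.1 hh.2 h2) with hc1 | hc1
    · -- Fix e1 → Fix t on H
      rcases one_step (H1 := H) le_rfl hT1 htT hT1' ht2 (fun h hh h1 => hc1 h ⟨hh, h1⟩) with
        hc2 | hc2
      · apply htne 0
        rw [hF.tau_zero]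
        exact hne1 t htT hc2
      · exact htne e1 (heq _ hT1 _ htT hc2).symm
    · -- Fix e1 → Fix (e2 t) on H
      have h2t := (TT k F H).mul_mem hT2 htT
      rcases one_step (H1 := H) le_rfl hT1 h2t hT1' (hsq _ h2t) (fun h hh h1 => by
        rw [sgn_a hT2 htT hT2' ht2 hh]
        exact hc1 h ⟨hh, h1⟩) with hc2 | hc2
      · have h3 := hne1 _ h2t hc2
        apply htne e2
        have h4 : hF.tau e2 * hF.tau e2 = 1 := by rw [← sq]; exact hT2'
        exact (mul_left_cancel (h3.trans h4.symm))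
      · have h3 := heq _ hT1 _ h2t hc2
        apply htne (e2 + e1)
        rw [hF.tau_add, h3, ← mul_assoc, ← sq, hT2', one_mul]
  have hfW : ∀ e : Pt A B k, e + e = 0 → Fix (hF.tau e) f := by
    intro e he
    rcases hgen e he with rfl | rfl | rfl | rfl
    · rw [hF.tau_zero]; exact Fix.one_left
    · exact hf1
    · exact hf2
    · rw [hF.tau_add]; exact hf1.mul_left hf2
  have hftr : Transcendental K (f : L) := by
    intro halg
    apply hft
    have h1 : IsAlgebraic K (algebraMap L F (f : L)) := halg.algebraMap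
    have h2 : IsAlgebraic k (algebraMap L F (f : L)) := h1.tower_top k
    obtain ⟨c, hc⟩ := mem_range_of_algebraic h2
    unfold Fix
    rw [← hc, AlgEquiv.commutes]
  -- the point 2P
  have h2PF : ∀ c : Pt A B k, cst c ≠ hF.P + hF.P := two_P_ne_cst hF
  set P : Pt A B L := pt x y hL.eqn with hP
  have hPF : pmap (IsScalarTower.toAlgHom K L F) P = hF.P := by
    rw [hP, pmap_mk]
    rfl
  have h2P0 : P + P ≠ 0 := by
    intro h0
    apply h2PF 0
    rw [map_zero, ← hPF, ← map_add, h0, map_zero]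
  obtain ⟨X2, Y2, h2eqn, h2⟩ : ∃ X2 Y2 h, P + P = pt X2 Y2 h :=
    (pt_cases (P + P)).resolve_left h2P0
  have h2F : hF.P + hF.P = pt (algebraMap L F X2) (algebraMap L F Y2)
      (eqn_map (IsScalarTower.toAlgHom K L F) h2eqn) := by
    rw [← hPF, ← map_add, h2, pmap_mk]
    rfl
  have hX2 : Transcendental K X2 := by
    intro halg
    have h1 : IsAlgebraic K (algebraMap L F X2) := halg.algebraMap
    have h3 : IsAlgebraic k (algebraMap L F X2) := h1.tower_top k
    obtain ⟨c, hc⟩ := exists_cst (eqn_map (IsScalarTower.toAlgHom K L F) h2eqn)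
      (mem_range_of_algebraic h3)
    exact h2PF c (hc.trans h2F.symm)
  set N := adjoin K {X2, Y2} with hN
  have hXN : X2 ∈ N := subset_adjoin K _ (by simp)
  have hYN : Y2 ∈ N := subset_adjoin K _ (by simp)
  -- N is isomorphic to L
  obtain ⟨φ, hφx, hφy⟩ := hL.exists_hom h2eqn hX2
  have hNL : Nonempty (N ≃ₐ[K] L) := by
    have h3 : φ.fieldRange = N := by
      rw [AlgHom.fieldRange_eq_map, ← hL.gen, IntermediateField.adjoin_map, Set.image_pair, hφx,
        hφy]
    rw [← h3]
    exact ⟨(AlgEquiv.ofInjectiveField φ).symm⟩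
  -- functions fixed by 2-torsion translations
  have hmemN : ∀ z : L, (∀ e : Pt A B k, e + e = 0 →
      hF.tau e (algebraMap L F z) = algebraMap L F z) → z ∈ N := by
    intro z hz
    exact mem_of_fixed (AlgebraicClosure F) hL hF h2eqn h2 hX2 hz
  -- translations by 2-torsion points fix N
  have hfixN : ∀ e : Pt A B k, e + e = 0 → ∀ z ∈ N,
      hF.tau e (algebraMap L F z) = algebraMap L F z := by
    intro e he z hz
    have h3 : amap (hF.tau e) (hF.P + hF.P) = hF.P + hF.P := by
      rw [map_add, hF.tau_P]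
      have : hF.P + (cst e : Pt A B F) + (hF.P + cst e) = (hF.P + hF.P) + cst (e + e) := by
        rw [map_add]; abel
      rw [this, he, map_zero, add_zero]
    rw [h2F, amap_mk, mk_inj] at h3
    induction hz using IntermediateField.adjoin_induction with
    | mem z hz =>
      rcases hz with rfl | hz
      · exact h3.1
      · rw [Set.mem_singleton_iff] at hz
        rw [hz]
        exact h3.2
    | algebraMap c =>
      rw [← IsScalarTower.algebraMap_apply, IsScalarTower.algebraMap_apply K k F]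
      exact AlgEquiv.commutes _ _
    | add z w _ _ hz hw => rw [map_add, map_add, hz, hw]
    | inv z _ hz => rw [map_inv₀, map_inv₀, hz]
    | mul z w _ _ hz hw => rw [map_mul, map_mul, hz, hw]
  have hfN : (f : L) ∈ N := hmemN f hfW
  let H0 : Subgroup Lˣ :=
    { carrier := {h | h ∈ H ∧ ∀ a ∈ TT k F H, Fix a h}
      mul_mem' := fun ha hb => ⟨H.mul_mem ha.1 hb.1, fun a hs => (ha.2 a hs).mul (hb.2 a hs)⟩
      one_mem' := ⟨H.one_mem, fun a _ => Fix.one⟩
      inv_mem' := fun ha => ⟨H.inv_mem ha.1, fun a hs => (ha.2 a hs).inv⟩ }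
  have hH0N : ∀ h ∈ H0, (h : L) ∈ N := fun h hh => hmemN h (fun e he => hh.2 _ (hW e he))
  have hH0le : ∀ h ∈ H0, adjoin K {(f : L), ((1 * h : Lˣ) : L)} ≤ N := by
    intro h hh
    rw [adjoin_le_iff]
    rintro w (rfl | hw)
    · exact hfN
    · rw [Set.mem_singleton_iff] at hw
      rw [hw, one_mul]
      exact hH0N h hh
  have hfinM : {M : IntermediateField K L | (f : L) ∈ M}.Finite := finite_between hL hftr
  by_cases hgood : ∃ h ∈ H0, adjoin K {(f : L), ((1 * h : Lˣ) : L)} = N
  · obtain ⟨h, hh, heq⟩ := hgood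
    rw [one_mul] at heq
    refine ⟨f, hfH, h, hh.1, ?_⟩
    rw [heq]
    exact hNL
  · exfalso
    push Not at hgood
    obtain ⟨M, hfM, hMN, hMne, _, n2, hn2, hpow2⟩ := neumann H0 N (f : L) 1 hfinM hH0le hgood
    have hpow1 : ∀ h ∈ H, h ^ 2 ∈ H0 := fun h hh =>
      ⟨H.pow_mem hh _, fun a ha => fix_pow_of_dvd ha hh (hsq a ha) dvd_rfl⟩
    have hpow : ∀ h ∈ H, (h : L) ^ (2 * n2) ∈ M := by
      intro h hh
      have := hpow2 _ (hpow1 h hh)
      rwa [Units.val_pow_eq_pow_val, ← pow_mul] at this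
    obtain ⟨z, hzN, hzM⟩ : ∃ z ∈ N, z ∉ M := by
      by_contra hall
      push Not at hall
      exact hMne (le_antisymm hMN hall)
    obtain ⟨a, haT, haM, haz⟩ := embed hL hF H hH M hfM hftr (by omega) hpow hzM
    obtain ⟨e, he, rfl | rfl⟩ := hTT a haT
    · exact haz (hfixN e he z hzN)
    · have h3 : Fix (t * hF.tau e) f := haM f hfM
      rw [sgn_a htT (hW e he) ht2 (htau2 e he) hfH] at h3
      exact hft (h3.mpr (hfW e he))

/-- the main theorem for subgroups of `K(x,y)ˣ` -/
theorem main_L (hL : Gen K K L A B x y)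
    (hF : Gen K k F A B (algebraMap L F x) (algebraMap L F y)) (H : Subgroup Lˣ)
    (hH : adjoin K ((fun u : Lˣ => (u : L)) '' H) = ⊤) :
    ∃ f ∈ H, ∃ g ∈ H, Nonempty (adjoin K {(f : L), (g : L)} ≃ₐ[K] L) := by
  rcases dichotomy hF (TT k F H) (TT_comm hF hH) with hT | ⟨t, htT, ⟨b, htP⟩, hW, hTT⟩
  · obtain ⟨f, hf, g, hg, hfg⟩ := unblocked hL hF H hH hT
    refine ⟨f, hf, g, hg, ?_⟩
    rw [hfg]
    exact ⟨IntermediateField.topEquiv⟩
  · exact blocked hL hF H hH htT htP hW hTT

end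

end Pool.Agent.C98
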