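import Pool.Agent.C98.Basic

/-!
Function fields of short Weierstrass curves, abstractly: `Gen K k F A B x y` says that `F/k` is
generated by `x, y`, `x` transcendental over `k`, `y² = x³ + A x + B`.
-/

open WeierstrassCurve WeierstrassCurve.Affine Polynomial
open scoped Classical

namespace Pool.Agent.C98

/-- `F = k(x,y)` is the function field of `y² = x³ + A x + B` over `k` -/
structure Gen (K k F : Type*) [Field K] [Field k] [Field F] [Algebra K k] [Algebra k F]
    [Algebra K F] (A B : K) (x y : F) : Prop where
  eqn : y ^ 2 = x ^ 3 + algebraMap K F A * x + algebraMap K F B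
  tr : Transcendental k x
  gen : IntermediateField.adjoin k {x, y} = ⊤

/-- the cubic polynomial `X³ + A X + B` over `k` -/
noncomputable def cub {K : Type*} (k : Type*) [Field K] [Field k] [Algebra K k] (A B : K) : k[X] :=
  X ^ 3 + C (algebraMap K k A) * X + C (algebraMap K k B)

section
variable {K k F : Type*} [Field K] [Field k] [Field F] [Algebra K k] [Algebra k F]
    [Algebra K F] {A B : K} {x y : F}

theorem cub_natDegree : (cub k A B).natDegree = 3 := by
  unfold cub
  compute_degree!

theorem cub_monic : (cub k A B).Monic := by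
  unfold cub
  monicity!

theorem cub_ne_zero : cub k A B ≠ 0 := cub_monic.ne_zero

theorem aeval_cub [IsScalarTower K k F] (x : F) :
    aeval x (cub k A B) = x ^ 3 + algebraMap K F A * x + algebraMap K F B := by
  simp [cub, ← IsScalarTower.algebraMap_apply]

/-- parity: `p² = q² (X³ + A X + B)` only for `p = q = 0` -/
theorem sq_eq_sq_mul_cub {p q : k[X]} (h : p ^ 2 = q ^ 2 * cub k A B) : p = 0 ∧ q = 0 := by
  by_cases hq : q = 0
  · subst hq
    simp at h
    exact ⟨h, rfl⟩
  · exfalso
    have h1 : (p ^ 2).natDegree = (q ^ 2 * cub k A B).natDegree := by rw [h]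
    rw [natDegree_pow, natDegree_mul (pow_ne_zero 2 hq) cub_ne_zero, natDegree_pow,
      cub_natDegree] at h1
    omega

end

section
variable {K k F : Type*} [Field K] [Field k] [Field F] [Algebra K k] [Algebra k F]
    [Algebra K F] [IsScalarTower K k F] {A B : K} {x y : F}

theorem aeval_inj (htr : Transcendental k x) {p q : k[X]} (h : aeval x p = aeval x q) : p = q :=
  (transcendental_iff_injective.mp htr) h

theorem aeval_ne_zero (htr : Transcendental k x) {p : k[X]} (h : p ≠ 0) : aeval x p ≠ 0 := by
  intro h0
  exact h (aeval_inj htr (by rw [h0, map_zero]))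

/-- linear independence of `1, y` over `k[x]` -/
theorem indep (heq : y ^ 2 = x ^ 3 + algebraMap K F A * x + algebraMap K F B)
    (htr : Transcendental k x) {p q : k[X]} (h : aeval x p + aeval x q * y = 0) :
    p = 0 ∧ q = 0 := by
  apply sq_eq_sq_mul_cub (k := k) (A := A) (B := B)
  apply aeval_inj htr
  rw [map_mul, map_pow, map_pow, aeval_cub, ← heq]
  have : aeval x p = - (aeval x q * y) := by linear_combination h
  rw [this]
  ring

/-- every element of `k(x,y)` has the form `(p(x) + q(x) y) / r(x)` -/
theorem Gen.rep (h : Gen K k F A B x y) (z : F) :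
    ∃ p q r : k[X], r ≠ 0 ∧ z * aeval x r = aeval x p + aeval x q * y := by
  have hz : z ∈ IntermediateField.adjoin k {x, y} := by rw [h.gen]; trivial
  have hinv : ∀ z : F, (∃ p q r : k[X], r ≠ 0 ∧ z * aeval x r = aeval x p + aeval x q * y) →
      (∃ p q r : k[X], r ≠ 0 ∧ z⁻¹ * aeval x r = aeval x p + aeval x q * y) := by
    rintro z ⟨p, q, r, hr, hz⟩
    by_cases hz0 : z = 0
    · subst hz0
      exact ⟨0, 0, 1, one_ne_zero, by simp⟩
    · have hN : p ^ 2 - q ^ 2 * cub k A B ≠ 0 := by
        intro h0
        obtain ⟨hp, hq⟩ := sq_eq_sq_mul_cub (sub_eq_zero.mp h0)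
        rw [hp, hq] at hz
        simp at hz
        rcases hz with hz | hz
        · exact hz0 hz
        · exact aeval_ne_zero h.tr hr hz
      refine ⟨r * p, -(r * q), p ^ 2 - q ^ 2 * cub k A B, hN, ?_⟩
      rw [inv_mul_eq_iff_eq_mul₀ hz0]
      simp only [map_sub, map_mul, map_pow, map_neg, aeval_cub]
      rw [← h.eqn]
      linear_combination (-aeval x p + aeval x q * y) * hz
  induction hz using IntermediateField.adjoin_induction with
  | mem z hz =>
    rcases hz with rfl | hz
    · exact ⟨X, 0, 1, one_ne_zero, by simp⟩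
    · rw [Set.mem_singleton_iff] at hz
      subst hz
      exact ⟨0, 1, 1, one_ne_zero, by simp⟩
  | algebraMap c => exact ⟨C c, 0, 1, one_ne_zero, by simp⟩
  | add z w _ _ hz hw =>
    obtain ⟨p, q, r, hr, hz⟩ := hz
    obtain ⟨p', q', r', hr', hw⟩ := hw
    refine ⟨p * r' + p' * r, q * r' + q' * r, r * r', mul_ne_zero hr hr', ?_⟩
    simp only [map_add, map_mul]
    linear_combination aeval x r' * hz + aeval x r * hw
  | inv z _ hz => exact hinv z hz
  | mul z w _ _ hz hw =>
    obtain ⟨p, q, r, hr, hz⟩ := hz
    obtain ⟨p', q', r', hr', hw⟩ := hw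
    refine ⟨p * p' + q * q' * cub k A B, p * q' + p' * q, r * r', mul_ne_zero hr hr', ?_⟩
    simp only [map_add, map_mul, aeval_cub]
    rw [← h.eqn]
    linear_combination aeval x r' * w * hz + (aeval x p + aeval x q * y) * hw

/-- two homomorphisms out of `k(x,y)` agreeing on `x, y` are equal -/
theorem Gen.hom_ext (h : Gen K k F A B x y) {F' : Type*} [Field F'] [Algebra k F']
    {φ ψ : F →ₐ[k] F'} (hx : φ x = ψ x) (hy : φ y = ψ y) : φ = ψ := by
  ext z
  obtain ⟨p, q, r, hr, hz⟩ := h.rep z
  have hφ := congrArg φ hz
  have hψ := congrArg ψ hz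
  simp only [map_mul, map_add, ← aeval_algHom_apply, hx, hy] at hφ hψ
  have hne : aeval (ψ x) r ≠ 0 := by
    rw [aeval_algHom_apply]
    intro h0
    exact aeval_ne_zero h.tr hr ((map_eq_zero ψ).mp h0)
  exact mul_right_cancel₀ hne (hφ.trans hψ.symm)

/-- the universal property of the generic point -/
theorem Gen.exists_hom (h : Gen K k F A B x y) {F' : Type*} [Field F'] [Algebra k F']
    [Algebra K F'] [IsScalarTower K k F'] {X Y : F'}
    (heq : Y ^ 2 = X ^ 3 + algebraMap K F' A * X + algebraMap K F' B)
    (htr : Transcendental k X) : ∃ φ : F →ₐ[k] F', φ x = X ∧ φ y = Y := by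
  choose p q r hr hz using h.rep
  -- independence of the representation
  have key : ∀ (z : F) (p' q' r' : k[X]), r' ≠ 0 → z * aeval x r' = aeval x p' + aeval x q' * y →
      (aeval X (p z) + aeval X (q z) * Y) / aeval X (r z) =
      (aeval X p' + aeval X q' * Y) / aeval X r' := by
    intro z p' q' r' hr' hz'
    have h0 : aeval x (p z * r' - p' * r z) + aeval x (q z * r' - q' * r z) * y = 0 := by
      simp only [map_sub, map_mul]
      linear_combination -aeval x r' * hz z + aeval x (r z) * hz'
    obtain ⟨h1, h2⟩ := indep h.eqn h.tr h0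
    rw [div_eq_div_iff (aeval_ne_zero htr (hr z)) (aeval_ne_zero htr hr')]
    have h3 := congrArg (aeval X) h1
    have h4 := congrArg (aeval X) h2
    simp only [map_sub, map_mul, map_zero] at h3 h4
    linear_combination h3 + h4 * Y
  refine ⟨{ toFun := fun z => (aeval X (p z) + aeval X (q z) * Y) / aeval X (r z)
            map_one' := ?_
            map_mul' := ?_
            map_zero' := ?_
            map_add' := ?_
            commutes' := ?_ }, ?_, ?_⟩
  · rw [key 1 1 0 1 one_ne_zero (by simp)]
    simp
  · intro z w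
    rw [key (z * w) (p z * p w + q z * q w * cub k A B) (p z * q w + p w * q z) (r z * r w)
      (mul_ne_zero (hr z) (hr w))]
    · rw [div_mul_div_comm]
      simp only [map_add, map_mul, aeval_cub]
      rw [← heq]
      ring
    · simp only [map_add, map_mul, aeval_cub]
      rw [← h.eqn]
      linear_combination aeval x (r w) * w * hz z + (aeval x (p z) + aeval x (q z) * y) * hz w
  · show (aeval X (p 0) + aeval X (q 0) * Y) / aeval X (r 0) = 0
    rw [key 0 0 0 1 one_ne_zero (by simp)]
    simp
  · intro z w
    show (aeval X (p (z + w)) + aeval X (q (z + w)) * Y) / aeval X (r (z + w)) =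
      (aeval X (p z) + aeval X (q z) * Y) / aeval X (r z) +
      (aeval X (p w) + aeval X (q w) * Y) / aeval X (r w)
    rw [key (z + w) (p z * r w + p w * r z) (q z * r w + q w * r z) (r z * r w)
      (mul_ne_zero (hr z) (hr w))]
    · rw [div_add_div _ _ (aeval_ne_zero htr (hr z)) (aeval_ne_zero htr (hr w))]
      simp only [map_add, map_mul]
      congr 1
      ring
    · simp only [map_add, map_mul]
      linear_combination aeval x (r w) * hz z + aeval x (r z) * hz w
  · intro c
    show (aeval X (p (algebraMap k F c)) + aeval X (q (algebraMap k F c)) * Y) /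
      aeval X (r (algebraMap k F c)) = algebraMap k F' c
    rw [key (algebraMap k F c) (C c) 0 1 one_ne_zero (by simp)]
    simp
  · show (aeval X (p x) + aeval X (q x) * Y) / aeval X (r x) = X
    rw [key x Polynomial.X 0 1 one_ne_zero (by simp)]
    simp
  · show (aeval X (p y) + aeval X (q y) * Y) / aeval X (r y) = Y
    rw [key y 0 1 1 one_ne_zero (by simp)]
    simp

end

end Pool.Agent.C98
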