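import Pool.Agent.C98.Trans

/-!
Scalings `(x,y) ↦ (u²x, u³y)` with `u⁴A = A`, `u⁶B = B`.
-/

open WeierstrassCurve WeierstrassCurve.Affine Polynomial
open scoped Classical

namespace Pool.Agent.C98

/-- `u` gives an automorphism of the curve -/
structure IsSc {K k : Type*} [Field K] [Field k] [Algebra K k] (A B : K) (u : k) : Prop where
  ne : u ≠ 0
  hA : u ^ 4 * algebraMap K k A = algebraMap K k A
  hB : u ^ 6 * algebraMap K k B = algebraMap K k B

section
variable {K k F F' : Type*} [Field K] [Field k] [Field F] [Field F']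
  [Algebra K k] [Algebra k F] [Algebra k F']
  [Algebra K F] [Algebra K F'] [IsScalarTower K k F] [IsScalarTower K k F']
  {A B : K} [(E A B).IsElliptic] {u : k}

omit [(E A B).IsElliptic] in
theorem IsSc.A' (hu : IsSc A B u) :
    algebraMap k F u ^ 4 * algebraMap K F A = algebraMap K F A := by
  rw [IsScalarTower.algebraMap_apply K k F, ← map_pow, ← map_mul, hu.hA]

omit [(E A B).IsElliptic] in
theorem IsSc.B' (hu : IsSc A B u) :
    algebraMap k F u ^ 6 * algebraMap K F B = algebraMap K F B := by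
  rw [IsScalarTower.algebraMap_apply K k F, ← map_pow, ← map_mul, hu.hB]

omit [(E A B).IsElliptic] in
theorem IsSc.eqn (hu : IsSc A B u) {x y : F}
    (h : y ^ 2 = x ^ 3 + algebraMap K F A * x + algebraMap K F B) :
    (algebraMap k F u ^ 3 * y) ^ 2 = (algebraMap k F u ^ 2 * x) ^ 3 +
      algebraMap K F A * (algebraMap k F u ^ 2 * x) + algebraMap K F B := by
  have hA := hu.A' (F := F)
  have hB := hu.B' (F := F)
  linear_combination algebraMap k F u ^ 6 * h + hB + algebraMap k F u ^ 2 * x * hA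

/-- the scaling map on points -/
noncomputable def scFun (hu : IsSc A B u) : Pt A B F → Pt A B F
  | .zero => 0
  | .some x y h => pt (algebraMap k F u ^ 2 * x) (algebraMap k F u ^ 3 * y)
      (hu.eqn ((eqn_iff x y).mp h.1))

theorem scFun_zero (hu : IsSc A B u) : scFun hu (0 : Pt A B F) = 0 := rfl

theorem scFun_pt (hu : IsSc A B u) {x y : F}
    (h : y ^ 2 = x ^ 3 + algebraMap K F A * x + algebraMap K F B) :
    scFun hu (pt x y h : Pt A B F) = pt (algebraMap k F u ^ 2 * x) (algebraMap k F u ^ 3 * y)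
      (hu.eqn h) := rfl

theorem scFun_add [CharZero K] (hu : IsSc A B u) (P Q : Pt A B F) :
    scFun hu (P + Q) = scFun hu P + scFun hu Q := by
  have hA := hu.A' (F := F)
  have hU : algebraMap k F u ≠ 0 := by
    rw [Ne, map_eq_zero]; exact hu.ne
  have h2 : (2 : F) ≠ 0 := by
    haveI : CharZero F := charZero_of_injective_algebraMap (algebraMap K F).injective
    norm_num
  rcases pt_cases P with rfl | ⟨x₁, y₁, h₁, rfl⟩
  · rw [scFun_zero, zero_add, zero_add]
  rcases pt_cases Q with rfl | ⟨x₂, y₂, h₂, rfl⟩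
  · rw [scFun_zero, add_zero, add_zero]
  by_cases hx : x₁ = x₂
  · subst hx
    have hy : y₁ ^ 2 = y₂ ^ 2 := by rw [h₁, h₂]
    by_cases hy' : y₁ = -y₂
    · rw [add_eq_zero_of h₁ h₂ rfl hy', scFun_zero, scFun_pt, scFun_pt, add_eq_zero_of _ _ rfl]
      rw [hy']; ring
    · have hyy : y₁ = y₂ := by
        rcases sq_eq_sq_iff_eq_or_eq_neg.mp hy with h | h
        · exact h
        · exact absurd h hy'
      subst hyy
      have hy0 : y₁ ≠ 0 := by
        intro h0
        apply hy'
        rw [h0, neg_zero]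
      rw [add_self' h2 h₁ hy0, scFun_pt, scFun_pt,
        add_self' h2 _ (mul_ne_zero (pow_ne_zero 3 hU) hy0), mk_inj]
      have e : (3 * (algebraMap k F u ^ 2 * x₁) ^ 2 + algebraMap K F A) /
          (2 * (algebraMap k F u ^ 3 * y₁)) =
          algebraMap k F u * ((3 * x₁ ^ 2 + algebraMap K F A) / (2 * y₁)) := by
        rw [mul_div_assoc', div_eq_div_iff (mul_ne_zero h2 (mul_ne_zero (pow_ne_zero 3 hU) hy0))
          (mul_ne_zero h2 hy0)]
        linear_combination (-2 * y₁) * hA
      rw [e]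
      constructor <;> ring
  · rw [add_of_ne h₁ h₂ hx, scFun_pt, scFun_pt, scFun_pt,
        add_of_ne _ _ (fun h => hx (mul_left_cancel₀ (pow_ne_zero 2 hU) h)), mk_inj]
    have hx' : x₁ - x₂ ≠ 0 := sub_ne_zero.mpr hx
    have e : (algebraMap k F u ^ 3 * y₁ - algebraMap k F u ^ 3 * y₂) /
        (algebraMap k F u ^ 2 * x₁ - algebraMap k F u ^ 2 * x₂) =
        algebraMap k F u * ((y₁ - y₂) / (x₁ - x₂)) := by
      rw [mul_div_assoc', div_eq_div_iff _ hx']
      · ring
      · rw [← mul_sub]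
        exact mul_ne_zero (pow_ne_zero 2 hU) hx'
    rw [e]
    constructor <;> ring

/-- scaling as a homomorphism -/
noncomputable def sc [CharZero K] (hu : IsSc A B u) : Pt A B F →+ Pt A B F where
  toFun := scFun hu
  map_zero' := scFun_zero hu
  map_add' := scFun_add hu

variable [CharZero K]

theorem sc_pt (hu : IsSc A B u) {x y : F}
    (h : y ^ 2 = x ^ 3 + algebraMap K F A * x + algebraMap K F B) :
    sc hu (pt x y h : Pt A B F) = pt (algebraMap k F u ^ 2 * x) (algebraMap k F u ^ 3 * y)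
      (hu.eqn h) := rfl

theorem sc_cst (hu : IsSc A B u) (b : Pt A B k) :
    sc hu (cst b : Pt A B F) = cst (sc hu b) := by
  rcases pt_cases b with rfl | ⟨c, d, h, rfl⟩
  · simp
  · rw [cst_mk, sc_pt, sc_pt, cst_mk, mk_inj]
    simp

theorem pmap_sc (hu : IsSc A B u) (φ : F →ₐ[k] F') (P : Pt A B F) :
    pmap φ (sc hu P) = sc hu (pmap φ P) := by
  rcases pt_cases P with rfl | ⟨c, d, h, rfl⟩
  · simp
  · rw [sc_pt, pmap_mk, pmap_mk, sc_pt, mk_inj]
    simp

theorem amap_sc (hu : IsSc A B u) (a : F ≃ₐ[k] F) (P : Pt A B F) :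
    amap a (sc hu P) = sc hu (amap a P) := pmap_sc hu _ P

theorem IsSc.one : IsSc A B (1 : k) := ⟨one_ne_zero, by ring, by ring⟩

theorem IsSc.neg_one : IsSc A B (-1 : k) := ⟨by simp, by ring, by ring⟩

theorem IsSc.mul {u w : k} (hu : IsSc A B u) (hw : IsSc A B w) : IsSc A B (u * w) :=
  ⟨mul_ne_zero hu.ne hw.ne, by linear_combination u ^ 4 * hw.hA + hu.hA,
    by linear_combination u ^ 6 * hw.hB + hu.hB⟩

theorem sc_one (P : Pt A B F) : sc (IsSc.one : IsSc A B (1 : k)) P = P := by
  rcases pt_cases P with rfl | ⟨c, d, h, rfl⟩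
  · simp
  · rw [sc_pt, mk_inj]
    simp

theorem sc_neg_one (P : Pt A B F) : sc (IsSc.neg_one : IsSc A B (-1 : k)) P = -P := by
  rcases pt_cases P with rfl | ⟨c, d, h, rfl⟩
  · simp
  · rw [sc_pt, neg_mk, mk_inj, map_neg, map_one]
    constructor <;> ring

theorem sc_mul {u w : k} (hu : IsSc A B u) (hw : IsSc A B w) (P : Pt A B F) :
    sc (hu.mul hw) P = sc hu (sc hw P) := by
  rcases pt_cases P with rfl | ⟨c, d, h, rfl⟩
  · simp
  · rw [sc_pt, sc_pt, sc_pt, mk_inj]
    simp only [map_mul]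
    constructor <;> ring

end

end Pool.Agent.C98
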