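import Pool.Agent.C98.Class3

/-!
Multiples of the generic point; the bound `n²` for the number of `n`-torsion points.
-/

open WeierstrassCurve WeierstrassCurve.Affine Polynomial
open scoped Classical

namespace Pool.Agent.C98

section
variable {K k F : Type*} [Field K] [Field k] [Field F]
  [Algebra K k] [Algebra k F] [Algebra K F] [IsScalarTower K k F]
  {A B : K} [(E A B).IsElliptic] [IsAlgClosed k] {x y : F}

/-- a point whose image is constant is constant -/
theorem cst_of_pmap {φ : F →ₐ[k] F} {S : Pt A B F} {b : Pt A B k} (h : cst b = pmap φ S) :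
    ∃ c : Pt A B k, cst c = S := by
  refine ⟨b, ?_⟩
  apply pmap_injective φ
  rw [pmap_cst, h]

/-- there is a point of order two -/
theorem exists_two_torsion [CharZero K] : ∃ e : Pt A B k, e ≠ 0 ∧ e + e = 0 := by
  obtain ⟨r, hr⟩ := IsAlgClosed.exists_root (cub k A B) (by
    rw [degree_eq_natDegree cub_ne_zero, cub_natDegree]; norm_num)
  have h0 : (0 : k) ^ 2 = r ^ 3 + algebraMap K k A * r + algebraMap K k B := by
    have := IsRoot.def.mp hr
    simp only [cub, eval_add, eval_mul, eval_pow, eval_X, eval_C] at this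
    rw [this]; ring
  exact ⟨pt r 0 h0, mk_ne_zero _, add_eq_zero_of _ _ rfl (by rw [neg_zero])⟩

theorem two_P_ne_cst [CharZero K] (h : Gen K k F A B x y) (b : Pt A B k) :
    cst b ≠ h.P + h.P := by
  intro hb
  have h2 : (2 : F) ≠ 0 := two_ne (K := K)
  have hy : y ≠ 0 := by
    intro h0
    have h1 : aeval x (cub k A B) = 0 := by rw [aeval_cub, ← h.eqn, h0]; ring
    exact aeval_ne_zero h.tr cub_ne_zero h1
  rw [Gen.P, add_self' h2 h.eqn hy] at hb
  rcases pt_cases b with rfl | ⟨c, d, hcd, rfl⟩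
  · rw [map_zero] at hb
    exact mk_ne_zero _ hb.symm
  · rw [cst_mk, mk_inj] at hb
    have h1 := hb.1
    have h3 : (3 * x ^ 2 + algebraMap K F A) ^ 2 - (x + x) * (4 * y ^ 2) =
        algebraMap k F c * (4 * y ^ 2) := by
      rw [h1]
      field_simp
      ring
    rw [h.eqn] at h3
    have h4 : aeval x (X ^ 4 - 2 * C (algebraMap K k A) * X ^ 2 - 8 * C (algebraMap K k B) * X
        + C (algebraMap K k A) ^ 2 - 4 * C c * cub k A B : k[X]) = 0 := by
      simp only [map_add, map_sub, map_mul, map_pow, aeval_C, aeval_X, map_ofNat, aeval_cub]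
      rw [← IsScalarTower.algebraMap_apply, ← IsScalarTower.algebraMap_apply]
      linear_combination h3
    have h5 := aeval_inj h.tr (h4.trans (map_zero _).symm)
    have h6 := congrArg (fun p => coeff p 4) h5
    have e2 : (2 : k[X]) = C 2 := (map_ofNat C 2).symm
    have e4 : (4 : k[X]) = C 4 := (map_ofNat C 4).symm
    have e8 : (8 : k[X]) = C 8 := (map_ofNat C 8).symm
    rw [e2, e4, e8, ← C_pow] at h6
    simp [cub, mul_assoc, coeff_C] at h6
    rw [← C_pow, coeff_C_ne_zero (by norm_num)] at h6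
    simp at h6

/-- (Z) the multiples of the generic point are not constant -/
theorem nsmul_P_ne_cst [CharZero K] (h : Gen K k F A B x y) {n : ℕ} (hn : 1 ≤ n)
    (b : Pt A B k) : cst b ≠ n • h.P := by
  intro hb
  -- minimal n
  have hex : ∃ n : ℕ, 1 ≤ n ∧ ∃ b : Pt A B k, cst b = n • h.P := ⟨n, hn, b, hb⟩
  obtain ⟨hm1, b', hb'⟩ := Nat.find_spec hex
  set m := Nat.find hex with hm
  have hmin : ∀ j : ℕ, 1 ≤ j → j < m → ∀ b : Pt A B k, cst b ≠ j • h.P := by
    intro j hj1 hj2 c hc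
    exact Nat.find_min hex hj2 ⟨hj1, c, hc⟩
  have hmne1 : m ≠ 1 := by
    intro h1
    rw [h1, one_smul] at hb'
    exact h.P_ne_cst b' hb'
  obtain ⟨p, hp, j, hj⟩ := Nat.exists_prime_and_dvd hmne1
  have hj0 : 1 ≤ j := by
    rcases Nat.eq_zero_or_pos j with h0 | h0
    · rw [h0, mul_zero] at hj; omega
    · exact h0
  have hjm : j < m := by
    rw [hj]
    have := hp.two_le
    nlinarith
  obtain ⟨φ, hφ⟩ := h.exists_hom' (hmin j hj0 hjm)
  have h1 : cst b' = pmap φ (p • h.P) := by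
    rw [map_nsmul, hφ, hb', hj, mul_smul]
  obtain ⟨c, hc⟩ := cst_of_pmap h1
  rcases hp.eq_two_or_odd' with rfl | hodd
  · rw [two_smul] at hc
    exact two_P_ne_cst h c hc
  · obtain ⟨e, he0, he⟩ := exists_two_torsion (k := k) (A := A) (B := B)
    have h2 := congrArg (amap (h.tau e)) hc
    rw [amap_cst, map_nsmul, h.tau_P, smul_add, ← map_nsmul, ← hc] at h2
    have h3 : cst (p • e) = (0 : Pt A B F) := by
      have := h2.symm
      rwa [add_eq_left] at this
    rw [← map_zero (cst : Pt A B k →+ Pt A B F)] at h3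
    have h4 := cst_injective h3
    obtain ⟨t, ht⟩ := hodd
    rw [ht, add_smul, one_smul, mul_comm, mul_smul, two_smul, he, smul_zero, zero_add] at h4
    exact he0 h4


theorem reduce_frac {k : Type*} [Field k] (g r : k[X]) (hr : r ≠ 0) :
    ∃ d g' r' : k[X], d ≠ 0 ∧ g = d * g' ∧ r = d * r' ∧ r' ≠ 0 ∧ IsCoprime g' r' := by
  have hd : EuclideanDomain.gcd g r ≠ 0 := fun h0 => hr (EuclideanDomain.gcd_eq_zero_iff.mp h0).2
  obtain ⟨g', hg'⟩ := EuclideanDomain.gcd_dvd_left g r
  obtain ⟨r', hr'⟩ := EuclideanDomain.gcd_dvd_right g r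
  refine ⟨EuclideanDomain.gcd g r, g', r', hd, hg', hr', ?_, ?_⟩
  · intro h0
    rw [h0, mul_zero] at hr'
    exact hr hr'
  · set d := EuclideanDomain.gcd g r with hd'
    have := EuclideanDomain.gcd_eq_gcd_ab g r
    rw [← hd'] at this
    refine ⟨EuclideanDomain.gcdA g r, EuclideanDomain.gcdB g r, ?_⟩
    apply mul_left_cancel₀ hd
    calc d * (EuclideanDomain.gcdA g r * g' + EuclideanDomain.gcdB g r * r') =
        (d * g') * EuclideanDomain.gcdA g r + (d * r') * EuclideanDomain.gcdB g r := by ring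
      _ = d * 1 := by rw [← hg', ← hr', mul_one, ← this]

/-- the sum and product of `x(R+S)` and `x(R-S)` -/
theorem x_add_sub {X₁ Y₁ X₂ Y₂ : F}
    (h₁ : Y₁ ^ 2 = X₁ ^ 3 + algebraMap K F A * X₁ + algebraMap K F B)
    (h₂ : Y₂ ^ 2 = X₂ ^ 3 + algebraMap K F A * X₂ + algebraMap K F B) (hx : X₁ ≠ X₂) :
    ((((Y₁ - Y₂) / (X₁ - X₂)) ^ 2 - X₁ - X₂) + (((Y₁ + Y₂) / (X₁ - X₂)) ^ 2 - X₁ - X₂)) *
      (X₁ - X₂) ^ 2 = 2 * ((X₁ + X₂) * (X₁ * X₂ + algebraMap K F A) + 2 * algebraMap K F B) ∧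
    ((((Y₁ - Y₂) / (X₁ - X₂)) ^ 2 - X₁ - X₂) * (((Y₁ + Y₂) / (X₁ - X₂)) ^ 2 - X₁ - X₂)) *
      (X₁ - X₂) ^ 2 = (X₁ * X₂ - algebraMap K F A) ^ 2 - 4 * algebraMap K F B * (X₁ + X₂) := by
  have hD : X₁ - X₂ ≠ 0 := sub_ne_zero.mpr hx
  set a := algebraMap K F A
  set b := algebraMap K F B
  set D := X₁ - X₂ with hDdef
  constructor
  · rw [div_pow, div_pow]
    field_simp
    rw [hDdef]
    linear_combination 2 * h₁ + 2 * h₂
  · have e : ((((Y₁ - Y₂) / D) ^ 2 - X₁ - X₂) * (((Y₁ + Y₂) / D) ^ 2 - X₁ - X₂)) * D ^ 2 * D ^ 2 =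
      (Y₁ ^ 2 - Y₂ ^ 2) ^ 2 - 2 * (X₁ + X₂) * D ^ 2 * (Y₁ ^ 2 + Y₂ ^ 2) +
        (X₁ + X₂) ^ 2 * D ^ 4 := by
      rw [div_pow, div_pow]
      field_simp
      ring
    apply mul_right_cancel₀ (pow_ne_zero 2 hD)
    rw [e, h₁, h₂, hDdef]
    ring

/-- `Q` has `x`-coordinate `a(x)/b(x)` with `deg a ≤ N`, `deg b < N` -/
def HasX (K k F : Type*) [Field K] [Field k] [Field F]
    [Algebra K k] [Algebra k F] [Algebra K F] {A B : K} [(E A B).IsElliptic] (x : F)
    (Q : Pt A B F) (N : ℕ) : Prop :=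
  ∃ (X Y : F) (hXY : _) (a b : k[X]), Q = pt X Y hXY ∧ b ≠ 0 ∧
      X * aeval x b = aeval x a ∧ a.natDegree ≤ N ∧ b.natDegree + 1 ≤ N

theorem double_x [CharZero K] (htr : Transcendental k x) {Q : Pt A B F} {N : ℕ}
    (hQ : HasX K k F x Q N) (hQ2 : Q + Q ≠ 0) : HasX K k F x (Q + Q) (4 * N) := by
  have h2 : (2 : F) ≠ 0 := two_ne (K := K)
  obtain ⟨X, Y, hXY, a, b, rfl, hb, hab, hda, hdb⟩ := hQ
  have hY : Y ≠ 0 := by
    intro h0
    apply hQ2
    rw [add_eq_zero_of _ _ rfl (by rw [h0, neg_zero])]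
  set α := C (algebraMap K k A) with hα
  set β := C (algebraMap K k B) with hβ
  have hαx : aeval x α = algebraMap K F A := by
    rw [hα, aeval_C, ← IsScalarTower.algebraMap_apply]
  have hβx : aeval x β = algebraMap K F B := by
    rw [hβ, aeval_C, ← IsScalarTower.algebraMap_apply]
  have hbx := aeval_ne_zero htr hb
  have hden : aeval x (4 * b * (a ^ 3 + α * a * b ^ 2 + β * b ^ 3)) =
      4 * (aeval x b) ^ 4 * Y ^ 2 := by
    simp only [map_mul, map_add, map_pow, map_ofNat, hαx, hβx]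
    rw [← hab, hXY]
    ring
  have e2 : (2 : k[X]) = C 2 := (map_ofNat C 2).symm
  have e4 : (4 : k[X]) = C 4 := (map_ofNat C 4).symm
  have e8 : (8 : k[X]) = C 8 := (map_ofNat C 8).symm
  have hdb' : b.natDegree ≤ N := by omega
  refine ⟨_, _, _, a ^ 4 - 2 * α * a ^ 2 * b ^ 2 - 8 * β * a * b ^ 3 + α ^ 2 * b ^ 4,
    4 * b * (a ^ 3 + α * a * b ^ 2 + β * b ^ 3), add_self' h2 hXY hY, ?_, ?_, ?_, ?_⟩
  · intro h0
    rw [h0, map_zero] at hden
    have h4 : (4 : F) ≠ 0 := by
      have : (4 : F) = 2 * 2 := by norm_num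
      rw [this]; exact mul_ne_zero h2 h2
    exact (mul_ne_zero (mul_ne_zero h4 (pow_ne_zero 4 hbx)) (pow_ne_zero 2 hY)) hden.symm
  · rw [hden]
    simp only [map_mul, map_add, map_sub, map_pow, map_ofNat, hαx, hβx]
    rw [← hab]
    have e : (((3 * X ^ 2 + algebraMap K F A) / (2 * Y)) ^ 2 - X - X) *
        (4 * (aeval x b) ^ 4 * Y ^ 2) =
        ((3 * X ^ 2 + algebraMap K F A) ^ 2 - 8 * X * Y ^ 2) * (aeval x b) ^ 4 := by
      field_simp
      ring
    rw [e, hXY]
    ring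
  · have t1 : (a ^ 4).natDegree ≤ 4 * N := by
      refine (natDegree_pow_le_of_le 4 hda).trans (by omega)
    have t2 : (2 * α * a ^ 2 * b ^ 2).natDegree ≤ 4 * N := by
      rw [e2, hα, ← C_mul, mul_assoc]
      refine (natDegree_C_mul_le _ _).trans ?_
      refine (natDegree_mul_le_of_le (natDegree_pow_le_of_le 2 hda)
        (natDegree_pow_le_of_le 2 hdb')).trans (by omega)
    have t3 : (8 * β * a * b ^ 3).natDegree ≤ 4 * N := by
      rw [e8, hβ, ← C_mul, mul_assoc]
      refine (natDegree_C_mul_le _ _).trans ?_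
      refine (natDegree_mul_le_of_le hda
        (natDegree_pow_le_of_le 3 hdb')).trans (by omega)
    have t4 : (α ^ 2 * b ^ 4).natDegree ≤ 4 * N := by
      rw [hα, ← C_pow]
      refine (natDegree_C_mul_le _ _).trans ?_
      exact (natDegree_pow_le_of_le 4 hdb').trans (by omega)
    exact natDegree_add_le_of_degree_le ((natDegree_sub_le_of_le
      (natDegree_sub_le_of_le t1 t2) t3).trans (by simp)) t4
  · have t1 : (a ^ 3).natDegree ≤ 3 * N := natDegree_pow_le_of_le 3 hda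
    have t2 : (α * a * b ^ 2).natDegree ≤ 3 * N := by
      rw [hα, mul_assoc]
      refine (natDegree_C_mul_le _ _).trans ?_
      refine (natDegree_mul_le_of_le hda (natDegree_pow_le_of_le 2 hdb')).trans (by omega)
    have t3 : (β * b ^ 3).natDegree ≤ 3 * N := by
      rw [hβ]
      exact (natDegree_C_mul_le _ _).trans (natDegree_pow_le_of_le 3 hdb')
    have t4 := natDegree_add_le_of_degree_le (natDegree_add_le_of_degree_le t1 t2) t3
    have t5 : (4 * b * (a ^ 3 + α * a * b ^ 2 + β * b ^ 3)).natDegree ≤ b.natDegree + 3 * N := by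
      rw [e4, mul_assoc]
      exact (natDegree_C_mul_le _ _).trans (natDegree_mul_le_of_le le_rfl t4)
    omega

theorem addsub_x [CharZero K] (h : Gen K k F A B x y) {Q R : Pt A B F} {N M : ℕ}
    (hQ : HasX K k F x Q N) (hR : HasX K k F x R M) (hQR : Q ≠ R) (hQR' : Q + R ≠ 0)
    (hsub : Q - R = h.P) : HasX K k F x (Q + R) (2 * N + 2 * M - 1) := by
  have h2 : (2 : F) ≠ 0 := two_ne (K := K)
  have htr := h.tr
  obtain ⟨X₁, Y₁, h₁, a₁, b₁, rfl, hb₁, hab₁, hda₁, hdb₁⟩ := hQ
  obtain ⟨X₂, Y₂, h₂, a₂, b₂, rfl, hb₂, hab₂, hda₂, hdb₂⟩ := hR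
  have hne : X₁ ≠ X₂ := by
    rintro rfl
    have hy : Y₁ ^ 2 = Y₂ ^ 2 := by rw [h₁, h₂]
    rcases sq_eq_sq_iff_eq_or_eq_neg.mp hy with hy | hy
    · apply hQR
      rw [mk_inj]
      exact ⟨rfl, hy⟩
    · exact hQR' (add_eq_zero_of _ _ rfl hy)
  have hD : X₁ - X₂ ≠ 0 := sub_ne_zero.mpr hne
  have hsub' : ((Y₁ + Y₂) / (X₁ - X₂)) ^ 2 - X₁ - X₂ = x := by
    rw [sub_eq_add_neg, neg_mk, add_of_ne _ _ hne, Gen.P, mk_inj, sub_neg_eq_add] at hsub
    exact hsub.1
  obtain ⟨hs, hp⟩ := x_add_sub h₁ h₂ hne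
  rw [hsub'] at hs hp
  set X₃ := ((Y₁ - Y₂) / (X₁ - X₂)) ^ 2 - X₁ - X₂ with hX₃
  set α := C (algebraMap K k A) with hα
  set β := C (algebraMap K k B) with hβ
  have hαx : aeval x α = algebraMap K F A := by
    rw [hα, aeval_C, ← IsScalarTower.algebraMap_apply]
  have hβx : aeval x β = algebraMap K F B := by
    rw [hβ, aeval_C, ← IsScalarTower.algebraMap_apply]
  have hb1x := aeval_ne_zero htr hb₁
  have hb2x := aeval_ne_zero htr hb₂
  have e2 : (2 : k[X]) = C 2 := (map_ofNat C 2).symm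
  have e4 : (4 : k[X]) = C 4 := (map_ofNat C 4).symm
  set u : k[X] := (a₁ * b₂ - a₂ * b₁) ^ 2 with hu
  set vv : k[X] := 2 * ((a₁ * b₂ + a₂ * b₁) * (a₁ * a₂ + α * (b₁ * b₂)) +
    2 * β * (b₁ * b₂) ^ 2) with hvv
  set w : k[X] := (a₁ * a₂ - α * (b₁ * b₂)) ^ 2 -
    4 * β * ((a₁ * b₂ + a₂ * b₁) * (b₁ * b₂)) with hw
  have hux : aeval x u = (X₁ - X₂) ^ 2 * (aeval x b₁ * aeval x b₂) ^ 2 := by
    rw [hu]
    simp only [map_pow, map_sub, map_mul]
    rw [← hab₁, ← hab₂]
    ring
  have hvx : aeval x vv = (X₃ + x) * aeval x u := by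
    rw [hux, hvv]
    simp only [map_pow, map_sub, map_mul, map_add, map_ofNat, hαx, hβx]
    rw [← hab₁, ← hab₂]
    linear_combination (-(aeval x b₁ * aeval x b₂) ^ 2) * hs
  have hwx : aeval x w = (X₃ * x) * aeval x u := by
    rw [hux, hw]
    simp only [map_pow, map_sub, map_mul, map_add, map_ofNat, hαx, hβx]
    rw [← hab₁, ← hab₂]
    linear_combination (-(aeval x b₁ * aeval x b₂) ^ 2) * hp
  have hux0 : aeval x u ≠ 0 := by
    rw [hux]
    exact mul_ne_zero (pow_ne_zero 2 hD) (pow_ne_zero 2 (mul_ne_zero hb1x hb2x))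
  have hu0 : u ≠ 0 := by
    rintro h0
    rw [h0, map_zero] at hux0
    exact hux0 rfl
  have hx0 : x ≠ 0 := by
    intro h0
    apply htr
    rw [h0]
    exact isAlgebraic_zero
  -- lowest terms
  obtain ⟨d, g, r, hd, hg, hr, hr0, hcop⟩ := reduce_frac w (X * u) (mul_ne_zero X_ne_zero hu0)
  have hdx := aeval_ne_zero htr hd
  have hrx := aeval_ne_zero htr hr0
  have hX₃r : X₃ * aeval x r = aeval x g := by
    have t1 := congrArg (aeval x) hg
    have t2 := congrArg (aeval x) hr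
    simp only [map_mul, aeval_X] at t1 t2
    apply mul_left_cancel₀ hdx
    rw [← t1, hwx]
    linear_combination (-X₃) * t2
  have p1 : g * (X * u) = w * r := by
    apply aeval_inj htr
    simp only [map_mul, aeval_X]
    rw [hwx, ← hX₃r]
    ring
  have p2 : (g + X * r) * u = vv * r := by
    apply aeval_inj htr
    simp only [map_mul, map_add, aeval_X]
    rw [hvx, ← hX₃r]
    ring
  have hru : r ∣ u := by
    have t1 : r ∣ g * u := by
      have : g * u = r * (vv - X * u) := by linear_combination p2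
      exact ⟨_, this⟩
    exact hcop.symm.dvd_of_dvd_mul_left t1
  obtain ⟨s, hs'⟩ := hru
  have hs0 : s ≠ 0 := by
    rintro rfl
    rw [mul_zero] at hs'
    exact hu0 hs'
  have p3 : g * (X * s) = w := by
    apply mul_left_cancel₀ hr0
    rw [hs'] at p1
    linear_combination p1
  -- degree bounds
  have dN : 1 ≤ N := by omega
  have dM : 1 ≤ M := by omega
  have ddu : u.natDegree ≤ 2 * (N + M - 1) := by
    rw [hu]
    apply natDegree_pow_le_of_le
    refine (natDegree_sub_le_of_le (m := N + M - 1) (n := N + M - 1) ?_ ?_).trans (by simp)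
    · exact natDegree_mul_le.trans (by omega)
    · exact natDegree_mul_le.trans (by omega)
  have ddw : w.natDegree ≤ 2 * (N + M) := by
    rw [hw]
    refine (natDegree_sub_le_of_le (m := 2 * (N + M)) (n := 2 * (N + M)) ?_ ?_).trans (by simp)
    · apply natDegree_pow_le_of_le
      refine (natDegree_sub_le_of_le (m := N + M) (n := N + M) ?_ ?_).trans (by simp)
      · exact natDegree_mul_le.trans (by omega)
      · rw [hα]
        refine (natDegree_C_mul_le _ _).trans ?_
        exact natDegree_mul_le.trans (by omega)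
    · rw [e4, hβ, ← C_mul]
      refine (natDegree_C_mul_le _ _).trans ?_
      refine (natDegree_mul_le_of_le (m := N + M) (n := N + M) ?_ ?_).trans (by omega)
      · refine natDegree_add_le_of_degree_le ?_ ?_
        · exact natDegree_mul_le.trans (by omega)
        · exact natDegree_mul_le.trans (by omega)
      · exact natDegree_mul_le.trans (by omega)
  have ddr : r.natDegree ≤ u.natDegree := by
    rw [hs', natDegree_mul hr0 hs0]
    omega
  refine ⟨X₃, _, _, g, r, add_of_ne h₁ h₂ hne, hr0, hX₃r, ?_, ?_⟩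
  · by_cases hg0 : g = 0
    · rw [hg0, natDegree_zero]; omega
    · have t1 : w.natDegree = g.natDegree + (1 + s.natDegree) := by
        rw [← p3, natDegree_mul hg0 (mul_ne_zero X_ne_zero hs0), natDegree_mul X_ne_zero hs0,
          natDegree_X]
      omega
  · omega

/-- (D) the `x`-coordinate of `nP` is a rational function of `x` of degree at most `n²` -/
theorem nsmul_P_x [CharZero K] (h : Gen K k F A B x y) (n : ℕ) (hn : 1 ≤ n) :
    HasX K k F x (n • h.P) (n ^ 2) := by
  induction n using Nat.strong_induction_on with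
  | _ n ih =>
  have hne0 : ∀ m : ℕ, 1 ≤ m → m • h.P ≠ 0 := fun m hm h0 =>
    nsmul_P_ne_cst h hm 0 (by rw [map_zero, h0])
  rcases Nat.even_or_odd' n with ⟨m, hm | hm⟩
  · have hm1 : 1 ≤ m := by omega
    have h2n : n • h.P = m • h.P + m • h.P := by rw [hm, two_mul, add_smul]
    have := double_x h.tr (ih m (by omega) hm1) (by rw [← h2n]; exact hne0 n hn)
    rw [h2n, hm]
    convert this using 1
    ring
  · rcases Nat.eq_zero_or_pos m with hm0 | hm0
    · rw [hm, hm0]
      refine ⟨x, y, h.eqn, X, 1, ?_, one_ne_zero, ?_, ?_, ?_⟩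
      · simp [Gen.P]
      · simp
      · simp
      · simp
    · have h2n : n • h.P = (m + 1) • h.P + m • h.P := by rw [hm, ← add_smul]; congr 1; ring
      have hsub : (m + 1) • h.P - m • h.P = h.P := by rw [add_smul, one_smul]; abel
      have := addsub_x h (ih (m + 1) (by omega) (by omega)) (ih m (by omega) hm0)
        (by
          intro h0
          rw [h0, sub_self] at hsub
          exact mk_ne_zero _ hsub.symm)
        (by rw [← h2n]; exact hne0 n hn) hsub
      rw [h2n, hm]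
      convert this using 1
      have : 2 * (m + 1) ^ 2 + 2 * m ^ 2 = (2 * m + 1) ^ 2 + 1 := by ring
      omega

end

end Pool.Agent.C98
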