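import Pool.Agent.C98.Tors

/-!
The bound `n²` for the number of `n`-torsion points; fixed points of scalings.
-/

open WeierstrassCurve WeierstrassCurve.Affine Polynomial
open scoped Classical

namespace Pool.Agent.C98

section
variable {K k F : Type*} [Field K] [Field k] [Field F]
  [Algebra K k] [Algebra k F] [Algebra K F] [IsScalarTower K k F]
  {A B : K} [(E A B).IsElliptic] [IsAlgClosed k] {x y : F}

/-- at most `n²` points of order dividing `n` -/
theorem tors_card [CharZero K] (h : Gen K k F A B x y) {n : ℕ} (hn : 1 ≤ n)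
    (V : Finset (Pt A B k)) (hV : ∀ e ∈ V, n • e = 0) : V.card ≤ n ^ 2 := by
  obtain ⟨X, Y, hXY, a, b, hP, hb, hab, hda, hdb⟩ := nsmul_P_x h n hn
  have hXc : X ∉ Set.range (algebraMap k F) := by
    intro hX
    obtain ⟨c, hc⟩ := exists_cst hXY hX
    exact nsmul_P_ne_cst h hn c (hc.trans hP.symm)
  set G : F[X] := a.map (algebraMap k F) - C X * b.map (algebraMap k F) with hG
  have hG0 : G ≠ 0 := by
    intro h0
    apply hXc
    have hlc : b.coeff b.natDegree ≠ 0 := by
      rw [coeff_natDegree]; exact leadingCoeff_ne_zero.mpr hb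
    have h1 := congrArg (fun p => coeff p b.natDegree) h0
    simp only [hG, coeff_sub, coeff_map, coeff_C_mul, coeff_zero] at h1
    refine ⟨a.coeff b.natDegree / b.coeff b.natDegree, ?_⟩
    rw [map_div₀, div_eq_iff (by rwa [Ne, map_eq_zero])]
    linear_combination h1
  have hGdeg : G.natDegree ≤ n ^ 2 := by
    refine (natDegree_sub_le_of_le (m := n ^ 2) (n := n ^ 2) ?_ ?_).trans (by simp)
    · exact natDegree_map_le.trans hda
    · refine (natDegree_C_mul_le _ _).trans ?_
      exact natDegree_map_le.trans (by omega)
  have hXfix : ∀ e ∈ V, h.tau e X = X := by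
    intro e he
    have h1 : amap (h.tau e) (n • h.P) = n • h.P := by
      rw [map_nsmul, h.tau_P, smul_add, ← map_nsmul, hV e he, map_zero, add_zero]
    rw [hP, amap_mk, mk_inj] at h1
    exact h1.1
  have hroot : ∀ e ∈ V, G.IsRoot (h.tau e x) := by
    intro e he
    rw [IsRoot.def, hG, eval_sub, eval_mul, eval_C, eval_map_algebraMap, eval_map_algebraMap,
      ← aut_aeval, ← aut_aeval, ← hab, map_mul, hXfix e he]
    ring
  have hinj : Set.InjOn (fun e => h.tau e x) V := by
    intro e _ e' _ hee
    have h1 := h.tau_P e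
    have h2 := h.tau_P e'
    have h3 : amap (h.tau e) h.P = pt (h.tau e x) (h.tau e y) (aut_eqn h _) := rfl
    have h4 : amap (h.tau e') h.P = pt (h.tau e' x) (h.tau e' y) (aut_eqn h _) := rfl
    have hxx : h.tau e x = h.tau e' x := hee
    have hyy : (h.tau e y) ^ 2 = (h.tau e' y) ^ 2 := by
      rw [aut_eqn h, aut_eqn h, hxx]
    rcases sq_eq_sq_iff_eq_or_eq_neg.mp hyy with hy | hy
    · have h5 : h.P + (cst e : Pt A B F) = h.P + cst e' := by
        rw [← h1, ← h2, h3, h4, mk_inj]
        exact ⟨hxx, hy⟩
      exact cst_injective (add_left_cancel h5)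
    · exfalso
      have h5 : h.P + (cst e : Pt A B F) = -(h.P + cst e') := by
        rw [← h1, ← h2, h3, h4, neg_mk, mk_inj]
        exact ⟨hxx, hy⟩
      apply two_P_ne_cst h (-(e + e'))
      rw [map_neg, map_add, neg_eq_iff_add_eq_zero]
      have h6 : h.P + (cst e : Pt A B F) + (h.P + cst e') = 0 := by
        rw [h5]; abel
      rw [← h6]
      abel
  calc V.card = (V.image (fun e => h.tau e x)).card := (Finset.card_image_of_injOn hinj).symm
    _ ≤ G.roots.toFinset.card := by
        apply Finset.card_le_card
        intro z hz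
        rw [Finset.mem_image] at hz
        obtain ⟨e, he, rfl⟩ := hz
        rw [Multiset.mem_toFinset, mem_roots hG0]
        exact hroot e he
    _ ≤ Multiset.card G.roots := Multiset.toFinset_card_le _
    _ ≤ G.natDegree := card_roots' G
    _ ≤ n ^ 2 := hGdeg

omit [Algebra k F] [Algebra K F] [IsScalarTower K k F] [IsAlgClosed k] [Field F] in
/-- a scaling `u` with `u² ≠ 1` has at most three fixed points -/
theorem sc_fix_card [CharZero K] {u : k} (hu : IsSc A B u) (hu2 : u ^ 2 ≠ 1)
    (V : Finset (Pt A B k)) (hV : ∀ e ∈ V, sc hu e = e) : V.card ≤ 3 := by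
  have key : ∀ e ∈ V, e = 0 ∨ ∃ d hd, e = pt 0 d hd := by
    intro e he
    rcases pt_cases e with rfl | ⟨c, d, hcd, rfl⟩
    · exact Or.inl rfl
    · right
      have h1 := hV _ he
      rw [sc_pt, mk_inj] at h1
      have h2 := h1.1
      rw [Algebra.algebraMap_self, RingHom.id_apply] at h2
      have h3 : (u ^ 2 - 1) * c = 0 := by linear_combination h2
      have h4 : c = 0 := (mul_eq_zero.mp h3).resolve_left (sub_ne_zero.mpr hu2)
      subst h4
      exact ⟨d, hcd, rfl⟩
  -- map to k: coordinates
  let f : Pt A B k → Option k := fun e => match e with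
    | .zero => none
    | .some _ y _ => some y
  have hf0 : f (0 : Pt A B k) = none := rfl
  have hfpt : ∀ (c d : k) h, f (pt c d h : Pt A B k) = some d := fun _ _ _ => rfl
  have hinj : Set.InjOn f V := by
    intro e he e' he' hee
    rcases key e he with rfl | ⟨d, hd, rfl⟩ <;> rcases key e' he' with rfl | ⟨d', hd', rfl⟩
    · rfl
    · rw [hf0, hfpt] at hee; exact absurd hee (by simp)
    · rw [hf0, hfpt] at hee; exact absurd hee (by simp)
    · rw [hfpt, hfpt] at hee
      have : d = d' := by simpa using hee
      subst this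
      rfl
  have hroots : ((X : k[X]) ^ 2 - C (algebraMap K k B)) ≠ 0 := (monic_X_pow_sub_C _ (by norm_num)).ne_zero
  calc V.card = (V.image f).card := (Finset.card_image_of_injOn hinj).symm
    _ ≤ (insert none (((X : k[X]) ^ 2 - C (algebraMap K k B)).roots.toFinset.image some)).card := by
        apply Finset.card_le_card
        intro z hz
        rw [Finset.mem_image] at hz
        obtain ⟨e, he, rfl⟩ := hz
        rcases key e he with rfl | ⟨d, hd, rfl⟩
        · rw [hf0]; exact Finset.mem_insert_self _ _
        · rw [hfpt]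
          apply Finset.mem_insert_of_mem
          apply Finset.mem_image_of_mem
          rw [Multiset.mem_toFinset, mem_roots hroots, IsRoot.def, eval_sub, eval_pow, eval_X,
            eval_C, hd]
          ring
    _ ≤ 3 := by
        refine (Finset.card_insert_le _ _).trans ?_
        have h1 := Finset.card_image_le (s := ((X : k[X]) ^ 2 -
          C (algebraMap K k B)).roots.toFinset) (f := some)
        have h2 := Multiset.toFinset_card_le ((X : k[X]) ^ 2 - C (algebraMap K k B)).roots
        have h3 := card_roots' ((X : k[X]) ^ 2 - C (algebraMap K k B))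
        rw [natDegree_X_pow_sub_C] at h3
        omega

end

end Pool.Agent.C98
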