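import Pool.Agent.C98.Val

/-!
Points over `k(x,y)`, constant points, translations.
-/

open WeierstrassCurve WeierstrassCurve.Affine Polynomial
open scoped Classical

namespace Pool.Agent.C98

section
variable {K k F F' F'' : Type*} [Field K] [Field k] [Field F] [Field F'] [Field F'']
  [Algebra K k] [Algebra k F] [Algebra k F'] [Algebra k F'']
  [Algebra K F] [Algebra K F'] [Algebra K F''] [IsScalarTower K k F] [IsScalarTower K k F']
  [IsScalarTower K k F''] {A B : K}

/-- functoriality of points -/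
noncomputable def pmap (φ : F →ₐ[k] F') : Pt A B F →+ Pt A B F' := Point.map φ

/-- constant points -/
noncomputable def cst : Pt A B k →+ Pt A B F := Point.map (Algebra.ofId k F)

variable [(E A B).IsElliptic]

theorem eqn_map (φ : F →ₐ[k] F') {x y : F}
    (h : y ^ 2 = x ^ 3 + algebraMap K F A * x + algebraMap K F B) :
    (φ y) ^ 2 = (φ x) ^ 3 + algebraMap K F' A * φ x + algebraMap K F' B := by
  have := congrArg φ h
  simp only [map_pow, map_add, map_mul] at this
  rw [IsScalarTower.algebraMap_apply K k F A, IsScalarTower.algebraMap_apply K k F B,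
    φ.commutes, φ.commutes, ← IsScalarTower.algebraMap_apply,
    ← IsScalarTower.algebraMap_apply] at this
  exact this

theorem pmap_mk (φ : F →ₐ[k] F') {x y : F}
    (h : y ^ 2 = x ^ 3 + algebraMap K F A * x + algebraMap K F B) :
    pmap φ (pt x y h : Pt A B F) = pt (φ x) (φ y) (eqn_map φ h) := rfl

theorem eqn_cst {x y : k} (h : y ^ 2 = x ^ 3 + algebraMap K k A * x + algebraMap K k B) :
    (algebraMap k F y) ^ 2 = (algebraMap k F x) ^ 3 + algebraMap K F A * algebraMap k F x +
      algebraMap K F B := eqn_map (Algebra.ofId k F) h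

theorem cst_mk {x y : k} (h : y ^ 2 = x ^ 3 + algebraMap K k A * x + algebraMap K k B) :
    cst (pt x y h : Pt A B k) = (pt (algebraMap k F x) (algebraMap k F y) (eqn_cst h) :
      Pt A B F) := rfl

theorem pmap_cst (φ : F →ₐ[k] F') (b : Pt A B k) : pmap φ (cst b) = cst b := by
  rcases pt_cases b with rfl | ⟨c, d, h, rfl⟩
  · simp
  · rw [cst_mk, cst_mk, pmap_mk, mk_inj]
    exact ⟨φ.commutes c, φ.commutes d⟩

theorem pmap_comp (ψ : F' →ₐ[k] F'') (φ : F →ₐ[k] F') (P : Pt A B F) :
    pmap (ψ.comp φ) P = pmap ψ (pmap φ P) := by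
  rcases pt_cases P with rfl | ⟨c, d, h, rfl⟩
  · simp
  · rfl

theorem pmap_id (P : Pt A B F) : pmap (AlgHom.id k F) P = P := by
  rcases pt_cases P with rfl | ⟨c, d, h, rfl⟩
  · simp
  · rfl

theorem pmap_injective (φ : F →ₐ[k] F') : Function.Injective (pmap φ : Pt A B F → Pt A B F') :=
  Point.map_injective φ

theorem cst_injective : Function.Injective (cst : Pt A B k → Pt A B F) :=
  Point.map_injective _

variable [IsAlgClosed k]

omit [Algebra K F] [IsScalarTower K k F] [(E A B).IsElliptic] [Algebra K k] in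
theorem mem_range_of_algebraic {X : F} (h : IsAlgebraic k X) : X ∈ Set.range (algebraMap k F) := by
  have h1 := minpoly.irreducible h.isIntegral
  have h2 := IsAlgClosed.degree_eq_one_of_irreducible k h1
  exact minpoly.mem_range_of_degree_eq_one k X h2

omit [Algebra K F] [IsScalarTower K k F] [(E A B).IsElliptic] [Algebra K k] in
theorem transcendental_of_not_mem {X : F} (h : X ∉ Set.range (algebraMap k F)) :
    Transcendental k X := fun h' => h (mem_range_of_algebraic h')

/-- a point with constant `x`-coordinate is constant -/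
theorem exists_cst {X Y : F} (h : Y ^ 2 = X ^ 3 + algebraMap K F A * X + algebraMap K F B)
    (hX : X ∈ Set.range (algebraMap k F)) : ∃ b : Pt A B k, cst b = (pt X Y h : Pt A B F) := by
  obtain ⟨c, rfl⟩ := hX
  obtain ⟨d, hd⟩ := IsAlgClosed.exists_pow_nat_eq (c ^ 3 + algebraMap K k A * c + algebraMap K k B)
    (n := 2) (by norm_num)
  have h1 : Y ^ 2 = (algebraMap k F d) ^ 2 := by
    rw [h, ← map_pow (algebraMap k F) d, hd]
    simp only [map_add, map_mul, map_pow, ← IsScalarTower.algebraMap_apply]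
  rcases sq_eq_sq_iff_eq_or_eq_neg.mp h1 with h2 | h2
  · exact ⟨pt c d hd, by rw [cst_mk, mk_inj]; exact ⟨rfl, h2.symm⟩⟩
  · exact ⟨pt c (-d) (by rw [neg_sq, hd]), by rw [cst_mk, mk_inj, map_neg]; exact ⟨rfl, h2.symm⟩⟩

/-- a non-constant point has transcendental `x`-coordinate -/
theorem tr_of_not_cst {X Y : F} (h : Y ^ 2 = X ^ 3 + algebraMap K F A * X + algebraMap K F B)
    (hn : ∀ b : Pt A B k, cst b ≠ (pt X Y h : Pt A B F)) : Transcendental k X := by
  apply transcendental_of_not_mem
  intro hX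
  obtain ⟨b, hb⟩ := exists_cst h hX
  exact hn b hb

end

section
variable {K k F F' : Type*} [Field K] [Field k] [Field F] [Field F']
  [Algebra K k] [Algebra k F] [Algebra k F']
  [Algebra K F] [Algebra K F'] [IsScalarTower K k F] [IsScalarTower K k F']
  {A B : K} [(E A B).IsElliptic] [IsAlgClosed k] {x y : F}

/-- the generic point -/
def Gen.P (h : Gen K k F A B x y) : Pt A B F := pt x y h.eqn

theorem Gen.P_ne_cst (h : Gen K k F A B x y) (b : Pt A B k) : cst b ≠ h.P := by
  intro hb
  rcases pt_cases b with rfl | ⟨c, d, h', rfl⟩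
  · rw [map_zero] at hb
    exact mk_ne_zero _ hb.symm
  · rw [cst_mk, Gen.P, mk_inj] at hb
    apply h.tr
    rw [← hb.1]
    exact isAlgebraic_algebraMap c

/-- a homomorphism out of `k(x,y)` is determined by the image of the generic point -/
theorem Gen.hom_ext' (h : Gen K k F A B x y) {φ ψ : F →ₐ[k] F'}
    (hP : (pmap φ h.P : Pt A B F') = pmap ψ h.P) : φ = ψ := by
  rw [Gen.P, pmap_mk, pmap_mk, mk_inj] at hP
  exact h.hom_ext hP.1 hP.2

theorem Gen.exists_hom' (h : Gen K k F A B x y) {R : Pt A B F'}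
    (hR : ∀ b : Pt A B k, cst b ≠ R) : ∃ φ : F →ₐ[k] F', pmap φ h.P = R := by
  rcases pt_cases R with rfl | ⟨X, Y, hXY, rfl⟩
  · exact absurd (map_zero _) (hR 0)
  · obtain ⟨φ, hx, hy⟩ := h.exists_hom hXY (tr_of_not_cst hXY hR)
    refine ⟨φ, ?_⟩
    rw [Gen.P, pmap_mk, mk_inj]
    exact ⟨hx, hy⟩

theorem Gen.exists_trans (h : Gen K k F A B x y) (b : Pt A B k) :
    ∃ φ : F →ₐ[k] F, pmap φ h.P = h.P + cst b := by
  apply h.exists_hom'
  intro c hc
  apply h.P_ne_cst (c - b)
  rw [map_sub, hc]
  abel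

/-- translation by a constant point, as a homomorphism -/
noncomputable def Gen.tau0 (h : Gen K k F A B x y) (b : Pt A B k) : F →ₐ[k] F :=
  (h.exists_trans b).choose

theorem Gen.tau0_P (h : Gen K k F A B x y) (b : Pt A B k) :
    pmap (h.tau0 b) h.P = h.P + cst b := (h.exists_trans b).choose_spec

theorem Gen.tau0_comp (h : Gen K k F A B x y) (b c : Pt A B k) :
    (h.tau0 b).comp (h.tau0 c) = h.tau0 (b + c) := by
  apply h.hom_ext'
  rw [pmap_comp, h.tau0_P, map_add, pmap_cst, h.tau0_P, h.tau0_P, map_add, add_assoc]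

theorem Gen.tau0_zero (h : Gen K k F A B x y) : h.tau0 0 = AlgHom.id k F := by
  apply h.hom_ext'
  rw [h.tau0_P, pmap_id, map_zero, add_zero]

/-- translation by a constant point, as an automorphism -/
noncomputable def Gen.tau (h : Gen K k F A B x y) (b : Pt A B k) : F ≃ₐ[k] F :=
  AlgEquiv.ofAlgHom (h.tau0 b) (h.tau0 (-b))
    (by rw [h.tau0_comp, add_neg_cancel, h.tau0_zero])
    (by rw [h.tau0_comp, neg_add_cancel, h.tau0_zero])

/-- the action of automorphisms on points -/
noncomputable def amap (a : F ≃ₐ[k] F) : Pt A B F →+ Pt A B F := pmap (a : F →ₐ[k] F)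

theorem amap_mul (a b : F ≃ₐ[k] F) (P : Pt A B F) : amap (a * b) P = amap a (amap b P) :=
  pmap_comp (a : F →ₐ[k] F) (b : F →ₐ[k] F) P

theorem amap_one (P : Pt A B F) : amap (1 : F ≃ₐ[k] F) P = P := pmap_id P

theorem amap_cst (a : F ≃ₐ[k] F) (b : Pt A B k) : amap a (cst b) = cst b := pmap_cst _ b

theorem amap_mk (a : F ≃ₐ[k] F) {x y : F}
    (h : y ^ 2 = x ^ 3 + algebraMap K F A * x + algebraMap K F B) :
    amap a (pt x y h : Pt A B F) = pt (a x) (a y) (eqn_map (a : F →ₐ[k] F) h) := rfl

theorem Gen.aut_ext (h : Gen K k F A B x y) {a b : F ≃ₐ[k] F}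
    (hP : amap a h.P = amap b h.P) : a = b := by
  have := h.hom_ext' (φ := (a : F →ₐ[k] F)) (ψ := (b : F →ₐ[k] F)) hP
  ext z
  exact DFunLike.congr_fun this z

theorem Gen.tau_P (h : Gen K k F A B x y) (b : Pt A B k) :
    amap (h.tau b) h.P = h.P + cst b := h.tau0_P b

theorem Gen.tau_add (h : Gen K k F A B x y) (b c : Pt A B k) :
    h.tau (b + c) = h.tau b * h.tau c := by
  apply h.aut_ext
  rw [amap_mul, h.tau_P, h.tau_P, map_add, map_add, amap_cst, h.tau_P, add_assoc]

theorem Gen.tau_zero (h : Gen K k F A B x y) : h.tau 0 = 1 := by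
  apply h.aut_ext
  rw [h.tau_P, amap_one, map_zero, add_zero]

theorem Gen.tau_inj (h : Gen K k F A B x y) {b c : Pt A B k} (hbc : h.tau b = h.tau c) :
    b = c := by
  have := congrArg (fun a => amap a h.P) hbc
  simp only [h.tau_P] at this
  exact cst_injective (add_left_cancel this)

theorem Gen.tau_neg (h : Gen K k F A B x y) (b : Pt A B k) : h.tau (-b) = (h.tau b)⁻¹ := by
  rw [eq_inv_iff_mul_eq_one, ← h.tau_add, neg_add_cancel, h.tau_zero]

theorem Gen.tau_nsmul (h : Gen K k F A B x y) (n : ℕ) (b : Pt A B k) :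
    h.tau (n • b) = h.tau b ^ n := by
  induction n with
  | zero => rw [zero_smul, h.tau_zero, pow_zero]
  | succ n ih => rw [succ_nsmul, h.tau_add, ih, pow_succ]

/-- explicit formula for a translation -/
theorem Gen.tau_x (h : Gen K k F A B x y) {c d : k}
    (hb : d ^ 2 = c ^ 3 + algebraMap K k A * c + algebraMap K k B) :
    h.tau (pt c d hb) x =
      ((y - algebraMap k F d) / (x - algebraMap k F c)) ^ 2 - x - algebraMap k F c := by
  have h1 := h.tau_P (pt c d hb)
  have hne : x ≠ algebraMap k F c := by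
    intro h0
    apply h.tr
    rw [h0]
    exact isAlgebraic_algebraMap c
  rw [cst_mk, Gen.P, amap_mk, add_of_ne _ _ hne, mk_inj] at h1
  exact h1.1

/-- the residue of `x(P + b)` at infinity is `x(b)` -/
theorem Gen.val_tau_x (h : Gen K k F A B x y) {v : Valuation F Zm} (hv : IsVal k x y v) {c d : k}
    (hb : d ^ 2 = c ^ 3 + algebraMap K k A * c + algebraMap K k B) :
    v (h.tau (pt c d hb) x - algebraMap k F c) < 1 := by
  have hne : x - algebraMap k F c ≠ 0 := by
    intro h0
    apply h.tr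
    rw [sub_eq_zero.mp h0]
    exact isAlgebraic_algebraMap c
  have hb' : (algebraMap k F d) ^ 2 = (algebraMap k F c) ^ 3 + algebraMap K F A * algebraMap k F c
    + algebraMap K F B := eqn_cst hb
  have heq := h.eqn
  have hvx : v (x - algebraMap k F c) = WithZero.exp 2 := by
    rw [sub_eq_add_neg, vadd_l, hv.vx]
    rw [Valuation.map_neg]
    exact (vc_le hv.vc c).trans_lt hv.one_lt
  rw [h.tau_x]
  have e : ((y - algebraMap k F d) / (x - algebraMap k F c)) ^ 2 - x - algebraMap k F c -
      algebraMap k F c = (algebraMap k F (algebraMap K k A + 3 * c ^ 2) * x +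
        (algebraMap k F (algebraMap K k B + d ^ 2 - 2 * c ^ 3) +
        algebraMap k F (-2 * d) * y)) / (x - algebraMap k F c) ^ 2 := by
    rw [eq_div_iff (pow_ne_zero 2 hne)]
    simp only [map_add, map_sub, map_mul, map_pow, map_neg, map_ofNat,
      ← IsScalarTower.algebraMap_apply]
    rw [div_pow]
    field_simp
    linear_combination heq
  rw [e, map_div₀, map_pow, hvx, ← WithZero.exp_nsmul, div_lt_one₀ (by
    exact zero_lt_iff.mpr WithZero.exp_ne_zero)]
  have h1 : v (algebraMap k F (algebraMap K k A + 3 * c ^ 2) * x) ≤ WithZero.exp 2 := by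
    rw [map_mul, hv.vx]
    exact mul_le_of_le_one_left zero_le (vc_le hv.vc _)
  have h2 : v (algebraMap k F (algebraMap K k B + d ^ 2 - 2 * c ^ 3)) ≤ 1 := vc_le hv.vc _
  have h3 : v (algebraMap k F (-2 * d) * y) ≤ WithZero.exp 3 := by
    rw [map_mul, hv.vy]
    exact mul_le_of_le_one_left zero_le (vc_le hv.vc _)
  have h4 : (WithZero.exp 3 : Zm) < WithZero.exp (2 • 2) := WithZero.exp_lt_exp.mpr (by norm_num)
  have h5 : (WithZero.exp 2 : Zm) < WithZero.exp 3 := WithZero.exp_lt_exp.mpr (by norm_num)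
  have h6 : (1 : Zm) < WithZero.exp 3 := by
    rw [← WithZero.exp_zero]; exact WithZero.exp_lt_exp.mpr (by norm_num)
  refine ((v.map_add _ _).trans (max_le ?_ ?_)).trans_lt h4
  · exact h1.trans h5.le
  · exact (v.map_add _ _).trans (max_le (h2.trans h6.le) h3)

end

end Pool.Agent.C98
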