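import Pool.Agent.C98.FFld

/-!
The valuation at infinity of `k(x,y)`.
-/

open WeierstrassCurve WeierstrassCurve.Affine Polynomial
open scoped Classical

namespace Pool.Agent.C98

/-- abbreviation for the value group -/
abbrev Zm : Type := WithZero (Multiplicative ℤ)

/-- `v` is (a candidate for) the valuation at infinity -/
structure IsVal (k : Type*) {F : Type*} [Field k] [Field F] [Algebra k F] (x y : F)
    (v : Valuation F Zm) : Prop where
  vx : v x = WithZero.exp 2
  vy : v y = WithZero.exp 3
  vc : ∀ c : k, c ≠ 0 → v (algebraMap k F c) = 1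

section
variable {K k F : Type*} [Field K] [Field k] [Field F] [Algebra K k] [Algebra k F]
    [Algebra K F] [IsScalarTower K k F] {A B : K} {x y : F} {v : Valuation F Zm}

theorem vadd_l {a b : F} (h : v b < v a) : v (a + b) = v a := by
  exact Valuation.map_add_eq_of_lt_left v h

theorem vadd_r {a b : F} (h : v a < v b) : v (a + b) = v b := by
  rw [add_comm]; exact Valuation.map_add_eq_of_lt_left v h

theorem vc_le (hc : ∀ c : k, c ≠ 0 → v (algebraMap k F c) = 1) (c : k) :
    v (algebraMap k F c) ≤ 1 := by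
  by_cases h : c = 0
  · simp [h]
  · rw [hc c h]

theorem vc_lt (hc : ∀ c : k, c ≠ 0 → v (algebraMap k F c) = 1) {c : k}
    (h : v (algebraMap k F c) < 1) : c = 0 := by
  by_contra h0
  rw [hc c h0] at h
  exact lt_irrefl _ h

/-- polynomials in an element with a pole -/
theorem val_aeval (hc : ∀ c : k, c ≠ 0 → v (algebraMap k F c) = 1) {X : F} (hX : 1 < v X)
    {p : k[X]} (hp : p ≠ 0) : v (aeval X p) = v X ^ p.natDegree := by
  induction hn : p.natDegree generalizing p with
  | zero =>
    rw [natDegree_eq_zero] at hn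
    obtain ⟨c, rfl⟩ := hn
    rw [aeval_C, pow_zero]
    exact hc c (by simpa using hp)
  | succ n ih =>
    have h1 := p.X_mul_divX_add
    have h2 : p.divX.natDegree = n := by rw [natDegree_divX_eq_natDegree_tsub_one, hn]; rfl
    have h3 : p.divX ≠ 0 := by
      intro h0
      rw [h0, mul_zero, zero_add] at h1
      rw [← h1, natDegree_C] at hn
      omega
    have h4 := ih h3 h2
    rw [← h1, map_add, map_mul, aeval_X, aeval_C]
    have h5 : v (X * aeval X p.divX) = v X ^ (n + 1) := by
      rw [map_mul, h4, pow_succ, mul_comm]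
    have h6 : 1 < v X ^ (n + 1) := one_lt_pow₀ hX (by omega)
    rw [vadd_l, h5]
    rw [h5]
    exact (vc_le hc _).trans_lt h6

/-- polynomials in an element which is finite -/
theorem val_aeval_le (hc : ∀ c : k, c ≠ 0 → v (algebraMap k F c) = 1) {X : F} (hX : v X ≤ 1)
    (p : k[X]) : v (aeval X p) ≤ 1 := by
  induction p using Polynomial.induction_on with
  | C a => rw [aeval_C]; exact vc_le hc a
  | add p q hp hq => rw [map_add]; exact (v.map_add _ _).trans (max_le hp hq)
  | monomial n a _ =>
    rw [map_mul, aeval_C, map_pow, aeval_X, map_mul, map_pow]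
    exact mul_le_one' (vc_le hc a) (pow_le_one' hX _)

theorem val_le_one_of_sub_lt (hc : ∀ c : k, c ≠ 0 → v (algebraMap k F c) = 1) {X : F} {c : k}
    (hX : v (X - algebraMap k F c) < 1) : v X ≤ 1 := by
  have : X = (X - algebraMap k F c) + algebraMap k F c := by ring
  rw [this]
  exact (v.map_add _ _).trans (max_le hX.le (vc_le hc c))

/-- evaluating polynomials at an element with residue `c` -/
theorem val_aeval_sub (hc : ∀ c : k, c ≠ 0 → v (algebraMap k F c) = 1) {X : F} {c : k}
    (hX : v (X - algebraMap k F c) < 1) (p : k[X]) :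
    v (aeval X p - algebraMap k F (p.eval c)) < 1 := by
  have h1 : (Polynomial.X - C c) ∣ p - C (p.eval c) := by
    rw [dvd_iff_isRoot]
    simp [IsRoot]
  obtain ⟨q, hq⟩ := h1
  have h2 := congrArg (aeval X) hq
  simp only [map_sub, map_mul, aeval_C, aeval_X] at h2
  rw [h2, map_mul]
  exact mul_lt_one_of_lt_of_le hX (val_aeval_le hc (val_le_one_of_sub_lt hc hX) q)

/-- evaluating polynomials at an element with residue `c` which is not a root -/
theorem val_aeval_eq_one (hc : ∀ c : k, c ≠ 0 → v (algebraMap k F c) = 1) {X : F} {c : k}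
    (hX : v (X - algebraMap k F c) < 1) {p : k[X]} (hp : p.eval c ≠ 0) :
    v (aeval X p) = 1 := by
  have h1 := val_aeval_sub hc hX p
  have : aeval X p = algebraMap k F (p.eval c) + (aeval X p - algebraMap k F (p.eval c)) := by ring
  rw [this, vadd_l (by rwa [hc _ hp]), hc _ hp]

theorem sq_inj {a b : Zm} (h : a ^ 2 = b ^ 2) : a = b :=
  (pow_left_inj₀ zero_le zero_le two_ne_zero).mp h

/-- the degree (pole order at infinity) of `p + q y` -/
noncomputable def nd (p q : k[X]) : ℕ :=
  if p = 0 then 2 * q.natDegree + 3 else if q = 0 then 2 * p.natDegree else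
    max (2 * p.natDegree) (2 * q.natDegree + 3)

/-- if `X` has a pole then so has `Y`, of order 3/2 that of `X` -/
theorem val_Y (hc : ∀ c : k, c ≠ 0 → v (algebraMap k F c) = 1) {X Y : F} (hX : 1 < v X)
    (heq : Y ^ 2 = X ^ 3 + algebraMap K F A * X + algebraMap K F B) : v Y ^ 2 = v X ^ 3 := by
  rw [← map_pow, heq, ← aeval_cub (k := k), val_aeval hc hX cub_ne_zero, cub_natDegree]

theorem val_pq (hc : ∀ c : k, c ≠ 0 → v (algebraMap k F c) = 1) {X Y : F} (hX : 1 < v X)
    (heq : Y ^ 2 = X ^ 3 + algebraMap K F A * X + algebraMap K F B) {p q : k[X]}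
    (h : p ≠ 0 ∨ q ≠ 0) : v (aeval X p + aeval X q * Y) ^ 2 = v X ^ nd p q := by
  have hY := val_Y hc hX heq
  have hX0 : v X ≠ 0 := (zero_lt_one.trans hX).ne'
  unfold nd
  by_cases hp : p = 0
  · subst hp
    have hq : q ≠ 0 := by simpa using h
    rw [if_pos rfl, map_zero, zero_add, map_mul, mul_pow, hY, val_aeval hc hX hq, ← pow_mul,
      ← pow_add, mul_comm]
  · by_cases hq : q = 0
    · subst hq
      rw [if_neg hp, if_pos rfl, map_zero, zero_mul, add_zero, val_aeval hc hX hp, ← pow_mul,
        mul_comm]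
    · rw [if_neg hp, if_neg hq]
      have h1 : v (aeval X p) ^ 2 = v X ^ (2 * p.natDegree) := by
        rw [val_aeval hc hX hp, ← pow_mul, mul_comm]
      have h2 : v (aeval X q * Y) ^ 2 = v X ^ (2 * q.natDegree + 3) := by
        rw [map_mul, mul_pow, hY, val_aeval hc hX hq, ← pow_mul, ← pow_add, mul_comm]
      have hmono : StrictMono (fun n : ℕ => v X ^ n) := pow_right_strictMono₀ hX
      rcases lt_or_ge (2 * p.natDegree) (2 * q.natDegree + 3) with hlt | hge
      · rw [max_eq_right hlt.le, ← h2]
        have h3 : v (aeval X p) < v (aeval X q * Y) := by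
          apply lt_of_pow_lt_pow_left₀ 2 zero_le
          rw [h1, h2]
          exact hmono hlt
        rw [vadd_r h3]
      · have hgt : 2 * q.natDegree + 3 < 2 * p.natDegree := by omega
        rw [max_eq_left hgt.le, ← h1]
        have h3 : v (aeval X q * Y) < v (aeval X p) := by
          apply lt_of_pow_lt_pow_left₀ 2 zero_le
          rw [h1, h2]
          exact hmono hgt
        rw [vadd_l h3]

theorem IsVal.one_lt (hv : IsVal k x y v) : 1 < v x := by
  rw [hv.vx, ← WithZero.exp_zero]
  exact WithZero.exp_lt_exp.mpr (by norm_num)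

/-- the value of `p + q y` -/
theorem IsVal.val_pq (hv : IsVal k x y v)
    (heq : y ^ 2 = x ^ 3 + algebraMap K F A * x + algebraMap K F B) {p q : k[X]}
    (h : p ≠ 0 ∨ q ≠ 0) : v (aeval x p + aeval x q * y) = WithZero.exp (nd p q : ℤ) := by
  have h1 := C98.val_pq (A := A) (B := B) hv.vc hv.one_lt heq h
  apply sq_inj
  rw [h1, hv.vx, ← WithZero.exp_nsmul, ← WithZero.exp_nsmul]
  congr 1
  simp only [nsmul_eq_mul]
  push_cast
  ring

theorem IsVal.val_p (hv : IsVal k x y v) {p : k[X]} (h : p ≠ 0) :
    v (aeval x p) = WithZero.exp (2 * p.natDegree : ℤ) := by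
  rw [val_aeval hv.vc hv.one_lt h, hv.vx, ← WithZero.exp_nsmul]
  congr 1
  simp only [nsmul_eq_mul]
  ring

/-- residues -/
theorem IsVal.exists_residue (hv : IsVal k x y v) (h : Gen K k F A B x y) (z : F)
    (hz : v z ≤ 1) : ∃ c : k, v (z - algebraMap k F c) < 1 := by
  obtain ⟨p, q, r, hr, hzr⟩ := h.rep z
  have hr1 := hv.val_p hr
  have hr0 : v (aeval x r) ≠ 0 := by rw [hr1]; exact WithZero.exp_ne_zero
  rcases hz.lt_or_eq with hz | hz
  · exact ⟨0, by simpa using hz⟩
  -- v z = 1
  have hpq : p ≠ 0 ∨ q ≠ 0 := by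
    by_contra hcon
    push Not at hcon
    rw [hcon.1, hcon.2] at hzr
    have := congrArg v hzr
    rw [map_mul, hz, one_mul] at this
    simp at this
    exact hr0 ((map_eq_zero v).mpr this)
  have h1 := congrArg v hzr
  rw [map_mul, hz, one_mul, hr1, hv.val_pq h.eqn hpq] at h1
  have h2 : 2 * r.natDegree = nd p q := by
    have := WithZero.exp_injective h1
    exact_mod_cast this
  have hp : p ≠ 0 := by
    intro hp
    unfold nd at h2
    rw [if_pos hp] at h2
    omega
  -- the degree of q is small
  have h3 : r.natDegree = p.natDegree ∧ (q ≠ 0 → 2 * q.natDegree + 3 < 2 * r.natDegree) := by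
    unfold nd at h2
    rw [if_neg hp] at h2
    split_ifs at h2 with hq
    · exact ⟨by omega, fun h => absurd hq h⟩
    · omega
  refine ⟨p.leadingCoeff / r.leadingCoeff, ?_⟩
  have hl : p.leadingCoeff / r.leadingCoeff ≠ 0 :=
    div_ne_zero (leadingCoeff_ne_zero.mpr hp) (leadingCoeff_ne_zero.mpr hr)
  set c := p.leadingCoeff / r.leadingCoeff with hcdef
  have h4 : (z - algebraMap k F c) * aeval x r = aeval x (p - C c * r) + aeval x q * y := by
    rw [sub_mul, hzr]
    simp only [map_sub, map_mul, aeval_C]
    ring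
  have h5 : v (aeval x (p - C c * r)) < v (aeval x r) := by
    by_cases h0 : p - C c * r = 0
    · rw [h0, map_zero, map_zero]
      exact zero_lt_iff.mpr hr0
    · rw [hv.val_p h0, hr1]
      apply WithZero.exp_lt_exp.mpr
      have hCr : (C c * r).natDegree = r.natDegree := natDegree_C_mul hl
      have hlt : (p - C c * r).degree < p.degree := by
        apply degree_sub_lt_left
        · rw [degree_eq_natDegree hp, degree_eq_natDegree (mul_ne_zero (C_ne_zero.mpr hl) hr),
            hCr, h3.1]
        · exact hp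
        · rw [leadingCoeff_mul, leadingCoeff_C, hcdef,
            div_mul_cancel₀ _ (leadingCoeff_ne_zero.mpr hr)]
      have := natDegree_lt_natDegree h0 hlt
      have h31 := h3.1
      omega
  have h6 : v (aeval x q * y) < v (aeval x r) := by
    by_cases hq : q = 0
    · rw [hq, map_zero, zero_mul, map_zero]
      exact zero_lt_iff.mpr hr0
    · rw [map_mul, hv.val_p hq, hr1, hv.vy, ← WithZero.exp_add]
      apply WithZero.exp_lt_exp.mpr
      have := h3.2 hq
      omega
  have h7 : v (z - algebraMap k F c) * v (aeval x r) < v (aeval x r) := by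
    rw [← map_mul, h4]
    exact (v.map_add _ _).trans_lt (max_lt h5 h6)
  by_contra hcon
  push Not at hcon
  exact absurd h7 (not_lt.mpr (le_mul_of_one_le_left zero_le hcon))

end

end Pool.Agent.C98
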